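import Pool.Agent.Q255.SA.Main

/-! # Common almost periods -/

set_option autoImplicit false

namespace Pool.Agent.Q255.SA

open NumberField IsDedekindDomain Finset Pool.Agent.H921R2.TatePole
  Pool.Agent.H341R2 Pool.Agent.H341R2.EC Pool.Agent.W350.EdgeEC Pool.Agent.W350.EdgeNF
  Pool.Agent.W350.EdgeV MeasureTheory Filter Topology

theorem ee_add (t h u : ℝ) : ee (t + h) u = ee t u * ee h u := by
  unfold ee
  rw [← Complex.exp_add]
  congr 1
  push_cast
  ring

theorem ee_continuous (u : ℝ) : Continuous fun t => ee t u := by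
  unfold ee
  fun_prop

/-- Common almost periods of finitely many oscillations are relatively dense. -/
theorem rel_dense (x : ℕ) {δ : ℝ} (hδ : 0 < δ) : ∃ L : ℝ, 0 < L ∧ ∀ b : ℝ, ∃ h : ℝ,
    b ≤ h ∧ h ≤ b + L ∧ ∀ n < x, ‖ee h n - 1‖ < δ := by
  set Φ : ℝ → (Fin x → ℂ) := fun h n => ee h (n : ℕ) with hΦ
  have hb : Bornology.IsBounded (Set.range Φ) := by
    rw [isBounded_iff_forall_norm_le]
    refine ⟨1, ?_⟩
    rintro _ ⟨h, rfl⟩
    rw [pi_norm_le_iff_of_nonneg zero_le_one]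
    intro n
    simp only [hΦ]
    rw [norm_ee]
  have ht : TotallyBounded (Set.range Φ) :=
    (Bornology.IsBounded.isCompact_closure hb).totallyBounded.subset subset_closure
  obtain ⟨s, hs1, hs2, hs3⟩ := totallyBounded_iff_subset.1 ht _ (Metric.dist_mem_uniformity hδ)
  have hs1' : ∀ y ∈ s, ∃ g : ℝ, Φ g = y := fun y hy => hs1 hy
  choose! g hg using hs1'
  obtain ⟨R, hR⟩ : ∃ R : ℝ, ∀ y ∈ s, |g y| ≤ R := by
    have h1 : (g '' s).Finite := hs2.image g
    obtain ⟨R, hR⟩ := h1.isBounded.exists_norm_le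
    exact ⟨R, fun y hy => by
      have := hR (g y) (Set.mem_image_of_mem g hy)
      rwa [Real.norm_eq_abs] at this⟩
  have hR0 : 0 ≤ max R 0 := le_max_right _ _
  refine ⟨2 * max R 0 + 1, by linarith, fun b => ?_⟩
  have h2 := hs3 (Set.mem_range_self (b + max R 0))
  rw [Set.mem_iUnion₂] at h2
  obtain ⟨y, hy, hd⟩ := h2
  have hd' : dist (Φ (b + max R 0)) y < δ := hd
  have hgy := abs_le.1 (hR y hy)
  have hRm : R ≤ max R 0 := le_max_left _ _
  refine ⟨b + max R 0 - g y, by linarith, by linarith, fun n hn => ?_⟩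
  rw [← hg y hy] at hd'
  have h3 := (dist_pi_lt_iff hδ).1 hd' ⟨n, hn⟩
  simp only [hΦ] at h3
  rw [dist_eq_norm] at h3
  have h4 : ee (b + max R 0) n - ee (g y) n = ee (g y) n * (ee (b + max R 0 - g y) n - 1) := by
    have : b + max R 0 = g y + (b + max R 0 - g y) := by ring
    rw [this, ee_add]
    have e : g y + (b + max R 0 - g y) - g y = b + max R 0 - g y := by ring
    rw [e]
    ring
  rw [h4, norm_mul, norm_ee, one_mul] at h3
  exact h3

section
variable {K : Type} [Field K] [NumberField K]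

theorem cpow_shift (v : HeightOneSpectrum (𝓞 K)) (τ h : ℝ) :
    (nm v : ℂ) ^ (-ep (τ + h)) = (nm v : ℂ) ^ (-ep τ) * ee h (nm v) := by
  have h0 := nm_pos v
  have hlog : Complex.log (nm v : ℂ) = ((Real.log (nm v) : ℝ) : ℂ) := by
    rw [← Complex.ofReal_natCast, Complex.ofReal_log h0.le]
  unfold ep ee
  rw [Complex.cpow_def_of_ne_zero (nmC_ne v), Complex.cpow_def_of_ne_zero (nmC_ne v), hlog,
    ← Complex.exp_add]
  congr 1
  push_cast
  ring

open Classical in
theorem wv_shift (W : HeightOneSpectrum (𝓞 K) → WeierstrassCurve (𝓞 K))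
    (v : HeightOneSpectrum (𝓞 K)) (τ h : ℝ) {δ : ℝ} (hh : ‖ee h (nm v) - 1‖ ≤ δ) :
    ‖wv W v (ep (τ + h)) - wv W v (ep τ)‖ ≤ 3 * δ := by
  have hδ : 0 ≤ δ := (norm_nonneg _).trans hh
  have h0 := nm_pos v
  have h2 : (2 : ℝ) ≤ nm v := by exact_mod_cast two_le_nm v
  have e1 : wv W v (ep (τ + h)) - wv W v (ep τ) =
      (trc W v : ℂ) * (nm v : ℂ) ^ (-ep τ) * (ee h (nm v) - 1) -
      (if (W v).Δ ∈ v.asIdeal then 0 else (nm v : ℂ)) * (nm v : ℂ) ^ (-2 * ep τ) *
        ((ee h (nm v) - 1) * (ee h (nm v) + 1)) := by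
    unfold wv
    rw [cpow_two, cpow_two, cpow_shift]
    ring
  rw [e1]
  refine (norm_sub_le _ _).trans ?_
  have a1 : ‖(trc W v : ℂ) * (nm v : ℂ) ^ (-ep τ)‖ ≤ 1 := by
    rw [norm_mul, norm_cpow_ep, Complex.norm_intCast]
    have h3 : |(trc W v : ℝ)| ≤ nm v := by exact_mod_cast trc_le W v
    calc |(trc W v : ℝ)| * (nm v : ℝ) ^ (-(3 / 2) : ℝ)
        ≤ (nm v : ℝ) * (nm v : ℝ) ^ (-(3 / 2) : ℝ) :=
          mul_le_mul_of_nonneg_right h3 (by positivity)
      _ = (nm v : ℝ) ^ (-(1 / 2) : ℝ) := by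
          nth_rewrite 1 [← Real.rpow_one (nm v : ℝ)]
          rw [← Real.rpow_add h0]
          norm_num
      _ ≤ 1 := Real.rpow_le_one_of_one_le_of_nonpos (by linarith) (by norm_num)
  have a2 := second_le W v τ
  have a3 : (nm v : ℝ) ^ (-2 : ℝ) ≤ 1 :=
    Real.rpow_le_one_of_one_le_of_nonpos (by linarith) (by norm_num)
  have a4 : ‖ee h (nm v) + 1‖ ≤ 2 := by
    refine (norm_add_le _ _).trans ?_
    rw [norm_ee, norm_one]
    norm_num
  have a5 : ‖(trc W v : ℂ) * (nm v : ℂ) ^ (-ep τ) * (ee h (nm v) - 1)‖ ≤ 1 * δ := by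
    rw [norm_mul]
    exact mul_le_mul a1 hh (norm_nonneg _) zero_le_one
  have a6 : ‖(if (W v).Δ ∈ v.asIdeal then 0 else (nm v : ℂ)) * (nm v : ℂ) ^ (-2 * ep τ) *
        ((ee h (nm v) - 1) * (ee h (nm v) + 1))‖ ≤ 1 * (δ * 2) := by
    rw [norm_mul]
    refine mul_le_mul (a2.trans a3) ?_ (norm_nonneg _) zero_le_one
    rw [norm_mul]
    exact mul_le_mul hh a4 (norm_nonneg _) hδ
  linarith

theorem log_lf (W : HeightOneSpectrum (𝓞 K) → WeierstrassCurve (𝓞 K))
    (v : HeightOneSpectrum (𝓞 K)) (τ : ℝ) :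
    1 / 25 ≤ ‖1 - wv W v (ep τ)‖ ∧ |Real.log ‖1 - wv W v (ep τ)‖| ≤ 4 := by
  have h1 := norm_wv_all W v τ
  have h2 : 1 / 25 ≤ ‖1 - wv W v (ep τ)‖ := by
    have h3 := norm_sub_norm_le (1 : ℂ) (wv W v (ep τ))
    rw [norm_one] at h3
    linarith
  have h3 : ‖1 - wv W v (ep τ)‖ ≤ 2 := by
    refine (norm_sub_le _ _).trans ?_
    rw [norm_one]
    linarith
  have h25 : Real.log 25 ≤ 4 := by
    have h4 : Real.log 25 = 2 * Real.log 5 := by
      rw [show (25 : ℝ) = 5 ^ 2 by norm_num, Real.log_pow]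
      norm_num
    have h5 : Real.log 5 ≤ Real.log 8 := Real.log_le_log (by norm_num) (by norm_num)
    have h6 : Real.log 8 = 3 * Real.log 2 := by
      rw [show (8 : ℝ) = 2 ^ 3 by norm_num, Real.log_pow]
      norm_num
    have := Real.log_two_lt_d9
    rw [h4]
    by_contra h
    push Not at h
    have h7 : Real.log 5 > 2 := by linarith
    have h8 : Real.exp 2 < 5 := by
      rw [← Real.lt_log_iff_exp_lt (by norm_num)]
      exact h7
    have h9 := Real.exp_one_gt_d9
    have h10 : Real.exp 2 = Real.exp 1 * Real.exp 1 := by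
      rw [← Real.exp_add]
      norm_num
    nlinarith
  refine ⟨h2, abs_le.2 ⟨?_, ?_⟩⟩
  · have h4 := Real.log_le_log (by norm_num) h2
    rw [one_div, Real.log_inv] at h4
    linarith
  · have h4 := Real.log_le_log (by linarith) h3
    have := Real.log_two_lt_d9
    linarith

theorem log_diff {a b : ℝ} (ha : 1 / 25 ≤ a) (hb : 1 / 25 ≤ b) :
    |Real.log a - Real.log b| ≤ 25 * |a - b| := by
  have key : ∀ a b : ℝ, 1 / 25 ≤ a → 1 / 25 ≤ b → Real.log a - Real.log b ≤ 25 * |a - b| := by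
    intro a b ha hb
    have ha0 : 0 < a := by linarith
    have hb0 : 0 < b := by linarith
    rw [← Real.log_div ha0.ne' hb0.ne']
    have h1 := Real.log_le_sub_one_of_pos (div_pos ha0 hb0)
    have h2 : a / b - 1 = (a - b) / b := by field_simp
    rw [h2] at h1
    refine h1.trans ?_
    rw [div_le_iff₀ hb0]
    have h3 := le_abs_self (a - b)
    have h4 := abs_nonneg (a - b)
    nlinarith
  rw [abs_le]
  have h1 := key a b ha hb
  have h2 := key b a hb ha
  rw [abs_sub_comm] at h2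
  constructor <;> linarith

theorem log_PP (W : HeightOneSpectrum (𝓞 K) → WeierstrassCurve (𝓞 K)) (x : ℕ) (τ : ℝ) :
    Real.log ‖PP W x τ‖ = -∑ v ∈ FV nm hfin x, Real.log ‖1 - wv W v (ep τ)‖ := by
  unfold PP
  rw [norm_prod, Real.log_prod, ← Finset.sum_neg_distrib]
  · refine Finset.sum_congr rfl fun v _ => ?_
    rw [lf_eq, norm_inv, Real.log_inv]
  · intro v _
    rw [lf_eq, norm_inv]
    have := (log_lf W v τ).1
    exact (inv_pos.2 (by linarith)).ne'

theorem card_FV (x : ℕ) : (FV (nm : HeightOneSpectrum (𝓞 K) → ℕ) hfin x).card ≤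
    Module.finrank ℚ K * x := by
  classical
  rw [Finset.card_eq_sum_card_fiberwise (f := fun v => (below v : ℕ)) (t := range x)
    (fun v hv => by
      have hv' : nm v < x := mem_FV.1 hv
      have := below_le_nm v
      simp only [Finset.coe_range, Set.mem_Iio]
      omega)]
  have h1 : ∀ p ∈ range x, ((FV (nm : HeightOneSpectrum (𝓞 K) → ℕ) hfin x).filter
      fun v => (below v : ℕ) = p).card ≤ Module.finrank ℚ K := by
    intro p _
    by_cases he : ((FV (nm : HeightOneSpectrum (𝓞 K) → ℕ) hfin x).filter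
      fun v => (below v : ℕ) = p).Nonempty
    · obtain ⟨u, hu⟩ := he
      have hu' := (Finset.mem_filter.1 hu).2
      exact card_above (below u) _ fun v hv => Subtype.ext
        (((Finset.mem_filter.1 hv).2).trans hu'.symm)
    · rw [Finset.not_nonempty_iff_eq_empty] at he
      rw [he]
      simp
  refine (Finset.sum_le_sum h1).trans ?_
  rw [Finset.sum_const, Finset.card_range, smul_eq_mul, mul_comm]

end

theorem exp_lip {a b B : ℝ} (ha : a ≤ B) (hb : b ≤ B) :
    |Real.exp a - Real.exp b| ≤ Real.exp B * |a - b| := by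
  have key : ∀ a b : ℝ, a ≤ B → Real.exp a - Real.exp b ≤ Real.exp B * |a - b| := by
    intro a b ha
    have h1 : Real.exp b = Real.exp a * Real.exp (b - a) := by
      rw [← Real.exp_add]
      congr 1
      ring
    have h2 := Real.add_one_le_exp (b - a)
    have h3 : 0 < Real.exp a := Real.exp_pos a
    have h4 : Real.exp a ≤ Real.exp B := Real.exp_le_exp.2 ha
    have h5 := le_abs_self (a - b)
    have h6 := abs_nonneg (a - b)
    rw [h1]
    calc Real.exp a - Real.exp a * Real.exp (b - a) ≤ Real.exp a * (a - b) := by nlinarith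
      _ ≤ Real.exp a * |a - b| := by gcongr
      _ ≤ Real.exp B * |a - b| := by gcongr
  rw [abs_le]
  have h1 := key a b ha
  have h2 := key b a hb
  rw [abs_sub_comm] at h2
  constructor <;> linarith

/-- The powers of the partial products have common almost periods. -/
theorem PP_shift (d x : ℕ) {η : ℝ} (hη : 0 < η) : ∃ δ : ℝ, 0 < δ ∧
    ∀ (K : Type) [Field K] [NumberField K], Module.finrank ℚ K ≤ d →
    ∀ (W : HeightOneSpectrum (𝓞 K) → WeierstrassCurve (𝓞 K)) (h : ℝ),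
      (∀ n < x, ‖ee h n - 1‖ < δ) → ∀ r : ℝ, |r| ≤ 1 → ∀ τ : ℝ,
        |‖PP W x (τ + h)‖ ^ r - ‖PP W x τ‖ ^ r| ≤ η := by
  set A : ℝ := d * x with hA
  have hA0 : 0 ≤ A := by positivity
  refine ⟨η / (75 * (A + 1) * Real.exp (4 * A)), by positivity, fun K _ _ hK W h hh r hr τ => ?_⟩
  set δ := η / (75 * (A + 1) * Real.exp (4 * A)) with hδ
  have hδ0 : 0 < δ := by positivity
  have hcard : ((FV (nm : HeightOneSpectrum (𝓞 K) → ℕ) hfin x).card : ℝ) ≤ A := by
    have h1 := card_FV (K := K) x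
    have h2 : Module.finrank ℚ K * x ≤ d * x := Nat.mul_le_mul_right x hK
    rw [hA]
    exact_mod_cast h1.trans h2
  have hlog : ∀ τ, |Real.log ‖PP W x τ‖| ≤ 4 * A := by
    intro τ
    rw [log_PP, abs_neg]
    refine (Finset.abs_sum_le_sum_abs _ _).trans ?_
    refine (Finset.sum_le_sum fun v _ => (log_lf W v τ).2).trans ?_
    rw [Finset.sum_const, nsmul_eq_mul]
    linarith
  have hdiff : |Real.log ‖PP W x (τ + h)‖ - Real.log ‖PP W x τ‖| ≤ A * (75 * δ) := by
    rw [log_PP, log_PP]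
    have e : -∑ v ∈ FV nm hfin x, Real.log ‖1 - wv W v (ep (τ + h))‖ -
        -∑ v ∈ FV nm hfin x, Real.log ‖1 - wv W v (ep τ)‖ =
        -∑ v ∈ FV nm hfin x, (Real.log ‖1 - wv W v (ep (τ + h))‖ -
          Real.log ‖1 - wv W v (ep τ)‖) := by
      rw [Finset.sum_sub_distrib]
      ring
    rw [e, abs_neg]
    refine (Finset.abs_sum_le_sum_abs _ _).trans ?_
    have h3 : ∀ v ∈ FV nm hfin x, |Real.log ‖1 - wv W v (ep (τ + h))‖ -
        Real.log ‖1 - wv W v (ep τ)‖| ≤ 75 * δ := by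
      intro v hv
      refine (log_diff (log_lf W v _).1 (log_lf W v _).1).trans ?_
      have h4 := abs_norm_sub_norm_le (1 - wv W v (ep (τ + h))) (1 - wv W v (ep τ))
      have h5 : 1 - wv W v (ep (τ + h)) - (1 - wv W v (ep τ)) =
          -(wv W v (ep (τ + h)) - wv W v (ep τ)) := by ring
      rw [h5, norm_neg] at h4
      have h6 := wv_shift W v τ h (hh (nm v) (mem_FV.1 hv)).le
      linarith
    refine (Finset.sum_le_sum h3).trans ?_
    rw [Finset.sum_const, nsmul_eq_mul]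
    exact mul_le_mul_of_nonneg_right hcard (by positivity)
  have hpow : ∀ τ, ‖PP W x τ‖ ^ r = Real.exp (r * Real.log ‖PP W x τ‖) := by
    intro τ
    rw [Real.rpow_def_of_pos (norm_pos_iff.2 (PP_ne W x τ)), mul_comm]
  have hb : ∀ τ, r * Real.log ‖PP W x τ‖ ≤ 4 * A := by
    intro τ
    refine (le_abs_self _).trans ?_
    rw [abs_mul]
    calc |r| * |Real.log ‖PP W x τ‖| ≤ 1 * (4 * A) :=
          mul_le_mul hr (hlog τ) (abs_nonneg _) zero_le_one
      _ = _ := one_mul _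
  rw [hpow, hpow]
  refine (exp_lip (hb _) (hb _)).trans ?_
  rw [← mul_sub, abs_mul]
  have h7 : |r| * |Real.log ‖PP W x (τ + h)‖ - Real.log ‖PP W x τ‖| ≤ 1 * (A * (75 * δ)) :=
    mul_le_mul hr hdiff (abs_nonneg _) zero_le_one
  calc Real.exp (4 * A) * (|r| * |Real.log ‖PP W x (τ + h)‖ - Real.log ‖PP W x τ‖|)
      ≤ Real.exp (4 * A) * (1 * (A * (75 * δ))) := by gcongr
    _ ≤ Real.exp (4 * A) * (1 * ((A + 1) * (75 * δ))) := by gcongr; linarith
    _ = η := by
      rw [hδ]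
      have : Real.exp (4 * A) ≠ 0 := (Real.exp_pos _).ne'
      field_simp

end Pool.Agent.Q255.SA
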