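import Pool.Agent.Q255.SA.AP

/-! # Uniform Stepanov almost periodicity -/

set_option autoImplicit false

namespace Pool.Agent.Q255.SA

open NumberField IsDedekindDomain Finset Pool.Agent.H921R2.TatePole
  Pool.Agent.H341R2 Pool.Agent.H341R2.EC Pool.Agent.W350.EdgeEC Pool.Agent.W350.EdgeNF
  Pool.Agent.W350.EdgeV MeasureTheory Filter Topology

theorem shift_int (G : ℝ → ENNReal) (a h : ℝ) :
    ∫⁻ t in Set.Icc a (a + 1), G (t + h) = ∫⁻ t in Set.Icc (a + h) (a + h + 1), G t := by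
  have h1 := (measurePreserving_add_right volume h).setLIntegral_comp_preimage_emb
    (MeasurableEquiv.addRight h).measurableEmbedding G (Set.Icc (a + h) (a + h + 1))
  rw [Set.preimage_add_const_Icc] at h1
  have e1 : a + h - h = a := by ring
  have e2 : a + h + 1 - h = a + 1 := by ring
  rw [e1, e2] at h1
  exact h1

theorem lim_aemeas {K : Type} [Field K] [NumberField K]
    {W : HeightOneSpectrum (𝓞 K) → WeierstrassCurve (𝓞 K)} {T : Set ℝ} (hT : volume T = 0)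
    {l : ℝ → ℂ} (hl : IsLim W T l) : AEMeasurable l volume := by
  refine aemeasurable_of_tendsto_metrizable_ae atTop
    (fun x => (PP_continuous W x).measurable.aemeasurable) ?_
  have : ∀ᵐ t ∂(volume : Measure ℝ), t ∉ T := by
    rw [ae_iff]
    simpa using hT
  filter_upwards [this] with t ht
  exact (hl t ht).2

theorem ec_ap (d : ℕ) {r0 : ℝ} (h0 : 0 ≤ r0) (h1 : 4 * d * r0 < 1) {ε : ℝ} (hε : 0 < ε) :
    ∃ L : ℝ, 0 < L ∧ ∀ b : ℝ, ∃ h : ℝ, b ≤ h ∧ h ≤ b + L ∧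
    ∀ (K : Type) [Field K] [NumberField K], Module.finrank ℚ K ≤ d →
    ∀ (W : HeightOneSpectrum (𝓞 K) → WeierstrassCurve (𝓞 K)) (T : Set ℝ), volume T = 0 →
    ∀ l : ℝ → ℂ, IsLim W T l → ∀ r : ℝ, |r| ≤ r0 → ∀ a : ℝ,
      ∫⁻ t in Set.Icc a (a + 1), ENNReal.ofReal ((‖l (t + h)‖ ^ r - ‖l t‖ ^ r) ^ 2) ≤
        ENNReal.ofReal ε := by
  obtain ⟨C, hC, happ⟩ := ec_approx d h0 h1
  have hlim : Tendsto (fun x : ℕ => C * (Real.log x) ^ (-(1 - 4 * d * r0))) atTop (𝓝 (C * 0)) := by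
    refine Tendsto.const_mul C ?_
    exact (tendsto_rpow_neg_atTop (by linarith)).comp
      (Real.tendsto_log_atTop.comp tendsto_natCast_atTop_atTop)
  rw [mul_zero] at hlim
  obtain ⟨x, hx1, hx2⟩ := ((hlim.eventually (gt_mem_nhds (by positivity : 0 < ε / 9))).and
    (eventually_ge_atTop 3)).exists
  set η := Real.sqrt (ε / 9) with hη
  have hη0 : 0 < η := Real.sqrt_pos.2 (by positivity)
  have hη2 : η ^ 2 = ε / 9 := Real.sq_sqrt (by positivity)
  obtain ⟨δ, hδ, hsh⟩ := PP_shift d x hη0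
  obtain ⟨L, hL, hrel⟩ := rel_dense x hδ
  refine ⟨L, hL, fun b => ?_⟩
  obtain ⟨h, hb1, hb2, hh⟩ := hrel b
  refine ⟨h, hb1, hb2, fun K _ _ hK W T hT l hl r hr a => ?_⟩
  have hd1 : 1 ≤ d := (Nat.one_le_iff_ne_zero.2 (Module.finrank_pos (R := ℚ) (M := K)).ne').trans hK
  have hr1 : |r| ≤ 1 := by
    have hd' : (1 : ℝ) ≤ d := by exact_mod_cast hd1
    nlinarith
  have g1 : ∀ a : ℝ, ∫⁻ t in Set.Icc a (a + 1), ENNReal.ofReal ((‖l t‖ ^ r - ‖PP W x t‖ ^ r) ^ 2) ≤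
      ENNReal.ofReal (ε / 9) := fun a =>
    (happ K hK W T hT l hl r hr x hx2 a).trans (ENNReal.ofReal_le_ofReal hx1.le)
  have hpt : ∀ t : ℝ, ENNReal.ofReal ((‖l (t + h)‖ ^ r - ‖l t‖ ^ r) ^ 2) ≤
      3 * ((ENNReal.ofReal ((‖l (t + h)‖ ^ r - ‖PP W x (t + h)‖ ^ r) ^ 2) +
        ENNReal.ofReal (ε / 9)) + ENNReal.ofReal ((‖l t‖ ^ r - ‖PP W x t‖ ^ r) ^ 2)) := by
    intro t
    have h2 := hsh K hK W h hh r hr1 t
    have h3 : (‖PP W x (t + h)‖ ^ r - ‖PP W x t‖ ^ r) ^ 2 ≤ ε / 9 := by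
      rw [← hη2, ← sq_abs]
      exact pow_le_pow_left₀ (abs_nonneg _) h2 2
    have e3 : (3 : ENNReal) = ENNReal.ofReal 3 := by norm_num
    rw [e3, ← ENNReal.ofReal_add (by positivity) (by positivity),
      ← ENNReal.ofReal_add (by positivity) (by positivity), ← ENNReal.ofReal_mul (by norm_num)]
    refine ENNReal.ofReal_le_ofReal ?_
    set A := ‖l (t + h)‖ ^ r
    set B := ‖PP W x (t + h)‖ ^ r
    set D := ‖PP W x t‖ ^ r
    set F := ‖l t‖ ^ r
    have e4 : A - F = (A - B) + (B - D) + (D - F) := by ring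
    rw [e4]
    nlinarith [sq_nonneg ((A - B) - (B - D)), sq_nonneg ((A - B) - (D - F)),
      sq_nonneg ((B - D) - (D - F))]
  refine (lintegral_mono fun t => hpt t).trans ?_
  rw [lintegral_const_mul' _ _ (by norm_num)]
  have hm : AEMeasurable (fun t => ENNReal.ofReal ((‖l t‖ ^ r - ‖PP W x t‖ ^ r) ^ 2))
      (volume.restrict (Set.Icc a (a + 1))) := by
    have h5 := (lim_aemeas hT hl).restrict (s := Set.Icc a (a + 1))
    have h6 := (PP_pow_continuous W x r).measurable.aemeasurable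
      (μ := volume.restrict (Set.Icc a (a + 1)))
    exact (((h5.norm.pow_const r).sub h6).pow_const 2).ennreal_ofReal
  rw [lintegral_add_right' _ hm, lintegral_add_right' _ aemeasurable_const, lintegral_const,
    shift_int (fun t => ENNReal.ofReal ((‖l t‖ ^ r - ‖PP W x t‖ ^ r) ^ 2)) a h]
  have e5 : volume.restrict (Set.Icc a (a + 1)) Set.univ = 1 := by
    rw [Measure.restrict_apply_univ, Real.volume_Icc]
    simp
  rw [e5, mul_one]
  have g2 := g1 (a + h)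
  have g3 := g1 a
  calc 3 * ((∫⁻ t in Set.Icc (a + h) (a + h + 1),
        ENNReal.ofReal ((‖l t‖ ^ r - ‖PP W x t‖ ^ r) ^ 2)) + ENNReal.ofReal (ε / 9) +
        ∫⁻ t in Set.Icc a (a + 1), ENNReal.ofReal ((‖l t‖ ^ r - ‖PP W x t‖ ^ r) ^ 2))
      ≤ 3 * (ENNReal.ofReal (ε / 9) + ENNReal.ofReal (ε / 9) + ENNReal.ofReal (ε / 9)) := by
        gcongr
    _ = ENNReal.ofReal ε := by
        have e3 : (3 : ENNReal) = ENNReal.ofReal 3 := by norm_num
        rw [e3, ← ENNReal.ofReal_add (by positivity) (by positivity),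
          ← ENNReal.ofReal_add (by positivity) (by positivity), ← ENNReal.ofReal_mul (by norm_num)]
        congr 1
        ring
    _ ≤ _ := le_rfl

end Pool.Agent.Q255.SA
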