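import Pool.Agent.Q255.SA.Muck

/-! # Sums of `log p / p^(1+it)` -/

set_option autoImplicit false

namespace Pool.Agent.Q255.SA

open Finset MeasureTheory Filter Topology

/-- the summand without the logarithm -/
noncomputable def g1 (t u : ℝ) : ℂ := ee t u * ((1 / u : ℝ) : ℂ)

/-- its derivative -/
noncomputable def g1' (t u : ℝ) : ℂ :=
  -(ee t u * ((1 / u ^ 2 : ℝ) : ℂ) * (t * Complex.I + 1))

theorem hasDeriv_g1 (t : ℝ) {u : ℝ} (hu : 2 ≤ u) : HasDerivAt (g1 t) (g1' t u) u := by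
  have hu0 : u ≠ 0 := by linarith
  have h1 : HasDerivAt (fun u : ℝ => ((1 / u : ℝ) : ℂ)) (-((1 / u ^ 2 : ℝ) : ℂ)) u := by
    have h2 := (hasDerivAt_inv hu0).ofReal_comp
    have e1 : (fun u : ℝ => ((1 / u : ℝ) : ℂ)) = fun u : ℝ => ((u⁻¹ : ℝ) : ℂ) := by
      funext u
      rw [one_div]
    rw [e1]
    refine h2.congr_deriv ?_
    push_cast
    rw [one_div]
  have h2 := (hasDeriv_ee t hu).mul h1
  refine h2.congr_deriv ?_
  unfold g1'
  have hu0' : (u : ℂ) ≠ 0 := by exact_mod_cast hu0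
  push_cast
  field_simp
  ring

theorem norm_g1' {t u : ℝ} (ht : |t| ≤ 1) (hu : 2 ≤ u) : ‖g1' t u‖ ≤ 2 / u ^ 2 := by
  unfold g1'
  rw [norm_neg, norm_mul, norm_mul, norm_ee, one_mul, Complex.norm_real,
    Real.norm_of_nonneg (by positivity)]
  have h3 : ‖(t * Complex.I + 1 : ℂ)‖ ≤ 2 := by
    refine (norm_add_le _ _).trans ?_
    rw [norm_mul, Complex.norm_I, mul_one, Complex.norm_real, norm_one, Real.norm_eq_abs]
    linarith
  calc 1 / u ^ 2 * ‖(t * Complex.I + 1 : ℂ)‖ ≤ 1 / u ^ 2 * 2 := by gcongr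
    _ = _ := by ring

theorem cont_g1 (t : ℝ) : ContinuousOn (g1 t) (Set.Ici 2) ∧ ContinuousOn (g1' t) (Set.Ici 2) := by
  have h2 : ContinuousOn (g1 t) (Set.Ici 2) := fun u hu =>
    (hasDeriv_g1 t hu).continuousAt.continuousWithinAt
  refine ⟨h2, ?_⟩
  unfold g1'
  have h3 : ContinuousOn (fun u : ℝ => 1 / u ^ 2) (Set.Ici 2) :=
    continuousOn_const.div (continuousOn_id.pow 2) fun u hu => by
      have : (2 : ℝ) ≤ u := hu
      positivity
  exact (((cont_on t).1.mul (Complex.continuous_ofReal.comp_continuousOn h3)).mul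
    continuousOn_const).neg

theorem g1_cc (t : ℝ) (k : ℕ) : g1 t k * cc k =
    if k.Prime then (Real.log k : ℂ) * (ee t k / k) else 0 := by
  unfold cc g1
  split_ifs with h
  · push_cast
    ring
  · rw [mul_zero]

/-- the primitive -/
theorem int_g1 {t : ℝ} (ht : t ≠ 0) {x z : ℝ} (hx : 2 ≤ x) (hxz : x ≤ z) :
    ‖∫ u in x..z, g1 t u‖ ≤ 2 / |t| := by
  have hge : ∀ u ∈ Set.uIcc x z, 2 ≤ u := by
    intro u hu
    rw [Set.uIcc_of_le hxz] at hu
    linarith [hu.1]
  have hg : IntervalIntegrable (g1 t) volume x z :=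
    ContinuousOn.intervalIntegrable ((cont_g1 t).1.mono hge)
  have hder : ∀ u ∈ Set.uIcc x z, HasDerivAt (ee t) (-(t * Complex.I) * g1 t u) u := by
    intro u hu
    have h1 := hasDeriv_ee t (hge u hu)
    refine h1.congr_deriv ?_
    unfold g1
    push_cast
    ring
  have h1 := intervalIntegral.integral_eq_sub_of_hasDerivAt hder (hg.const_mul _)
  rw [intervalIntegral.integral_const_mul] at h1
  have ht' : 0 < |t| := abs_pos.2 ht
  rw [le_div_iff₀ ht']
  have h7 : ‖∫ u in x..z, g1 t u‖ * |t| = ‖-(t * Complex.I : ℂ) * ∫ u in x..z, g1 t u‖ := by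
    rw [norm_mul, norm_neg, norm_mul, Complex.norm_I, mul_one, Complex.norm_real,
      Real.norm_eq_abs, mul_comm]
  rw [h7, h1]
  refine (norm_sub_le _ _).trans ?_
  rw [norm_ee, norm_ee]
  norm_num

theorem logsum_Ioc : ∃ C : ℝ, 0 < C ∧ ∀ (t : ℝ) (z : ℕ), 2 ≤ z → t ≠ 0 → |t| ≤ 1 →
    ‖∑ k ∈ Ioc 2 z, (if k.Prime then (Real.log k : ℂ) * (ee t k / k) else 0)‖ ≤ C / |t| := by
  obtain ⟨C, hC, hE⟩ := theta_err
  refine ⟨20 * C + 2, by positivity, fun t z hz ht ht1 => ?_⟩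
  have hz2 : (2 : ℝ) ≤ z := by exact_mod_cast hz
  have ht' : 0 < |t| := abs_pos.2 ht
  have hl2 : 1 / 2 ≤ Real.log 2 := by
    have := Real.log_two_gt_d9
    linarith
  have hl20 : 0 < Real.log 2 := by linarith
  have hlz : 0 < Real.log z := Real.log_pos (by linarith)
  have hlxz : Real.log 2 ≤ Real.log z := Real.log_le_log (by norm_num) hz2
  have hge : ∀ u ∈ Set.uIcc (2 : ℝ) z, 2 ≤ u := by
    intro u hu
    rw [Set.uIcc_of_le hz2] at hu
    linarith [hu.1]
  have hff : IntervalIntegrable (g1 t) volume 2 z :=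
    ContinuousOn.intervalIntegrable ((cont_g1 t).1.mono hge)
  have hfu : IntervalIntegrable (fun u : ℝ => g1' t u * (u : ℂ)) volume 2 z :=
    ContinuousOn.intervalIntegrable (((cont_g1 t).2.mono hge).mul
      Complex.continuous_ofReal.continuousOn)
  have hth : IntervalIntegrable (fun u : ℝ => g1' t u * (Chebyshev.theta u : ℂ)) volume 2 z := by
    rw [intervalIntegrable_iff_integrableOn_Icc_of_le hz2]
    have h1 : IntegrableOn (g1' t) (Set.Icc (2 : ℝ) z) :=
      ((cont_g1 t).2.mono fun u hu => hu.1).integrableOn_Icc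
    have h2 := integrableOn_mul_sum_Icc cc (m := 0) (by norm_num : (0 : ℝ) ≤ 2) h1
    simp_rw [sum_cc] at h2
    exact h2
  have habel : ∑ k ∈ Ioc 2 z, (if k.Prime then (Real.log k : ℂ) * (ee t k / k) else 0) =
      g1 t z * (Chebyshev.theta z : ℂ) - g1 t 2 * (Chebyshev.theta 2 : ℂ) -
        ∫ u in (2 : ℝ)..z, g1' t u * (Chebyshev.theta u : ℂ) := by
    have hd : ∀ u ∈ Set.Icc ((2 : ℕ) : ℝ) z, HasDerivAt (g1 t) (g1' t u) u := fun u hu =>
      hasDeriv_g1 t (by exact_mod_cast hu.1)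
    have hint : IntegrableOn (deriv (g1 t)) (Set.Icc ((2 : ℕ) : ℝ) z) := by
      apply ContinuousOn.integrableOn_Icc
      exact ((cont_g1 t).2.mono fun u hu => by exact_mod_cast hu.1).congr fun u hu =>
        (hd u hu).deriv
    have h := sum_mul_eq_sub_sub_integral_mul' cc hz
      (fun u hu => (hd u hu).differentiableAt) hint
    simp only [g1_cc] at h
    rw [h]
    have e1 : ∑ k ∈ Icc 0 z, cc k = (Chebyshev.theta z : ℂ) := by
      have := sum_cc z
      rwa [Nat.floor_natCast] at this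
    have e2 : ∑ k ∈ Icc 0 2, cc k = (Chebyshev.theta 2 : ℂ) := by
      have := sum_cc ((2 : ℕ) : ℝ)
      rw [Nat.floor_natCast] at this
      exact_mod_cast this
    rw [e1, e2, intervalIntegral.integral_of_le hz2]
    push_cast
    congr 1
    refine setIntegral_congr_fun measurableSet_Ioc fun u hu => ?_
    show deriv (g1 t) u * _ = _
    rw [sum_cc, (hd u ⟨by exact_mod_cast hu.1.le, hu.2⟩).deriv]
  rw [habel]
  have h1 : ∫ u in (2 : ℝ)..z, (g1' t u * (u : ℂ) + g1 t u) = g1 t z * (z : ℂ) - g1 t 2 * (2 : ℂ) := by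
    have h2 := intervalIntegral.integral_eq_sub_of_hasDerivAt (a := (2 : ℝ)) (b := z)
      (f := fun u : ℝ => g1 t u * (u : ℂ)) (f' := fun u => g1' t u * (u : ℂ) + g1 t u)
      (fun u hu => by
        have h3 : HasDerivAt (fun u : ℝ => g1 t u * (u : ℂ))
            (g1' t u * (u : ℂ) + g1 t u * ((1 : ℝ) : ℂ)) u :=
          (hasDeriv_g1 t (hge u hu)).mul ((hasDerivAt_id u).ofReal_comp)
        refine h3.congr_deriv ?_
        rw [Complex.ofReal_one, mul_one]) (hfu.add hff)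
    rw [h2]
    push_cast
    rfl
  rw [intervalIntegral.integral_add hfu hff] at h1
  have h4 : ∫ u in (2 : ℝ)..z, g1' t u * ((Chebyshev.theta u - u : ℝ) : ℂ) =
      (∫ u in (2 : ℝ)..z, g1' t u * (Chebyshev.theta u : ℂ)) -
        ∫ u in (2 : ℝ)..z, g1' t u * (u : ℂ) := by
    rw [← intervalIntegral.integral_sub hth hfu]
    refine intervalIntegral.integral_congr fun u _ => ?_
    show g1' t u * ((Chebyshev.theta u - u : ℝ) : ℂ) = _
    push_cast
    ring
  have h5 : g1 t z * (Chebyshev.theta z : ℂ) - g1 t 2 * (Chebyshev.theta 2 : ℂ) -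
        ∫ u in (2 : ℝ)..z, g1' t u * (Chebyshev.theta u : ℂ) =
      g1 t z * ((Chebyshev.theta z - z : ℝ) : ℂ) - g1 t 2 * ((Chebyshev.theta 2 - 2 : ℝ) : ℂ) -
        (∫ u in (2 : ℝ)..z, g1' t u * ((Chebyshev.theta u - u : ℝ) : ℂ)) +
        ∫ u in (2 : ℝ)..z, g1 t u := by
    rw [h4]
    push_cast
    linear_combination -h1
  rw [h5]
  have b1 : ∀ y : ℝ, 2 ≤ y → ‖g1 t y * ((Chebyshev.theta y - y : ℝ) : ℂ)‖ ≤ 4 * C := by
    intro y hy
    have hly : 1 / 2 ≤ Real.log y := hl2.trans (Real.log_le_log (by norm_num) hy)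
    unfold g1
    rw [norm_mul, norm_mul, norm_ee, one_mul, Complex.norm_real, Complex.norm_real,
      Real.norm_of_nonneg (by positivity), Real.norm_eq_abs]
    calc 1 / y * |Chebyshev.theta y - y|
        ≤ 1 / y * (C * (y / Real.log y ^ 2)) := by
          gcongr
          exact hE y hy
      _ = C * (1 / Real.log y ^ 2) := by
          have : y ≠ 0 := by linarith
          field_simp
      _ ≤ C * (1 / (1 / 2) ^ 2) := by gcongr
      _ = 4 * C := by ring
  have b2 : ‖∫ u in (2 : ℝ)..z, g1' t u * ((Chebyshev.theta u - u : ℝ) : ℂ)‖ ≤ 4 * C := by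
    have h3 := int_inv_log 0 (le_refl (2 : ℝ)) hz2
    have h6 : ‖∫ u in (2 : ℝ)..z, g1' t u * ((Chebyshev.theta u - u : ℝ) : ℂ)‖ ≤
        ∫ u in (2 : ℝ)..z, 2 * C * (1 / (u * Real.log u ^ (0 + 2))) := by
      refine intervalIntegral.norm_integral_le_of_norm_le hz2 (Eventually.of_forall fun u hu => ?_)
        (h3.1.const_mul _)
      have hu2 : 2 ≤ u := by linarith [hu.1]
      have hl : 0 < Real.log u := Real.log_pos (by linarith)
      rw [norm_mul, Complex.norm_real, Real.norm_eq_abs]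
      calc ‖g1' t u‖ * |Chebyshev.theta u - u| ≤ 2 / u ^ 2 * (C * (u / Real.log u ^ 2)) :=
            mul_le_mul (norm_g1' ht1 hu2) (hE u hu2) (abs_nonneg _) (by positivity)
        _ = _ := by field_simp
    rw [intervalIntegral.integral_const_mul, h3.2] at h6
    refine h6.trans ?_
    have h7 : 0 ≤ 1 / Real.log z ^ (0 + 1) := by positivity
    have h8 : 1 / Real.log 2 ≤ 2 := by
      rw [div_le_iff₀ hl20]
      linarith
    have h9 : (1 / Real.log 2 ^ (0 + 1) - 1 / Real.log z ^ (0 + 1)) / ((0 : ℕ) + 1) ≤ 2 := by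
      have e : (1 / Real.log 2 ^ (0 + 1) - 1 / Real.log z ^ (0 + 1)) / (((0 : ℕ) : ℝ) + 1) =
          1 / Real.log 2 - 1 / Real.log z := by
        norm_num
      have h10 : 0 ≤ 1 / Real.log z := by positivity
      rw [e]
      linarith
    calc 2 * C * ((1 / Real.log 2 ^ (0 + 1) - 1 / Real.log z ^ (0 + 1)) / ((0 : ℕ) + 1)) ≤
          2 * C * 2 := by gcongr
      _ = 4 * C := by ring
  have b3 := int_g1 ht (le_refl (2 : ℝ)) hz2
  have b4 := b1 z hz2
  have b5 : ‖g1 t 2 * ((Chebyshev.theta 2 - 2 : ℝ) : ℂ)‖ ≤ 4 * C := b1 2 le_rfl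
  have b6 : ‖g1 t z * ((Chebyshev.theta z - z : ℝ) : ℂ) - g1 t 2 * ((Chebyshev.theta 2 - 2 : ℝ) : ℂ) -
        (∫ u in (2 : ℝ)..z, g1' t u * ((Chebyshev.theta u - u : ℝ) : ℂ)) +
        ∫ u in (2 : ℝ)..z, g1 t u‖ ≤ 12 * C + 2 / |t| := by
    refine (norm_add_le _ _).trans (add_le_add ((norm_sub_le _ _).trans ((add_le_add
      ((norm_sub_le _ _).trans (add_le_add b4 b5)) b2).trans ?_)) b3)
    linarith
  refine b6.trans ?_
  have c5 : (20 * C + 2) / |t| = 20 * C * (1 / |t|) + 2 / |t| := by ring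
  have c6 : 1 ≤ 1 / |t| := by rwa [le_div_iff₀ ht', one_mul]
  rw [c5]
  nlinarith

/-- `∑_{p < z} log p / p^(1+it)` -/
noncomputable def LS (z : ℕ) (t : ℝ) : ℂ :=
  ∑ k ∈ Ico 0 z, (if k.Prime then (Real.log k : ℂ) * (ee t k / k) else 0)

theorem norm_LS : ∃ C : ℝ, 0 < C ∧ ∀ (t : ℝ) (z : ℕ), 2 ≤ z →
    ‖LS z t‖ ≤ Real.log z + C ∧ (t ≠ 0 → |t| ≤ 1 → ‖LS z t‖ ≤ C / |t|) := by
  obtain ⟨C, hC, h⟩ := logsum_Ioc
  obtain ⟨C', hC', h'⟩ := logsum
  refine ⟨C + C' + 4, by positivity, fun t z hz => ⟨?_, fun ht ht1 => ?_⟩⟩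
  · have h1 := h' z (by omega)
    have h2 : ‖LS z t‖ ≤ ∑ k ∈ Ico 0 z, (if k.Prime then Real.log k / (k : ℝ) else 0) := by
      unfold LS
      refine norm_sum_le_of_le _ fun k _ => ?_
      split_ifs
      · rw [norm_mul, norm_div, norm_ee, Complex.norm_natCast, Complex.norm_real,
          Real.norm_of_nonneg (Real.log_natCast_nonneg _)]
        rw [mul_one_div]
      · simp
    linarith
  · have ht' : 0 < |t| := abs_pos.2 ht
    set g : ℕ → ℂ := fun k => if k.Prime then (Real.log k : ℂ) * (ee t k / k) else 0 with hg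
    have e1 : LS z t = g 2 + (∑ k ∈ Ioc 2 z, g k) - g z := by
      have a1 : ∑ k ∈ Icc 2 z, g k = g z + ∑ k ∈ Ico 2 z, g k := by
        rw [← Finset.Ico_insert_right hz, Finset.sum_insert Finset.right_notMem_Ico]
      have a2 : ∑ k ∈ Icc 2 z, g k = g 2 + ∑ k ∈ Ioc 2 z, g k := by
        rw [← Finset.Ioc_insert_left hz, Finset.sum_insert Finset.left_notMem_Ioc]
      have a3 : LS z t = (∑ k ∈ Ico 0 2, g k) + ∑ k ∈ Ico 2 z, g k :=
        (Finset.sum_Ico_consecutive _ (Nat.zero_le 2) hz).symm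
      have a4 : ∑ k ∈ Ico 0 2, g k = 0 := by
        refine Finset.sum_eq_zero fun k hk => ?_
        rw [Finset.mem_Ico] at hk
        have : ¬ k.Prime := fun hp => by
          have := hp.two_le
          omega
        simp only [hg]
        rw [if_neg this]
      rw [a3, a4]
      linear_combination a2 - a1
    have hb : ∀ y : ℕ, 2 ≤ y → ‖g y‖ ≤ 1 := by
      intro y hy
      have hy0 : (0 : ℝ) < y := by exact_mod_cast (by omega : 0 < y)
      simp only [hg]
      split_ifs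
      · rw [norm_mul, norm_div, norm_ee, Complex.norm_natCast, Complex.norm_real,
          Real.norm_of_nonneg (Real.log_natCast_nonneg _), mul_one_div, div_le_one hy0]
        exact (Real.log_le_sub_one_of_pos hy0).trans (by linarith)
      · simp
    have h3 := h t z hz ht ht1
    rw [e1]
    have h4 : (C + C' + 4) / |t| = C / |t| + (C' + 4) * (1 / |t|) := by ring
    have c6 : 1 ≤ 1 / |t| := by rwa [le_div_iff₀ ht', one_mul]
    rw [h4]
    have h5 := norm_sub_le (g 2 + (∑ k ∈ Ioc 2 z, g k)) (g z)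
    have h6 := norm_add_le (g 2) (∑ k ∈ Ioc 2 z, g k)
    have h7 := hb 2 le_rfl
    have h8 := hb z hz
    nlinarith

end Pool.Agent.Q255.SA
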