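import Pool.Agent.Q255.SA.Bes1

/-! # Differences of sums over primes -/

set_option autoImplicit false

namespace Pool.Agent.Q255.SA

open Finset MeasureTheory Filter Topology

/-- the cut -/
noncomputable def yy (h : ℝ) : ℕ := ⌈Real.exp (2 / h)⌉₊

/-- the majorant of `|e^{-ih log k} - 1|` -/
noncomputable def om (h : ℝ) (k : ℕ) : ℝ := if k < yy h then h * Real.log k else 2

theorem om_nonneg {h : ℝ} (hh : 0 < h) (k : ℕ) : 0 ≤ om h k := by
  unfold om
  split_ifs
  · have := Real.log_natCast_nonneg k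
    positivity
  · norm_num

theorem le_om (h : ℝ) {k : ℕ} (hk : 1 ≤ k) : ‖ee h k - 1‖ ≤ om |h| k := by
  have hk1 : (1 : ℝ) ≤ k := by exact_mod_cast hk
  unfold om
  split_ifs
  · have := ee_lip h 0 hk1
    have e : ee 0 (k : ℝ) = 1 := by
      unfold ee
      simp
    rwa [e, sub_zero] at this
  · refine (norm_sub_le _ _).trans ?_
    rw [norm_ee, norm_one]
    norm_num

/-- the sum -/
noncomputable def QQ (h : ℝ) (z : ℕ) (t : ℝ) : ℂ :=
  ∑ k ∈ Ico 0 z, (if k.Prime then (om h k : ℂ) * (ee t k / k) else 0)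

theorem QQ_eq (h : ℝ) {z : ℕ} (hz : yy h ≤ z) (t : ℝ) :
    QQ h z t = h * LS (yy h) t + 2 * PS (yy h) z t := by
  unfold QQ LS PS
  rw [← Finset.sum_Ico_consecutive _ (Nat.zero_le (yy h)) hz, Finset.mul_sum, Finset.mul_sum]
  congr 1
  · refine Finset.sum_congr rfl fun k hk => ?_
    rw [Finset.mem_Ico] at hk
    split_ifs
    · unfold om
      rw [if_pos hk.2]
      push_cast
      ring
    · simp
  · refine Finset.sum_congr rfl fun k hk => ?_
    rw [Finset.mem_Ico] at hk
    split_ifs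
    · unfold om
      rw [if_neg (by omega)]
      push_cast
      ring
    · simp

theorem QQ_continuous (h : ℝ) (z : ℕ) : Continuous (QQ h z) := by
  unfold QQ
  refine continuous_finset_sum _ fun k _ => ?_
  split_ifs
  · unfold ee
    fun_prop
  · exact continuous_const

theorem yy_facts {h : ℝ} (h0 : 0 < h) (h1 : h ≤ 1) :
    3 ≤ yy h ∧ 2 / h ≤ Real.log (yy h) ∧ h * Real.log (yy h) ≤ 3 := by
  have h2 : 2 ≤ 2 / h := by
    rw [le_div_iff₀ h0]
    linarith
  have h3 : Real.exp (2 / h) ≤ yy h := Nat.le_ceil _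
  have he := Real.exp_one_gt_d9
  have h4 : Real.exp 1 ≤ Real.exp (2 / h) := Real.exp_le_exp.2 (by linarith)
  have h5 : 3 ≤ yy h := by
    have h6 : (2 : ℝ) < yy h := by linarith
    have : 2 < yy h := by exact_mod_cast h6
    omega
  have h6 : 2 / h ≤ Real.log (yy h) := by
    have := Real.log_le_log (Real.exp_pos _) h3
    rwa [Real.log_exp] at this
  refine ⟨h5, h6, ?_⟩
  have h7 : (yy h : ℝ) ≤ Real.exp (2 / h + 1) := by
    have h8 : (yy h : ℝ) ≤ Real.exp (2 / h) + 1 :=
      (Nat.ceil_lt_add_one (Real.exp_pos (2 / h)).le).le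
    rw [Real.exp_add]
    nlinarith
  have h9 := Real.log_le_log (by positivity : (0 : ℝ) < yy h) h7
  rw [Real.log_exp] at h9
  calc h * Real.log (yy h) ≤ h * (2 / h + 1) := by gcongr
    _ = 2 + h := by field_simp
    _ ≤ 3 := by linarith

theorem QQ_bounds : ∃ C : ℝ, 0 < C ∧ ∀ (h : ℝ), 0 < h → h ≤ 1 → ∀ (z : ℕ), yy h ≤ z →
    ∀ t : ℝ, t ≠ 0 → |t| ≤ 1 →
      (|t| ≤ h → (QQ h z t).re ≤ 2 * (Real.log h - Real.log |t|) + C) ∧
      (h ≤ |t| → ‖QQ h z t‖ ≤ C * (h / |t|)) := by
  obtain ⟨C1, hC1, hL⟩ := norm_LS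
  obtain ⟨C2, hC2, hP2⟩ := prim_tail
  obtain ⟨C3, hC3, hP3⟩ := P3
  refine ⟨3 + 2 * C1 + 2 * C2 + 2 * C3, by positivity, fun h h0 h1 z hz t ht ht1 => ?_⟩
  obtain ⟨hy3, hy1, hy2⟩ := yy_facts h0 h1
  have ht' : 0 < |t| := abs_pos.2 ht
  obtain ⟨l1, l2⟩ := hL t (yy h) (by omega)
  have hly : 0 < Real.log (yy h) := lt_of_lt_of_le (by positivity) hy1
  have hy1' : 2 ≤ h * Real.log (yy h) := by
    rw [div_le_iff₀ h0] at hy1
    linarith
  rw [QQ_eq h hz]
  refine ⟨fun hth => ?_, fun hth => ?_⟩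
  · have a1 : ((h : ℂ) * LS (yy h) t).re ≤ 3 + C1 := by
      refine (Complex.re_le_norm _).trans ?_
      rw [norm_mul, Complex.norm_real, Real.norm_of_nonneg h0.le]
      calc h * ‖LS (yy h) t‖ ≤ h * (Real.log (yy h) + C1) := by gcongr
        _ = h * Real.log (yy h) + h * C1 := by ring
        _ ≤ 3 + 1 * C1 := by gcongr
        _ = _ := by ring
    have a2 : (PS (yy h) z t).re ≤ (Real.log h - Real.log |t|) + (C2 + C3) := by
      by_cases hc : |t| * Real.log (yy h) ≤ 1
      · have h3 := hP3 t (yy h) z hy3 hz ht ht1 hc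
        have h4 : Real.log |t| - Real.log h ≤ Real.log (|t| * Real.log (yy h)) := by
          rw [← Real.log_div ht'.ne' h0.ne']
          refine Real.log_le_log (by positivity) ?_
          rw [div_le_iff₀ h0]
          nlinarith
        linarith
      · push Not at hc
        have h3 := (Complex.re_le_norm _).trans (hP2 t (yy h) z (by omega) hz ht ht1)
        have h4 : C2 / (|t| * Real.log (yy h)) ≤ C2 := by
          rw [div_le_iff₀ (by linarith)]
          nlinarith
        have h5 : Real.log |t| ≤ Real.log h := Real.log_le_log ht' hth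
        linarith
    have a3 : ((2 : ℂ) * PS (yy h) z t).re = 2 * (PS (yy h) z t).re := by
      have := Complex.re_ofReal_mul 2 (PS (yy h) z t)
      simpa using this
    rw [Complex.add_re, a3]
    linarith
  · have a1 : ‖(h : ℂ) * LS (yy h) t‖ ≤ C1 * (h / |t|) := by
      rw [norm_mul, Complex.norm_real, Real.norm_of_nonneg h0.le]
      calc h * ‖LS (yy h) t‖ ≤ h * (C1 / |t|) := by
            gcongr
            exact l2 ht ht1
        _ = _ := by ring
    have a2 : ‖(2 : ℂ) * PS (yy h) z t‖ ≤ C2 * (h / |t|) := by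
      rw [norm_mul, Complex.norm_ofNat]
      have h3 := hP2 t (yy h) z (by omega) hz ht ht1
      have h4 : C2 / (|t| * Real.log (yy h)) ≤ C2 * (h / |t|) / 2 := by
        rw [div_le_iff₀ (by positivity)]
        calc C2 = C2 * (h / |t|) / 2 * (|t| * (2 / h)) := by field_simp
          _ ≤ C2 * (h / |t|) / 2 * (|t| * Real.log (yy h)) := by gcongr
      linarith
    have h5 : 0 < h / |t| := by positivity
    refine (norm_add_le _ _).trans ?_
    nlinarith

theorem bes_maj {κ : ℝ} (h0 : 0 ≤ κ) (h1 : κ < 1 / 4) : ∃ C : ℝ, 0 < C ∧ ∀ h : ℝ, 0 < h →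
    h ≤ 1 → ∀ z : ℕ, yy h ≤ z →
    ∫ t in (-1 : ℝ)..1, ‖Complex.exp (κ * QQ h z t) - 1‖ ^ 2 ≤ C * h := by
  obtain ⟨C1, hC1, hQ⟩ := QQ_bounds
  set K1 := (Real.exp (κ * C1) + 1) ^ 2 with hK1
  set K2 := (κ * C1 * Real.exp (κ * C1)) ^ 2 with hK2
  have hK1' : 0 < K1 := by positivity
  have hK2' : 0 ≤ K2 := by positivity
  have hk : 0 < 1 - 2 * (2 * κ) := by linarith
  refine ⟨2 * (K1 / (1 - 2 * (2 * κ)) + K2), by positivity, fun h hh0 hh1 z hz => ?_⟩
  set G : ℝ → ℝ := fun t => ‖Complex.exp (κ * QQ h z t) - 1‖ ^ 2 with hG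
  have hGc : Continuous G := by
    have := QQ_continuous h z
    fun_prop
  have hb1 : ∀ t : ℝ, t ≠ 0 → |t| ≤ h → G t ≤ (K1 * h ^ (2 * (2 * κ))) * |t| ^ (-(2 * (2 * κ))) := by
    intro t ht hth
    have ht' : 0 < |t| := abs_pos.2 ht
    have h2 := (hQ h hh0 hh1 z hz t ht (hth.trans hh1)).1 hth
    have hle : Real.log |t| ≤ Real.log h := Real.log_le_log ht' hth
    have h4 : ‖Complex.exp (κ * QQ h z t) - 1‖ ≤ (Real.exp (κ * C1) + 1) *
        Real.exp (2 * κ * (Real.log h - Real.log |t|)) := by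
      refine (norm_sub_le _ _).trans ?_
      rw [norm_one, Complex.norm_exp, Complex.re_ofReal_mul, add_mul, one_mul]
      refine add_le_add ?_ (Real.one_le_exp (by
        apply mul_nonneg (by positivity)
        linarith))
      rw [← Real.exp_add, Real.exp_le_exp]
      nlinarith
    calc G t ≤ ((Real.exp (κ * C1) + 1) * Real.exp (2 * κ * (Real.log h - Real.log |t|))) ^ 2 := by
          simp only [hG]
          gcongr
      _ = K1 * (Real.exp (2 * κ * (Real.log h - Real.log |t|))) ^ 2 := by rw [hK1, mul_pow]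
      _ = _ := by
          rw [← Real.exp_nat_mul, Real.rpow_def_of_pos hh0, Real.rpow_def_of_pos ht', mul_assoc K1,
            ← Real.exp_add]
          congr 2
          push_cast
          ring
  have hb2 : ∀ t : ℝ, h ≤ |t| → |t| ≤ 1 → G t ≤ K2 * h ^ 2 * |t| ^ (-(2 * (0 : ℝ)) - 2) := by
    intro t hth ht1
    have ht' : 0 < |t| := hh0.trans_le hth
    have ht : t ≠ 0 := abs_pos.1 ht'
    have h3 := (hQ h hh0 hh1 z hz t ht ht1).2 hth
    have h5 : h / |t| ≤ 1 := by
      rw [div_le_one ht']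
      exact hth
    have h6 : ‖(κ : ℂ) * QQ h z t‖ ≤ κ * (C1 * (h / |t|)) := by
      rw [norm_mul, Complex.norm_real, Real.norm_of_nonneg h0]
      gcongr
    have h7 : ‖Complex.exp (κ * QQ h z t) - 1‖ ≤ κ * C1 * Real.exp (κ * C1) * (h / |t|) := by
      refine (exp_sub_one_le _).trans ?_
      have h9 : Real.exp ‖(κ : ℂ) * QQ h z t‖ ≤ Real.exp (κ * C1) := by
        refine Real.exp_le_exp.2 (h6.trans ?_)
        calc κ * (C1 * (h / |t|)) ≤ κ * (C1 * 1) := by gcongr
          _ = κ * C1 := by ring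
      calc ‖(κ : ℂ) * QQ h z t‖ * Real.exp ‖(κ : ℂ) * QQ h z t‖ ≤
            (κ * (C1 * (h / |t|))) * Real.exp (κ * C1) := by gcongr
        _ = _ := by ring
    calc G t ≤ (κ * C1 * Real.exp (κ * C1) * (h / |t|)) ^ 2 := by
          simp only [hG]
          gcongr
      _ = K2 * h ^ 2 * (|t|⁻¹) ^ 2 := by
          rw [hK2]
          ring
      _ = _ := by
          congr 1
          rw [← Real.rpow_neg_one, ← Real.rpow_natCast (|t| ^ (-1 : ℝ)), ← Real.rpow_mul ht'.le]
          congr 1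
          push_cast
          ring
  have e1 : 2 * (K1 / (1 - 2 * (2 * κ)) + K2) * h =
      2 * (K1 / (1 - 2 * (2 * κ)) * h + K2 * h ^ (1 - 2 * (0 : ℝ))) := by
    have : (1 : ℝ) - 2 * 0 = 1 := by norm_num
    rw [this, Real.rpow_one]
    ring
  have hval : K1 * h ^ (2 * (2 * κ)) * (h ^ (1 - 2 * (2 * κ)) / (1 - 2 * (2 * κ))) =
      K1 / (1 - 2 * (2 * κ)) * h := by
    have h3 : h ^ (2 * (2 * κ)) * h ^ (1 - 2 * (2 * κ)) = h := by
      rw [← Real.rpow_add hh0]
      have : 2 * (2 * κ) + (1 - 2 * (2 * κ)) = 1 := by ring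
      rw [this, Real.rpow_one]
    calc _ = K1 * (h ^ (2 * (2 * κ)) * h ^ (1 - 2 * (2 * κ))) / (1 - 2 * (2 * κ)) := by ring
      _ = _ := by rw [h3]; ring
  rw [e1]
  refine int_sym hGc (δ := h) ?_ ?_ ?_ ?_
  · rw [← hval]
    refine int_small hGc (by positivity) (by linarith) hh0 fun t ht ht1 => ?_
    have := hb1 t ht.ne' (by rwa [abs_of_pos ht])
    rwa [abs_of_pos ht] at this
  · rw [← hval]
    refine int_small (hGc.comp continuous_neg) (by positivity) (by linarith) hh0
      fun t ht ht1 => ?_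
    have := hb1 (-t) (by linarith) (by rwa [abs_neg, abs_of_pos ht])
    rwa [abs_neg, abs_of_pos ht] at this
  · refine int_large hGc le_rfl hK2' hh0 hh1 fun t ht ht1 => ?_
    have ht0 : 0 < t := hh0.trans_le ht
    have := hb2 t (by rwa [abs_of_pos ht0]) (by rwa [abs_of_pos ht0])
    rwa [abs_of_pos ht0] at this
  · refine int_large (hGc.comp continuous_neg) le_rfl hK2' hh0 hh1 fun t ht ht1 => ?_
    have ht0 : 0 < t := hh0.trans_le ht
    have := hb2 (-t) (by rwa [abs_neg, abs_of_pos ht0]) (by rwa [abs_neg, abs_of_pos ht0])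
    rwa [abs_neg, abs_of_pos ht0] at this

theorem dom_QQ {c : ℕ → ℂ} {κ : ℝ} (h0 : 0 ≤ κ) (hc : ∀ k, k.Prime → ‖c k‖ ≤ κ)
    (hc0 : ∀ k, ¬ k.Prime → c k = 0) {h : ℝ} (hh : h ≠ 0) (z : ℕ) :
    Dom (fun t => CS c 0 z (t + h) - CS c 0 z t) (fun t => κ * QQ |h| z t) := by
  have hh' : 0 < |h| := abs_pos.2 hh
  have h1 : ∀ k ∈ Ico 0 z, Dom (fun t => c k * (ee h k - 1) * (ee t k / k))
      (fun t => κ * (if k.Prime then (om |h| k : ℂ) * (ee t k / k) else 0)) := by
    intro k _
    have e1 : ∀ t : ℝ, ee t k = Complex.exp (((-Real.log k : ℝ) : ℂ) * t * Complex.I) := by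
      intro t
      unfold ee
      congr 1
      push_cast
      ring
    by_cases hk : k.Prime
    · have h2 := Dom.single (c := c k * (ee h k - 1) / k) (b := κ * om |h| k / k) (by
        rw [norm_div, norm_mul, Complex.norm_natCast]
        gcongr
        · exact hc k hk
        · exact le_om h hk.one_lt.le) (-Real.log k)
      refine cast ?_ h2
      congr 1
      · funext t
        rw [e1 t]
        ring
      · funext t
        rw [if_pos hk, e1]
        push_cast
        ring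
    · have h2 := Dom.zero
      refine cast ?_ h2
      congr 1
      · funext t
        rw [hc0 k hk, zero_mul, zero_mul]
      · funext t
        rw [if_neg hk, mul_zero]
  have h3 := Dom.sum (Ico 0 z) h1
  refine cast ?_ h3
  congr 1
  · funext t
    unfold CS
    rw [← Finset.sum_sub_distrib]
    refine Finset.sum_congr rfl fun k _ => ?_
    have e2 : ee (t + h) k = ee t k * ee h k := by
      unfold ee
      rw [← Complex.exp_add]
      congr 1
      push_cast
      ring
    rw [e2]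
    ring
  · funext t
    unfold QQ
    rw [Finset.mul_sum]

/-- Abstract difference estimate. -/
theorem bes_core {κ : ℝ} (h0 : 0 ≤ κ) (h1 : κ < 1 / 4) {M : ℝ} (hM : 0 ≤ M) : ∃ C : ℝ, 0 < C ∧
    ∀ c : ℕ → ℂ, (∀ k, k.Prime → ‖c k‖ ≤ κ) → (∀ k, ¬ k.Prime → c k = 0) →
    ∀ H : ℕ → ℝ → ℂ, (∀ x, Continuous (H x)) →
    ∀ h : ℝ, h ≠ 0 → |h| ≤ 1 → (∀ x t, ‖H x (t + h) - H x t‖ ≤ M * Real.sqrt |h|) →
    ∀ (z : ℕ) (a : ℝ), yy |h| ≤ z →
      ∫ t in a..(a + 1), (pv c H z (t + h) / pv c H z t - 1) ^ 2 ≤ C * |h| := by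
  obtain ⟨C1, hC1, hm⟩ := bes_maj h0 h1
  set E := Real.exp M with hE
  refine ⟨4 * E ^ 2 * C1 + 2 * (M * E) ^ 2, by positivity,
    fun c hc hc0 H hHc h hh hh1 hHd z a hz => ?_⟩
  have hh' : 0 < |h| := abs_pos.2 hh
  have c1 := CS_continuous c 0 z
  have c4 := hHc z
  have hs1 : Real.sqrt |h| ≤ 1 := Real.sqrt_le_one.2 hh1
  have hpt : ∀ t : ℝ, (pv c H z (t + h) / pv c H z t - 1) ^ 2 ≤
      2 * E ^ 2 * ‖Complex.exp (CS c 0 z (t + h) - CS c 0 z t) - 1‖ ^ 2 +
      2 * (M * E) ^ 2 * |h| := by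
    intro t
    have e1 : pv c H z (t + h) / pv c H z t =
        ‖Complex.exp ((CS c 0 z (t + h) - CS c 0 z t) + (H z (t + h) - H z t))‖ := by
      unfold pv
      rw [← norm_div, ← Complex.exp_sub]
      congr 2
      ring
    have e3 : Complex.exp ((CS c 0 z (t + h) - CS c 0 z t) + (H z (t + h) - H z t)) - 1 =
        (Complex.exp (CS c 0 z (t + h) - CS c 0 z t) - 1) * Complex.exp (H z (t + h) - H z t) +
        (Complex.exp (H z (t + h) - H z t) - 1) := by
      rw [Complex.exp_add]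
      ring
    have hM1 : ‖H z (t + h) - H z t‖ ≤ M := (hHd z t).trans (by nlinarith)
    have hE1 : ‖Complex.exp (H z (t + h) - H z t)‖ ≤ E :=
      (Complex.norm_exp_le_exp_norm _).trans (Real.exp_le_exp.2 hM1)
    have e2 : |pv c H z (t + h) / pv c H z t - 1| ≤
        ‖Complex.exp (CS c 0 z (t + h) - CS c 0 z t) - 1‖ * E + M * E * Real.sqrt |h| := by
      rw [e1]
      have := abs_norm_sub_norm_le (Complex.exp ((CS c 0 z (t + h) - CS c 0 z t) +
        (H z (t + h) - H z t))) 1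
      rw [norm_one] at this
      refine this.trans ?_
      rw [e3]
      refine (norm_add_le _ _).trans (add_le_add ?_ ?_)
      · rw [norm_mul]
        gcongr
      · refine (exp_sub_one_le _).trans ?_
        calc ‖H z (t + h) - H z t‖ * Real.exp ‖H z (t + h) - H z t‖ ≤
              (M * Real.sqrt |h|) * E :=
              mul_le_mul (hHd z t) (Real.exp_le_exp.2 hM1) (Real.exp_pos _).le (by positivity)
          _ = _ := by ring
    have e4 := sq_le_sq' (by
      have := abs_nonneg (pv c H z (t + h) / pv c H z t - 1)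
      linarith) e2
    rw [sq_abs] at e4
    refine e4.trans ?_
    set p := ‖Complex.exp (CS c 0 z (t + h) - CS c 0 z t) - 1‖
    have hs2 : Real.sqrt |h| ^ 2 = |h| := Real.sq_sqrt (abs_nonneg h)
    calc (p * E + M * E * Real.sqrt |h|) ^ 2 ≤ 2 * (p * E) ^ 2 + 2 * (M * E * Real.sqrt |h|) ^ 2 := by
          nlinarith [sq_nonneg (p * E - M * E * Real.sqrt |h|)]
      _ = 2 * E ^ 2 * p ^ 2 + 2 * (M * E) ^ 2 * |h| := by
          rw [mul_pow (M * E), hs2]
          ring
  have hne : ∀ t, pv c H z t ≠ 0 := fun t => by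
    unfold pv
    exact norm_ne_zero_iff.2 (Complex.exp_ne_zero _)
  have hpvc : Continuous (pv c H z) := by
    unfold pv
    fun_prop
  have h2 : ∫ t in a..(a + 1), (pv c H z (t + h) / pv c H z t - 1) ^ 2 ≤
      ∫ t in a..(a + 1), (2 * E ^ 2 *
        ‖Complex.exp (CS c 0 z (t + h) - CS c 0 z t) - 1‖ ^ 2 + 2 * (M * E) ^ 2 * |h|) := by
    refine intervalIntegral.integral_mono_on (by linarith) ?_ ?_ fun t _ => hpt t
    · apply Continuous.intervalIntegrable
      exact (((hpvc.comp (continuous_add_const h)).div hpvc hne).sub continuous_const).pow 2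
    · apply Continuous.intervalIntegrable
      fun_prop
  refine h2.trans ?_
  rw [intervalIntegral.integral_add (by apply Continuous.intervalIntegrable; fun_prop)
    (by simp), intervalIntegral.integral_const_mul, intervalIntegral.integral_const]
  have h3 := (dom_QQ h0 hc hc0 hh z).exp_sub_one.maj a one_pos
  have h4 := hm |h| hh' hh1 z hz
  have h5 : 2 * E ^ 2 * (∫ t in a..(a + 1), ‖Complex.exp (CS c 0 z (t + h) - CS c 0 z t) - 1‖ ^ 2) ≤
      2 * E ^ 2 * (2 * (C1 * |h|)) := by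
    refine mul_le_mul_of_nonneg_left (h3.trans ?_) (by positivity)
    linarith
  have h6 : (a + 1 - a) • (2 * (M * E) ^ 2 * |h|) = 2 * (M * E) ^ 2 * |h| := by
    rw [smul_eq_mul]
    ring
  rw [h6]
  linarith

end Pool.Agent.Q255.SA
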