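import Pool.Agent.Q255.SA.Muck

/-! # Muckenhoupt weights from elliptic curves -/

set_option autoImplicit false

namespace Pool.Agent.Q255.SA

open NumberField IsDedekindDomain Finset Pool.Agent.H921R2.TatePole
  Pool.Agent.H341R2 Pool.Agent.H341R2.EC Pool.Agent.W350.EdgeEC Pool.Agent.W350.EdgeNF
  Pool.Agent.W350.EdgeV MeasureTheory Filter Topology

/-- Passage to the limit. -/
theorem fatou2 {g : ℝ → ℝ} {f : ℕ → ℝ → ℝ} (hf : ∀ z, Continuous (f z)) (hf0 : ∀ z t, 0 ≤ f z t)
    {T : Set ℝ} (hT : volume T = 0) (hl : ∀ t ∉ T, Tendsto (fun z => f z t) atTop (𝓝 (g t)))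
    {a b B : ℝ} (hab : a ≤ b) {Z : ℕ} (hB : ∀ z, Z ≤ z → ∫ t in a..b, f z t ≤ B) :
    ∫⁻ t in Set.Icc a b, ENNReal.ofReal (g t) ≤ ENNReal.ofReal B := by
  have hae : ∀ᵐ t ∂(volume.restrict (Set.Icc a b)), t ∉ T := by
    refine ae_restrict_of_ae ?_
    rw [ae_iff]
    simpa using hT
  have h1 : ∀ᵐ t ∂(volume.restrict (Set.Icc a b)), ENNReal.ofReal (g t) =
      liminf (fun z => ENNReal.ofReal (f z t)) atTop := by
    filter_upwards [hae] with t ht
    symm
    apply Tendsto.liminf_eq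
    exact (ENNReal.continuous_ofReal.tendsto _).comp (hl t ht)
  rw [lintegral_congr_ae h1]
  refine (lintegral_liminf_le fun z => ?_).trans ?_
  · exact (ENNReal.continuous_ofReal.comp (hf z)).measurable
  · refine (liminf_le_of_frequently_le' ?_)
    refine Eventually.frequently ?_
    filter_upwards [eventually_ge_atTop Z] with z hz
    rw [← ofReal_integral_eq_lintegral_ofReal ((hf z).continuousOn.integrableOn_Icc)
      (Eventually.of_forall fun t => hf0 z t)]
    refine ENNReal.ofReal_le_ofReal ?_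
    rw [integral_Icc_eq_integral_Ioc, ← intervalIntegral.integral_of_le hab]
    exact hB z hz

theorem ec_muck (d : ℕ) {q : ℝ} (h0 : 0 ≤ q) (h1 : 2 * d * q < 1) : ∃ C : ℝ, 0 < C ∧
    ∀ (K : Type) [Field K] [NumberField K], Module.finrank ℚ K ≤ d →
    ∀ (W : HeightOneSpectrum (𝓞 K) → WeierstrassCurve (𝓞 K)) (T : Set ℝ), volume T = 0 →
    ∀ l : ℝ → ℂ, IsLim W T l → ∀ a b : ℝ, a < b → ∃ w : ℝ, 0 < w ∧
      (∫⁻ t in Set.Icc a b, ENNReal.ofReal (‖l t‖ ^ q) ≤ ENNReal.ofReal (C * w * (b - a))) ∧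
      ∫⁻ t in Set.Icc a b, ENNReal.ofReal (‖l t‖ ^ (-q)) ≤ ENNReal.ofReal (C * w⁻¹ * (b - a)) := by
  set κ := d * q with hκ
  have hκ0 : 0 ≤ κ := by positivity
  have hκ1 : κ < 1 / 2 := by linarith
  set M := (q / 2) * (M0 d * d * S0) with hM
  obtain ⟨C, hC, hany⟩ := any_int hκ0 hκ1 M
  refine ⟨C, hC, fun K _ _ hK W T hT l hl a b hab => ?_⟩
  have hdK : (Module.finrank ℚ K : ℝ) ≤ d := by exact_mod_cast hK
  have hbd : M0 (Module.finrank ℚ K) * Module.finrank ℚ K * S0 ≤ M0 d * d * S0 := by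
    refine mul_le_mul_of_nonneg_right ?_ S0_nonneg
    refine mul_le_mul ?_ hdK (by positivity) (M0_nonneg d)
    unfold M0
    gcongr
    norm_num
  set r := q / 2 with hr
  have hr0 : 0 ≤ r := by positivity
  have hrr : ‖(r : ℂ)‖ = r := by rw [Complex.norm_real, Real.norm_of_nonneg hr0]
  obtain ⟨w, Z, hw, hz⟩ := hany (fun k => r * cK W k) (fun k hk => by
      rw [norm_mul, hrr]
      calc r * ‖cK W k‖ ≤ r * (2 * Module.finrank ℚ K) :=
            mul_le_mul_of_nonneg_left (norm_cK W hk) hr0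
        _ ≤ r * (2 * d) := by gcongr
        _ = κ := by rw [hκ, hr]; ring) (fun k hk => by
      unfold cK
      rw [if_neg hk, mul_zero]) (fun y t => r * HH W y t)
      (fun y => continuous_const.mul (HH_continuous W y)) (fun y t => by
        rw [norm_mul, hrr]
        exact mul_le_mul_of_nonneg_left ((HH_bound W y t).trans hbd) hr0) a b hab
  have hpp : ∀ z t, (pv (fun k => r * cK W k) (fun y t => r * HH W y t) z t) ^ 2 =
      ‖PP W z t‖ ^ q := by
    intro z t
    rw [← PP_pow, ← Real.rpow_natCast, ← Real.rpow_mul (norm_nonneg _)]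
    congr 1
    rw [hr]
    push_cast
    ring
  have hpp' : ∀ z t, ((pv (fun k => r * cK W k) (fun y t => r * HH W y t) z t)⁻¹) ^ 2 =
      ‖PP W z t‖ ^ (-q) := by
    intro z t
    rw [inv_pow, hpp, Real.rpow_neg (norm_nonneg _)]
  refine ⟨w, hw, ?_, ?_⟩
  · refine fatou2 (f := fun z t => ‖PP W z t‖ ^ q) (Z := Z)
      (fun z => PP_pow_continuous W z q) (fun z t => by positivity) hT
      (fun t ht => (hl t ht).2.norm.rpow_const (Or.inl (norm_ne_zero_iff.2 (hl t ht).1)))
      hab.le fun z hZ => ?_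
    have := (hz z hZ).1
    simp_rw [hpp] at this
    exact this
  · refine fatou2 (f := fun z t => ‖PP W z t‖ ^ (-q)) (Z := Z)
      (fun z => PP_pow_continuous W z (-q)) (fun z t => by positivity) hT
      (fun t ht => (hl t ht).2.norm.rpow_const (Or.inl (norm_ne_zero_iff.2 (hl t ht).1)))
      hab.le fun z hZ => ?_
    have := (hz z hZ).2
    simp_rw [hpp'] at this
    exact this

theorem exp_abs_le {q u m w : ℝ} (hq : 0 < q) (hu : 0 < u) (hw : 0 < w) (hm : m = Real.log w / q) :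
    Real.exp (q * |Real.log u - m|) ≤ w⁻¹ * u ^ q + w * u ^ (-q) := by
  have e1 : w⁻¹ * u ^ q = Real.exp (q * (Real.log u - m)) := by
    rw [hm, Real.rpow_def_of_pos hu, mul_sub, Real.exp_sub, mul_div_cancel₀ _ hq.ne',
      Real.exp_log hw, mul_comm (Real.log u)]
    field_simp
  have e2 : w * u ^ (-q) = Real.exp (-(q * (Real.log u - m))) := by
    rw [Real.exp_neg, ← e1, Real.rpow_neg hu.le, mul_inv, inv_inv]
  rw [e1, e2]
  rcases abs_cases (Real.log u - m) with ⟨h, _⟩ | ⟨h, _⟩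
  · rw [h]
    have := Real.exp_pos (-(q * (Real.log u - m)))
    linarith
  · rw [h]
    have := Real.exp_pos (q * (Real.log u - m))
    have e3 : q * -(Real.log u - m) = -(q * (Real.log u - m)) := by ring
    rw [e3]
    linarith

theorem ec_bmo (d : ℕ) {q : ℝ} (h0 : 0 < q) (h1 : 2 * d * q < 1) : ∃ C : ℝ, 0 < C ∧
    ∀ (K : Type) [Field K] [NumberField K], Module.finrank ℚ K ≤ d →
    ∀ (W : HeightOneSpectrum (𝓞 K) → WeierstrassCurve (𝓞 K)) (T : Set ℝ), volume T = 0 →
    ∀ l : ℝ → ℂ, IsLim W T l → ∀ a b : ℝ, a < b →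
      (∃ m : ℝ, ∫⁻ t in Set.Icc a b, ENNReal.ofReal (Real.exp (q * |Real.log ‖l t‖ - m|)) ≤
        ENNReal.ofReal (C * (b - a))) ∧
      (∫⁻ t in Set.Icc a b, ENNReal.ofReal (‖l t‖ ^ q)) *
        (∫⁻ t in Set.Icc a b, ENNReal.ofReal (‖l t‖ ^ (-q))) ≤
        ENNReal.ofReal (C * (b - a) ^ 2) := by
  obtain ⟨C, hC, h⟩ := ec_muck d h0.le h1
  refine ⟨2 * C + C ^ 2, by positivity, fun K _ _ hK W T hT l hl a b hab => ?_⟩
  obtain ⟨w, hw, i1, i2⟩ := h K hK W T hT l hl a b hab
  have hba : 0 < b - a := by linarith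
  refine ⟨⟨Real.log w / q, ?_⟩, ?_⟩
  · have hae : ∀ᵐ t ∂(volume.restrict (Set.Icc a b)), t ∉ T := by
      refine ae_restrict_of_ae ?_
      rw [ae_iff]
      simpa using hT
    have hle : ∫⁻ t in Set.Icc a b, ENNReal.ofReal (Real.exp (q * |Real.log ‖l t‖ -
        Real.log w / q|)) ≤ ∫⁻ t in Set.Icc a b, (ENNReal.ofReal w⁻¹ * ENNReal.ofReal (‖l t‖ ^ q) +
          ENNReal.ofReal w * ENNReal.ofReal (‖l t‖ ^ (-q))) := by
      refine lintegral_mono_ae ?_
      filter_upwards [hae] with t ht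
      have hlt : 0 < ‖l t‖ := norm_pos_iff.2 (hl t ht).1
      rw [← ENNReal.ofReal_mul (by positivity), ← ENNReal.ofReal_mul hw.le,
        ← ENNReal.ofReal_add (by positivity) (by positivity)]
      exact ENNReal.ofReal_le_ofReal (exp_abs_le h0 hlt hw rfl)
    refine hle.trans ?_
    have hlm : AEMeasurable l (volume.restrict (Set.Icc a b)) := by
      have : AEMeasurable l volume := by
        refine aemeasurable_of_tendsto_metrizable_ae atTop
          (fun x => (PP_continuous W x).measurable.aemeasurable) ?_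
        have : ∀ᵐ t ∂(volume : Measure ℝ), t ∉ T := by
          rw [ae_iff]
          simpa using hT
        filter_upwards [this] with t ht
        exact (hl t ht).2
      exact this.restrict
    have hm2 : AEMeasurable (fun t => ENNReal.ofReal w * ENNReal.ofReal (‖l t‖ ^ (-q)))
        (volume.restrict (Set.Icc a b)) := ((hlm.norm.pow_const _).ennreal_ofReal).const_mul _
    rw [lintegral_add_right' _ hm2, lintegral_const_mul' _ _ ENNReal.ofReal_ne_top,
      lintegral_const_mul' _ _ ENNReal.ofReal_ne_top]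
    calc ENNReal.ofReal w⁻¹ * (∫⁻ t in Set.Icc a b, ENNReal.ofReal (‖l t‖ ^ q)) +
          ENNReal.ofReal w * ∫⁻ t in Set.Icc a b, ENNReal.ofReal (‖l t‖ ^ (-q))
        ≤ ENNReal.ofReal w⁻¹ * ENNReal.ofReal (C * w * (b - a)) +
          ENNReal.ofReal w * ENNReal.ofReal (C * w⁻¹ * (b - a)) := by gcongr
      _ = ENNReal.ofReal (2 * C * (b - a)) := by
          rw [← ENNReal.ofReal_mul (by positivity), ← ENNReal.ofReal_mul hw.le,
            ← ENNReal.ofReal_add (by positivity) (by positivity)]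
          congr 1
          field_simp
          ring
      _ ≤ _ := by
          refine ENNReal.ofReal_le_ofReal ?_
          refine mul_le_mul_of_nonneg_right ?_ hba.le
          nlinarith [sq_nonneg C]
  · calc (∫⁻ t in Set.Icc a b, ENNReal.ofReal (‖l t‖ ^ q)) *
        (∫⁻ t in Set.Icc a b, ENNReal.ofReal (‖l t‖ ^ (-q)))
        ≤ ENNReal.ofReal (C * w * (b - a)) * ENNReal.ofReal (C * w⁻¹ * (b - a)) :=
          mul_le_mul' i1 i2
      _ = ENNReal.ofReal (C ^ 2 * (b - a) ^ 2) := by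
          rw [← ENNReal.ofReal_mul (by positivity)]
          congr 1
          field_simp
      _ ≤ _ := by
          refine ENNReal.ofReal_le_ofReal ?_
          refine mul_le_mul_of_nonneg_right ?_ (by positivity)
          linarith

end Pool.Agent.Q255.SA
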