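import Pool.Agent.Q255.SA.Bes2
import Pool.Agent.Q255.SA.AP
import Pool.Agent.Q255.SA.Muck2

/-! # Differences of the small part; differences of boundary functions -/

set_option autoImplicit false

namespace Pool.Agent.Q255.SA

open NumberField IsDedekindDomain Finset Pool.Agent.H921R2.TatePole
  Pool.Agent.H341R2 Pool.Agent.H341R2.EC Pool.Agent.W350.EdgeEC Pool.Agent.W350.EdgeNF
  Pool.Agent.W350.EdgeV MeasureTheory Filter Topology

theorem phi_lip {ρ : ℝ} (hρ : ρ < 1) {w w' : ℂ} (hw : ‖w‖ ≤ ρ) (hw' : ‖w'‖ ≤ ρ) :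
    ‖(-Complex.log (1 - w) - w) - (-Complex.log (1 - w') - w')‖ ≤ ρ / (1 - ρ) * ‖w - w'‖ := by
  have h0 : 0 ≤ ρ := (norm_nonneg _).trans hw
  have hder : ∀ x ∈ Metric.closedBall (0 : ℂ) ρ,
      HasDerivWithinAt (fun w : ℂ => -Complex.log (1 - w) - w) (x / (1 - x))
        (Metric.closedBall (0 : ℂ) ρ) x := by
    intro x hx
    rw [mem_closedBall_zero_iff] at hx
    have hre : (1 - x) ∈ Complex.slitPlane := by
      refine Or.inl ?_
      have := Complex.re_le_norm x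
      rw [Complex.sub_re, Complex.one_re]
      linarith
    have hne : 1 - x ≠ 0 := Complex.slitPlane_ne_zero hre
    have h1 : HasDerivAt (fun w : ℂ => 1 - w) (-1) x := by
      simpa using (hasDerivAt_id x).const_sub 1
    have h2 := (h1.clog hre).neg.sub (hasDerivAt_id x)
    refine (h2.congr_deriv ?_).hasDerivWithinAt
    field_simp
    ring
  have hb : ∀ x ∈ Metric.closedBall (0 : ℂ) ρ, ‖x / (1 - x)‖ ≤ ρ / (1 - ρ) := by
    intro x hx
    rw [mem_closedBall_zero_iff] at hx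
    rw [norm_div]
    have h3 : 1 - ρ ≤ ‖1 - x‖ := by
      have := norm_sub_norm_le (1 : ℂ) x
      rw [norm_one] at this
      linarith
    have : 0 < 1 - ρ := by linarith
    gcongr
  exact (convex_closedBall (0 : ℂ) ρ).norm_image_sub_le_of_norm_hasDerivWithin_le hder hb
    (by rwa [mem_closedBall_zero_iff]) (by rwa [mem_closedBall_zero_iff])

section
variable {K : Type} [Field K] [NumberField K]

open Classical in
/-- the second term of `wv` -/
noncomputable def w2 (W : HeightOneSpectrum (𝓞 K) → WeierstrassCurve (𝓞 K))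
    (v : HeightOneSpectrum (𝓞 K)) (τ : ℝ) : ℂ :=
  (if (W v).Δ ∈ v.asIdeal then 0 else (nm v : ℂ)) * (nm v : ℂ) ^ (-2 * ep τ)

theorem norm_w2 (W : HeightOneSpectrum (𝓞 K) → WeierstrassCurve (𝓞 K))
    (v : HeightOneSpectrum (𝓞 K)) (τ : ℝ) : ‖w2 W v τ‖ ≤ (nm v : ℝ) ^ (-2 : ℝ) := second_le W v τ

theorem w2_shift (W : HeightOneSpectrum (𝓞 K) → WeierstrassCurve (𝓞 K))
    (v : HeightOneSpectrum (𝓞 K)) (τ h : ℝ) :
    ‖w2 W v (τ + h) - w2 W v τ‖ ≤ 2 * ‖ee h (nm v) - 1‖ * (nm v : ℝ) ^ (-2 : ℝ) := by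
  have e1 : w2 W v (τ + h) - w2 W v τ = w2 W v τ * ((ee h (nm v) - 1) * (ee h (nm v) + 1)) := by
    unfold w2
    rw [cpow_two, cpow_two, cpow_shift]
    ring
  have a4 : ‖ee h (nm v) + 1‖ ≤ 2 := by
    refine (norm_add_le _ _).trans ?_
    rw [norm_ee, norm_one]
    norm_num
  rw [e1, norm_mul, norm_mul]
  calc ‖w2 W v τ‖ * (‖ee h (nm v) - 1‖ * ‖ee h (nm v) + 1‖) ≤
        (nm v : ℝ) ^ (-2 : ℝ) * (‖ee h (nm v) - 1‖ * 2) := by
        gcongr
        exact norm_w2 W v τ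
    _ = _ := by ring

theorem wv_eq (W : HeightOneSpectrum (𝓞 K) → WeierstrassCurve (𝓞 K))
    (v : HeightOneSpectrum (𝓞 K)) (τ : ℝ) :
    wv W v (ep τ) = (trc W v : ℂ) * (nm v : ℂ) ^ (-ep τ) - w2 W v τ := rfl

theorem rv_shift (W : HeightOneSpectrum (𝓞 K) → WeierstrassCurve (𝓞 K))
    (v : HeightOneSpectrum (𝓞 K)) (τ h : ℝ) :
    ‖rv W v (τ + h) - rv W v τ‖ ≤ 75 * 36 ^ Module.finrank ℚ K *
      (‖ee h (nm v) - 1‖ * (nm v : ℝ) ^ (-2 : ℝ)) := by
  have h0 := nm_pos v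
  set δ := ‖ee h (nm v) - 1‖ with hδ
  have hδ0 : 0 ≤ δ := norm_nonneg _
  have h36 : (1 : ℝ) ≤ 36 ^ Module.finrank ℚ K := one_le_pow₀ (by norm_num)
  by_cases h6 : (6 : 𝓞 K) ∈ v.asIdeal
  · have e1 : ∀ s, rv W v s = (-Complex.log (1 - wv W v (ep s)) - wv W v (ep s)) +
        wv W v (ep s) := by
      intro s
      unfold rv cv
      rw [if_pos h6]
      ring
    have e2 : rv W v (τ + h) - rv W v τ =
        ((-Complex.log (1 - wv W v (ep (τ + h))) - wv W v (ep (τ + h))) -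
          (-Complex.log (1 - wv W v (ep τ)) - wv W v (ep τ))) +
        (wv W v (ep (τ + h)) - wv W v (ep τ)) := by
      rw [e1, e1]
      ring
    have e3 := phi_lip (by norm_num : (24 / 25 : ℝ) < 1) (norm_wv_all W v (τ + h))
      (norm_wv_all W v τ)
    have e4 := wv_shift W v τ h (δ := δ) le_rfl
    have e5 : ‖rv W v (τ + h) - rv W v τ‖ ≤ 75 * δ := by
      rw [e2]
      refine (norm_add_le _ _).trans ?_
      have : (24 / 25 : ℝ) / (1 - 24 / 25) = 24 := by norm_num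
      rw [this] at e3
      linarith
    have h1 : (nm v : ℝ) ≤ 6 ^ Module.finrank ℚ K := by exact_mod_cast nm_le_of_six h6
    have h2 : (nm v : ℝ) ^ 2 ≤ 36 ^ Module.finrank ℚ K := by
      calc (nm v : ℝ) ^ 2 ≤ (6 ^ Module.finrank ℚ K) ^ 2 := pow_le_pow_left₀ h0.le h1 2
        _ = 36 ^ Module.finrank ℚ K := by
          rw [← pow_mul, mul_comm, pow_mul]
          norm_num
    have h3 : 1 ≤ 36 ^ Module.finrank ℚ K * (nm v : ℝ) ^ (-2 : ℝ) := by
      rw [Real.rpow_neg h0.le, Real.rpow_two, ← div_eq_mul_inv, le_div_iff₀ (by positivity)]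
      linarith
    calc ‖rv W v (τ + h) - rv W v τ‖ ≤ 75 * δ * 1 := by linarith
      _ ≤ 75 * δ * (36 ^ Module.finrank ℚ K * (nm v : ℝ) ^ (-2 : ℝ)) := by gcongr
      _ = _ := by ring
  · have e1 : ∀ s, rv W v s = (-Complex.log (1 - wv W v (ep s)) - wv W v (ep s)) - w2 W v s := by
      intro s
      rw [rv, first_cv h6, wv_eq]
      ring
    have e2 : rv W v (τ + h) - rv W v τ =
        ((-Complex.log (1 - wv W v (ep (τ + h))) - wv W v (ep (τ + h))) -
          (-Complex.log (1 - wv W v (ep τ)) - wv W v (ep τ))) -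
        (w2 W v (τ + h) - w2 W v τ) := by
      rw [e1, e1]
      ring
    have h5 : (5 : ℝ) ≤ nm v := by exact_mod_cast five_le_v h6
    have hρ : 11 / 5 / (nm v : ℝ) ≤ 11 / 25 := by
      rw [div_le_iff₀ h0]
      linarith
    have e3 := phi_lip (by linarith : 11 / 5 / (nm v : ℝ) < 1)
      (norm_wv_good (W := W) h6 (τ + h)).1 (norm_wv_good (W := W) h6 τ).1
    have e4 : 11 / 5 / (nm v : ℝ) / (1 - 11 / 5 / (nm v : ℝ)) ≤ 4 / nm v := by
      have : (0 : ℝ) < 1 - 11 / 5 / (nm v : ℝ) := by linarith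
      rw [div_le_div_iff₀ this h0]
      have h7 : 11 / 5 / (nm v : ℝ) * (nm v : ℝ) = 11 / 5 := by field_simp
      rw [h7]
      linarith
    have e5 : ‖wv W v (ep (τ + h)) - wv W v (ep τ)‖ ≤ 3 * δ / nm v := by
      have e6 : wv W v (ep (τ + h)) - wv W v (ep τ) =
          (trc W v : ℂ) * (nm v : ℂ) ^ (-ep τ) * (ee h (nm v) - 1) -
            (w2 W v (τ + h) - w2 W v τ) := by
        rw [wv_eq, wv_eq, cpow_shift]
        ring
      have a1 : ‖(trc W v : ℂ) * (nm v : ℂ) ^ (-ep τ)‖ ≤ 2 / nm v := by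
        rw [norm_mul, norm_cpow_ep, Complex.norm_intCast]
        have h3 : Real.sqrt (nm v) * (nm v : ℝ) ^ (-(3 / 2) : ℝ) = 1 / nm v := by
          have h4 : (1 / 2 + -(3 / 2) : ℝ) = -1 := by norm_num
          rw [Real.sqrt_eq_rpow, ← Real.rpow_add h0, h4, Real.rpow_neg_one, one_div]
        calc |(trc W v : ℝ)| * (nm v : ℝ) ^ (-(3 / 2) : ℝ)
            ≤ (2 * Real.sqrt (nm v)) * (nm v : ℝ) ^ (-(3 / 2) : ℝ) :=
              mul_le_mul_of_nonneg_right (trc_bound W v h6) (by positivity)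
          _ = 2 * (Real.sqrt (nm v) * (nm v : ℝ) ^ (-(3 / 2) : ℝ)) := by ring
          _ = 2 / nm v := by rw [h3]; ring
      have a2 := w2_shift W v τ h
      have a3 : (nm v : ℝ) ^ (-2 : ℝ) ≤ 1 / 5 / nm v := by
        rw [Real.rpow_neg h0.le, Real.rpow_two, ← one_div, div_div, div_le_div_iff₀
          (by positivity) (by positivity)]
        nlinarith
      rw [e6]
      refine (norm_sub_le _ _).trans ?_
      rw [norm_mul]
      have a4 : ‖(trc W v : ℂ) * (nm v : ℂ) ^ (-ep τ)‖ * ‖ee h (nm v) - 1‖ ≤ 2 / nm v * δ :=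
        mul_le_mul_of_nonneg_right a1 (norm_nonneg _)
      have a5 : 2 * δ * (nm v : ℝ) ^ (-2 : ℝ) ≤ 2 * δ * (1 / 5 / nm v) := by gcongr
      have a6 : 3 * δ / nm v = 3 * δ * (1 / nm v) := by ring
      have a7 : 2 / (nm v : ℝ) * δ + 2 * δ * (1 / 5 / nm v) = (12 / 5) * (δ * (1 / nm v)) := by ring
      have a8 : 0 ≤ δ * (1 / nm v) := by positivity
      linarith
    have e7 : ‖(-Complex.log (1 - wv W v (ep (τ + h))) - wv W v (ep (τ + h))) -
          (-Complex.log (1 - wv W v (ep τ)) - wv W v (ep τ))‖ ≤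
          12 * (δ * (nm v : ℝ) ^ (-2 : ℝ)) := by
      refine e3.trans ?_
      calc 11 / 5 / (nm v : ℝ) / (1 - 11 / 5 / (nm v : ℝ)) *
            ‖wv W v (ep (τ + h)) - wv W v (ep τ)‖ ≤ 4 / nm v * (3 * δ / nm v) := by
            refine mul_le_mul e4 e5 (norm_nonneg _) (by positivity)
        _ = _ := by
            rw [Real.rpow_neg h0.le, Real.rpow_two]
            field_simp
            ring
    rw [e2]
    refine (norm_sub_le _ _).trans ?_
    have e8 := w2_shift W v τ h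
    have e9 : 0 ≤ δ * (nm v : ℝ) ^ (-2 : ℝ) := by positivity
    calc _ ≤ 12 * (δ * (nm v : ℝ) ^ (-2 : ℝ)) + 2 * δ * (nm v : ℝ) ^ (-2 : ℝ) := add_le_add e7 e8
      _ = 14 * (δ * (nm v : ℝ) ^ (-2 : ℝ)) := by ring
      _ ≤ 75 * 36 ^ Module.finrank ℚ K * (δ * (nm v : ℝ) ^ (-2 : ℝ)) := by
          refine mul_le_mul_of_nonneg_right ?_ e9
          nlinarith

theorem delta_le (v : HeightOneSpectrum (𝓞 K)) (h : ℝ) :
    ‖ee h (nm v) - 1‖ ≤ 3 * Real.sqrt |h| * (nm v : ℝ) ^ (1 / 8 : ℝ) := by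
  have h0 := nm_pos v
  have h1 : (1 : ℝ) ≤ nm v := by exact_mod_cast hN v
  have a1 : ‖ee h (nm v) - 1‖ ≤ 2 := by
    refine (norm_sub_le _ _).trans ?_
    rw [norm_ee, norm_one]
    norm_num
  have a2 : ‖ee h (nm v) - 1‖ ≤ |h| * Real.log (nm v) := by
    have := ee_lip h 0 h1
    have e : ee 0 (nm v : ℝ) = 1 := by
      unfold ee
      simp
    rwa [e, sub_zero] at this
  have a3 : Real.log (nm v) ≤ 4 * (nm v : ℝ) ^ (1 / 4 : ℝ) := by
    have h2 := Real.log_le_sub_one_of_pos (Real.rpow_pos_of_pos h0 (1 / 4 : ℝ))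
    rw [Real.log_rpow h0] at h2
    linarith
  have a4 : ‖ee h (nm v) - 1‖ ^ 2 ≤ (3 * Real.sqrt |h| * (nm v : ℝ) ^ (1 / 8 : ℝ)) ^ 2 := by
    have e1 : (3 * Real.sqrt |h| * (nm v : ℝ) ^ (1 / 8 : ℝ)) ^ 2 =
        9 * |h| * (nm v : ℝ) ^ (1 / 4 : ℝ) := by
      rw [mul_pow, mul_pow, Real.sq_sqrt (abs_nonneg h), ← Real.rpow_natCast ((nm v : ℝ) ^ _),
        ← Real.rpow_mul h0.le]
      norm_num
    rw [e1]
    calc ‖ee h (nm v) - 1‖ ^ 2 = ‖ee h (nm v) - 1‖ * ‖ee h (nm v) - 1‖ := by ring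
      _ ≤ 2 * (|h| * Real.log (nm v)) := mul_le_mul a1 a2 (norm_nonneg _) (by norm_num)
      _ ≤ 2 * (|h| * (4 * (nm v : ℝ) ^ (1 / 4 : ℝ))) := by gcongr
      _ ≤ _ := by
        have : 0 ≤ |h| * (nm v : ℝ) ^ (1 / 4 : ℝ) := by positivity
        nlinarith
  exact le_of_sq_le_sq a4 (by positivity)
where
  le_of_sq_le_sq {a b : ℝ} (h : a ^ 2 ≤ b ^ 2) (hb : 0 ≤ b) : a ≤ b := by
    exact le_of_abs_le (sq_le_sq.1 h |>.trans (le_of_eq (abs_of_nonneg hb)))

/-- constant -/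
noncomputable def M1 (n : ℕ) : ℝ := 3 * (75 * 36 ^ n + 2)

theorem M1_nonneg (n : ℕ) : 0 ≤ M1 n := by unfold M1; positivity

theorem sv_shift (W : HeightOneSpectrum (𝓞 K) → WeierstrassCurve (𝓞 K))
    (v : HeightOneSpectrum (𝓞 K)) (τ h : ℝ) :
    ‖sv W v (τ + h) - sv W v τ‖ ≤ M1 (Module.finrank ℚ K) * (Real.sqrt |h| *
      ((below v : ℕ) : ℝ) ^ (-(7 / 4) : ℝ)) := by
  have h0 := nm_pos v
  have hn1 : (1 : ℝ) ≤ nm v := by exact_mod_cast hN v
  have hp : (1 : ℝ) ≤ ((below v : ℕ) : ℝ) := by exact_mod_cast (below v).2.one_lt.le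
  have hpn : ((below v : ℕ) : ℝ) ≤ nm v := by exact_mod_cast below_le_nm v
  have hr := rv_shift W v τ h
  have hδ := delta_le v h
  have e1 : sv W v (τ + h) - sv W v τ = (rv W v (τ + h) - rv W v τ) +
      (if (nm v).Prime then 0 else cv W v * (ee h (nm v) - 1) * (ee τ (nm v) / (nm v : ℂ))) := by
    unfold sv
    rw [ee_add]
    split_ifs <;> ring
  have h2 : ‖ee h (nm v) - 1‖ * (nm v : ℝ) ^ (-2 : ℝ) ≤ 3 * (Real.sqrt |h| *
      ((below v : ℕ) : ℝ) ^ (-(7 / 4) : ℝ)) := by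
    calc ‖ee h (nm v) - 1‖ * (nm v : ℝ) ^ (-2 : ℝ) ≤
          (3 * Real.sqrt |h| * (nm v : ℝ) ^ (1 / 8 : ℝ)) * (nm v : ℝ) ^ (-2 : ℝ) := by gcongr
      _ = 3 * Real.sqrt |h| * (nm v : ℝ) ^ (-(15 / 8) : ℝ) := by
          rw [mul_assoc, ← Real.rpow_add h0]
          norm_num
      _ ≤ 3 * Real.sqrt |h| * (nm v : ℝ) ^ (-(7 / 4) : ℝ) := by
          refine mul_le_mul_of_nonneg_left ?_ (by positivity)
          exact Real.rpow_le_rpow_of_exponent_le hn1 (by norm_num)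
      _ ≤ 3 * Real.sqrt |h| * ((below v : ℕ) : ℝ) ^ (-(7 / 4) : ℝ) := by
          refine mul_le_mul_of_nonneg_left ?_ (by positivity)
          exact Real.rpow_le_rpow_of_nonpos (by linarith) hpn (by norm_num)
      _ = _ := by ring
  rw [e1]
  unfold M1
  have e2 : 3 * (75 * 36 ^ Module.finrank ℚ K + 2) * (Real.sqrt |h| *
      ((below v : ℕ) : ℝ) ^ (-(7 / 4) : ℝ)) = 75 * 36 ^ Module.finrank ℚ K *
      (3 * (Real.sqrt |h| * ((below v : ℕ) : ℝ) ^ (-(7 / 4) : ℝ))) +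
      2 * (3 * (Real.sqrt |h| * ((below v : ℕ) : ℝ) ^ (-(7 / 4) : ℝ))) := by ring
  rw [e2]
  refine (norm_add_le _ _).trans (add_le_add (hr.trans (by gcongr)) ?_)
  split_ifs with hprime
  · rw [norm_zero]
    positivity
  · have hc : ‖ee τ (nm v) / (nm v : ℂ)‖ = 1 / nm v := by
      rw [norm_div, norm_ee, Complex.norm_natCast]
    rw [norm_mul, norm_mul, hc, mul_assoc]
    refine mul_le_mul (norm_cv W v) ?_ (by positivity) (by norm_num)
    obtain ⟨h1, h2', _⟩ := nm_eq v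
    have h3 : 2 ≤ deg v := by
      by_contra h4
      have h5 : deg v = 1 := by omega
      rw [h5, pow_one] at h1
      exact hprime (by rw [h1]; exact (below v).2)
    have h4 : ((below v : ℕ) : ℝ) ^ (2 : ℕ) ≤ nm v := by
      rw [h1]
      have : (below v : ℕ) ^ 2 ≤ (below v : ℕ) ^ deg v := Nat.pow_le_pow_right (below v).2.pos h3
      exact_mod_cast this
    calc ‖ee h (nm v) - 1‖ * (1 / nm v) ≤
          (3 * Real.sqrt |h| * (nm v : ℝ) ^ (1 / 8 : ℝ)) * (1 / nm v) := by gcongr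
      _ = 3 * Real.sqrt |h| * (nm v : ℝ) ^ (-(7 / 8) : ℝ) := by
          have e5 : 1 / (nm v : ℝ) = (nm v : ℝ) ^ (-1 : ℝ) := by
            rw [Real.rpow_neg_one, one_div]
          rw [mul_assoc, e5, ← Real.rpow_add h0]
          norm_num
      _ ≤ 3 * Real.sqrt |h| * (((below v : ℕ) : ℝ) ^ (2 : ℕ)) ^ (-(7 / 8) : ℝ) := by
          refine mul_le_mul_of_nonneg_left ?_ (by positivity)
          exact Real.rpow_le_rpow_of_nonpos (by positivity) h4 (by norm_num)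
      _ = _ := by
          rw [← Real.rpow_natCast, ← Real.rpow_mul (by linarith), mul_assoc]
          norm_num

theorem HH_shift (W : HeightOneSpectrum (𝓞 K) → WeierstrassCurve (𝓞 K)) (x : ℕ) (τ h : ℝ) :
    ‖HH W x (τ + h) - HH W x τ‖ ≤ M1 (Module.finrank ℚ K) * Module.finrank ℚ K * S0 *
      Real.sqrt |h| := by
  unfold HH
  rw [← Finset.sum_sub_distrib]
  refine (norm_sum_le_of_le _ fun v _ => sv_shift W v τ h).trans ?_
  rw [← Finset.mul_sum, ← Finset.mul_sum]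
  have h1 := sum_below (FV (nm : HeightOneSpectrum (𝓞 K) → ℕ) hfin x)
  have h2 := M1_nonneg (Module.finrank ℚ K)
  calc M1 (Module.finrank ℚ K) * (Real.sqrt |h| *
        ∑ v ∈ FV nm hfin x, ((below v : ℕ) : ℝ) ^ (-(7 / 4) : ℝ))
      ≤ M1 (Module.finrank ℚ K) * (Real.sqrt |h| * (Module.finrank ℚ K * S0)) := by
        gcongr
    _ = _ := by ring

end

theorem ec_bes (d : ℕ) {r0 : ℝ} (h0 : 0 ≤ r0) (h1 : 8 * d * r0 < 1) : ∃ C : ℝ, 0 < C ∧
    ∀ (K : Type) [Field K] [NumberField K], Module.finrank ℚ K ≤ d →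
    ∀ (W : HeightOneSpectrum (𝓞 K) → WeierstrassCurve (𝓞 K)) (T : Set ℝ), volume T = 0 →
    ∀ l : ℝ → ℂ, IsLim W T l → ∀ r : ℝ, |r| ≤ r0 → ∀ h : ℝ, |h| ≤ 1 → ∀ a : ℝ,
      ∫⁻ t in Set.Icc a (a + 1), ENNReal.ofReal (((‖l (t + h)‖ / ‖l t‖) ^ r - 1) ^ 2) ≤
        ENNReal.ofReal (C * |h|) := by
  set κ := 2 * d * r0 with hκ
  have hκ0 : 0 ≤ κ := by positivity
  have hκ1 : κ < 1 / 4 := by linarith
  set M := r0 * (M1 d * d * S0) with hM
  have hM0 : 0 ≤ M := mul_nonneg h0 (mul_nonneg (mul_nonneg (M1_nonneg d) (by positivity)) S0_nonneg)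
  obtain ⟨C, hC, hcore⟩ := bes_core hκ0 hκ1 hM0
  refine ⟨C, hC, fun K _ _ hK W T hT l hl r hr h hh1 a => ?_⟩
  have hdK : (Module.finrank ℚ K : ℝ) ≤ d := by exact_mod_cast hK
  have hrr : ‖(r : ℂ)‖ ≤ r0 := by rwa [Complex.norm_real, Real.norm_eq_abs]
  by_cases hh : h = 0
  · subst hh
    have hae : ∀ᵐ t ∂(volume.restrict (Set.Icc a (a + 1))), t ∉ T := by
      refine ae_restrict_of_ae ?_
      rw [ae_iff]
      simpa using hT
    have h3 : ∫⁻ t in Set.Icc a (a + 1), ENNReal.ofReal (((‖l (t + 0)‖ / ‖l t‖) ^ r - 1) ^ 2) =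
        ∫⁻ t in Set.Icc a (a + 1), 0 := by
      refine lintegral_congr_ae ?_
      filter_upwards [hae] with t ht
      have hlt : ‖l t‖ ≠ 0 := norm_ne_zero_iff.2 (hl t ht).1
      rw [add_zero, div_self hlt, Real.one_rpow]
      simp
    rw [h3, lintegral_zero]
    exact zero_le
  have hbd : M1 (Module.finrank ℚ K) * Module.finrank ℚ K * S0 ≤ M1 d * d * S0 := by
    refine mul_le_mul_of_nonneg_right ?_ S0_nonneg
    refine mul_le_mul ?_ hdK (by positivity) (M1_nonneg d)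
    unfold M1
    gcongr
    norm_num
  have hT2 : volume (T ∪ (fun t => t + h) ⁻¹' T) = 0 := by
    refine measure_union_null hT ?_
    rw [measure_preimage_add_right]
    exact hT
  have hPne : ∀ z t, ‖PP W z t‖ ≠ 0 := fun z t => norm_ne_zero_iff.2 (PP_ne W z t)
  have hf : ∀ z, Continuous fun t => ((‖PP W z (t + h)‖ / ‖PP W z t‖) ^ r - 1) ^ 2 := by
    intro z
    have h4 := (PP_continuous W z).norm
    exact ((((h4.comp (continuous_add_const h)).div h4 (hPne z)).rpow_const fun t => Or.inl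
      (div_ne_zero (hPne z (t + h)) (hPne z t))).sub continuous_const).pow 2
  refine fatou2 (f := fun z t => ((‖PP W z (t + h)‖ / ‖PP W z t‖) ^ r - 1) ^ 2) (Z := yy |h|)
    hf (fun z t => by positivity) hT2 (fun t ht => ?_) (by linarith) fun z hz => ?_
  · rw [Set.mem_union, not_or] at ht
    have ha := hl t ht.1
    have hb := hl (t + h) ht.2
    have hc : ‖l (t + h)‖ / ‖l t‖ ≠ 0 :=
      div_ne_zero (norm_ne_zero_iff.2 hb.1) (norm_ne_zero_iff.2 ha.1)
    exact (((hb.2.norm.div ha.2.norm (norm_ne_zero_iff.2 ha.1)).rpow_const (Or.inl hc)).sub_const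
      1).pow 2
  · have h2 := hcore (fun k => r * cK W k) (fun k hk => by
      rw [norm_mul]
      calc ‖(r : ℂ)‖ * ‖cK W k‖ ≤ r0 * (2 * Module.finrank ℚ K) :=
            mul_le_mul hrr (norm_cK W hk) (norm_nonneg _) h0
        _ ≤ r0 * (2 * d) := by gcongr
        _ = κ := by rw [hκ]; ring) (fun k hk => by
      unfold cK
      rw [if_neg hk, mul_zero]) (fun y t => r * HH W y t)
      (fun y => continuous_const.mul (HH_continuous W y)) h hh hh1 (fun y t => by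
        rw [← mul_sub, norm_mul, hM, mul_assoc]
        refine mul_le_mul hrr ((HH_shift W y t h).trans ?_) (norm_nonneg _) h0
        exact mul_le_mul_of_nonneg_right hbd (Real.sqrt_nonneg _)) z a hz
    simp_rw [← PP_pow] at h2
    have h3 : ∀ t, (‖PP W z (t + h)‖ / ‖PP W z t‖) ^ r = ‖PP W z (t + h)‖ ^ r / ‖PP W z t‖ ^ r :=
      fun t => Real.div_rpow (norm_nonneg _) (norm_nonneg _) r
    simp_rw [h3]
    exact h2

end Pool.Agent.Q255.SA
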