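import Pool.Agent.Q255.SA.Bes3

/-! # Moments of the differences of `log |l|` -/

set_option autoImplicit false

namespace Pool.Agent.Q255.SA

open NumberField IsDedekindDomain Finset Pool.Agent.H921R2.TatePole
  Pool.Agent.H341R2 Pool.Agent.H341R2.EC Pool.Agent.W350.EdgeEC Pool.Agent.W350.EdgeNF
  Pool.Agent.W350.EdgeV MeasureTheory Filter Topology

theorem pow_le_exp_sub {y : ℝ} (hy : 0 ≤ y) {n : ℕ} (hn : 1 ≤ n) :
    y ^ n / (n.factorial : ℝ) ≤ Real.exp y - 1 := by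
  have h1 := Real.sum_le_exp_of_nonneg hy (n + 1)
  rw [Finset.sum_range_succ] at h1
  have h2 : (1 : ℝ) ≤ ∑ i ∈ range n, y ^ i / (i.factorial : ℝ) := by
    have h3 := Finset.single_le_sum (f := fun i : ℕ => y ^ i / (i.factorial : ℝ)) (s := range n)
      (fun i _ => by positivity) (Finset.mem_range.2 hn)
    simpa using h3
  linarith

theorem rpow_le_exp {p r : ℝ} (hp : 2 ≤ p) (hr : 0 < r) : ∃ K : ℝ, 0 < K ∧ ∀ x : ℝ, 0 ≤ x →
    x ^ p ≤ K * (Real.exp (r * x) - 1) ^ 2 := by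
  set n := ⌈p / 2⌉₊ with hn
  have hn1 : p / 2 ≤ n := Nat.le_ceil _
  have hn2 : 1 ≤ n := by
    rw [hn, Nat.one_le_ceil_iff]
    linarith
  refine ⟨1 / r ^ 2 + ((n.factorial : ℝ) / r ^ n) ^ 2, by positivity, fun x hx => ?_⟩
  have hrx : 0 ≤ r * x := by positivity
  have hE : 0 ≤ (Real.exp (r * x) - 1) ^ 2 := by positivity
  by_cases h1 : x ≤ 1
  · have a1 : x ^ p ≤ x ^ 2 := by
      rw [← Real.rpow_two]
      exact Real.rpow_le_rpow_of_exponent_ge' hx h1 (by norm_num) hp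
    have a2 : r * x ≤ Real.exp (r * x) - 1 := by
      have := Real.add_one_le_exp (r * x)
      linarith
    have a3 : (r * x) ^ 2 ≤ (Real.exp (r * x) - 1) ^ 2 := pow_le_pow_left₀ hrx a2 2
    have a4 : x ^ 2 = 1 / r ^ 2 * (r * x) ^ 2 := by
      field_simp
    have a5 : 0 ≤ ((n.factorial : ℝ) / r ^ n) ^ 2 * (Real.exp (r * x) - 1) ^ 2 := by positivity
    calc x ^ p ≤ x ^ 2 := a1
      _ = 1 / r ^ 2 * (r * x) ^ 2 := a4
      _ ≤ 1 / r ^ 2 * (Real.exp (r * x) - 1) ^ 2 := by gcongr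
      _ ≤ _ := by linarith
  · push Not at h1
    have a1 : x ^ p ≤ (x ^ n) ^ 2 := by
      rw [← pow_mul, ← Real.rpow_natCast]
      refine Real.rpow_le_rpow_of_exponent_le h1.le ?_
      push_cast
      linarith
    have a2 := pow_le_exp_sub hrx hn2
    have a3 : x ^ n = (n.factorial : ℝ) / r ^ n * ((r * x) ^ n / (n.factorial : ℝ)) := by
      have : (n.factorial : ℝ) ≠ 0 := by exact_mod_cast n.factorial_ne_zero
      rw [mul_pow]
      field_simp
    have a4 : (x ^ n) ^ 2 ≤ ((n.factorial : ℝ) / r ^ n) ^ 2 * (Real.exp (r * x) - 1) ^ 2 := by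
      rw [a3, mul_pow]
      gcongr
    have a5 : 0 ≤ 1 / r ^ 2 * (Real.exp (r * x) - 1) ^ 2 := by positivity
    linarith

theorem ec_mom (d : ℕ) (hd : 1 ≤ d) {p : ℝ} (hp : 2 ≤ p) : ∃ C : ℝ, 0 < C ∧
    ∀ (K : Type) [Field K] [NumberField K], Module.finrank ℚ K ≤ d →
    ∀ (W : HeightOneSpectrum (𝓞 K) → WeierstrassCurve (𝓞 K)) (T : Set ℝ), volume T = 0 →
    ∀ l : ℝ → ℂ, IsLim W T l → ∀ h : ℝ, |h| ≤ 1 → ∀ a : ℝ,
      ∫⁻ t in Set.Icc a (a + 1),
          ENNReal.ofReal (|Real.log ‖l (t + h)‖ - Real.log ‖l t‖| ^ p) ≤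
        ENNReal.ofReal (C * |h|) := by
  have hd' : (1 : ℝ) ≤ d := by exact_mod_cast hd
  set r0 : ℝ := 1 / (16 * d) with hr0
  have h0 : 0 < r0 := by positivity
  have h1 : 8 * d * r0 < 1 := by
    rw [hr0]
    have : 8 * (d : ℝ) * (1 / (16 * d)) = 1 / 2 := by
      field_simp
      norm_num
    rw [this]
    norm_num
  obtain ⟨C, hC, h2⟩ := ec_bes d h0.le h1
  obtain ⟨Kc, hK, hKx⟩ := rpow_le_exp hp h0
  refine ⟨2 * Kc * C, by positivity, fun K _ _ hKd W T hT l hl h hh a => ?_⟩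
  have i1 := h2 K hKd W T hT l hl r0 (by rw [abs_of_pos h0]) h hh a
  have i2 := h2 K hKd W T hT l hl (-r0) (by rw [abs_neg, abs_of_pos h0]) h hh a
  have hT2 : volume (T ∪ (fun t => t + h) ⁻¹' T) = 0 := by
    refine measure_union_null hT ?_
    rw [measure_preimage_add_right]
    exact hT
  have hae : ∀ᵐ t ∂(volume.restrict (Set.Icc a (a + 1))), t ∉ T ∪ (fun t => t + h) ⁻¹' T := by
    refine ae_restrict_of_ae ?_
    exact compl_mem_ae_iff.2 hT2
  have hle : ∫⁻ t in Set.Icc a (a + 1),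
      ENNReal.ofReal (|Real.log ‖l (t + h)‖ - Real.log ‖l t‖| ^ p) ≤
      ∫⁻ t in Set.Icc a (a + 1), ENNReal.ofReal Kc *
        (ENNReal.ofReal (((‖l (t + h)‖ / ‖l t‖) ^ r0 - 1) ^ 2) +
          ENNReal.ofReal (((‖l (t + h)‖ / ‖l t‖) ^ (-r0) - 1) ^ 2)) := by
    refine lintegral_mono_ae ?_
    filter_upwards [hae] with t ht
    rw [Set.mem_union, not_or] at ht
    have ha : 0 < ‖l t‖ := norm_pos_iff.2 (hl t ht.1).1
    have hb : 0 < ‖l (t + h)‖ := norm_pos_iff.2 (hl (t + h) ht.2).1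
    rw [← ENNReal.ofReal_add (by positivity) (by positivity), ← ENNReal.ofReal_mul hK.le]
    refine ENNReal.ofReal_le_ofReal ?_
    set u := Real.log ‖l (t + h)‖ - Real.log ‖l t‖ with hu
    have e1 : (‖l (t + h)‖ / ‖l t‖) ^ r0 = Real.exp (r0 * u) := by
      rw [Real.rpow_def_of_pos (by positivity), Real.log_div hb.ne' ha.ne', mul_comm]
    have e2 : (‖l (t + h)‖ / ‖l t‖) ^ (-r0) = Real.exp (r0 * (-u)) := by
      rw [Real.rpow_def_of_pos (by positivity), Real.log_div hb.ne' ha.ne', mul_comm]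
      congr 1
      ring
    rw [e1, e2]
    have e3 := hKx |u| (abs_nonneg u)
    refine e3.trans (mul_le_mul_of_nonneg_left ?_ hK.le)
    rcases abs_cases u with ⟨h, _⟩ | ⟨h, _⟩
    · rw [h]
      have : 0 ≤ (Real.exp (r0 * (-u)) - 1) ^ 2 := by positivity
      linarith
    · rw [h]
      have : 0 ≤ (Real.exp (r0 * u) - 1) ^ 2 := by positivity
      linarith
  refine hle.trans ?_
  rw [lintegral_const_mul' _ _ ENNReal.ofReal_ne_top]
  have hlm : AEMeasurable l volume := by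
    refine aemeasurable_of_tendsto_metrizable_ae atTop
      (fun x => (PP_continuous W x).measurable.aemeasurable) ?_
    have : ∀ᵐ t ∂(volume : Measure ℝ), t ∉ T := by
      rw [ae_iff]
      simpa using hT
    filter_upwards [this] with t ht
    exact (hl t ht).2
  have hlm2 : AEMeasurable (fun t => l (t + h)) volume :=
    hlm.comp_quasiMeasurePreserving (measurePreserving_add_right volume h).quasiMeasurePreserving
  have hm2 : AEMeasurable (fun t => ENNReal.ofReal (((‖l (t + h)‖ / ‖l t‖) ^ (-r0) - 1) ^ 2))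
      (volume.restrict (Set.Icc a (a + 1))) :=
    (((((hlm2.norm.div hlm.norm).pow_const (-r0)).sub_const 1).pow_const 2).ennreal_ofReal).restrict
  rw [lintegral_add_right' _ hm2]
  calc ENNReal.ofReal Kc * ((∫⁻ t in Set.Icc a (a + 1),
        ENNReal.ofReal (((‖l (t + h)‖ / ‖l t‖) ^ r0 - 1) ^ 2)) +
        ∫⁻ t in Set.Icc a (a + 1), ENNReal.ofReal (((‖l (t + h)‖ / ‖l t‖) ^ (-r0) - 1) ^ 2))
      ≤ ENNReal.ofReal Kc * (ENNReal.ofReal (C * |h|) + ENNReal.ofReal (C * |h|)) := by gcongr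
    _ = ENNReal.ofReal (2 * Kc * C * |h|) := by
        rw [← ENNReal.ofReal_add (by positivity) (by positivity), ← ENNReal.ofReal_mul hK.le]
        congr 1
        ring

end Pool.Agent.Q255.SA
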