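import Pool.Agent.Q255.SA.MajInt

/-! # Mean square approximation by partial products: the abstract theorem -/

set_option autoImplicit false

namespace Pool.Agent.Q255.SA

open Finset MeasureTheory Filter Topology

theorem CS_continuous (c : ℕ → ℂ) (x z : ℕ) : Continuous (CS c x z) := by
  unfold CS
  refine continuous_finset_sum _ fun k _ => ?_
  unfold ee
  fun_prop

theorem CS_add (c : ℕ → ℂ) {x y z : ℕ} (t : ℝ) (h1 : x ≤ y) (h2 : y ≤ z) :
    CS c x y t + CS c y z t = CS c x z t := by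
  unfold CS
  exact Finset.sum_Ico_consecutive _ h1 h2

/-- the value of the partial product -/
noncomputable def pv (c : ℕ → ℂ) (H : ℕ → ℝ → ℂ) (x : ℕ) (t : ℝ) : ℝ :=
  ‖Complex.exp (CS c 0 x t + H x t)‖

theorem exp_sub_one_le (w : ℂ) : ‖Complex.exp w - 1‖ ≤ ‖w‖ * Real.exp ‖w‖ := by
  have h8 := Complex.norm_exp_sub_sum_le_norm_mul_exp w 1
  simpa using h8

theorem x_small {x : ℕ} (hx : 3 ≤ x) {κ : ℝ} (h0 : 0 ≤ κ) :
    (x : ℝ) ^ (-(1 / 4) : ℝ) ≤ 4 * (Real.log x) ^ (-(1 - 2 * κ)) := by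
  have hx3 : (3 : ℝ) ≤ x := by exact_mod_cast hx
  have hx0 : (0 : ℝ) < x := by linarith
  have hlx1 : 1 ≤ Real.log x := by
    rw [Real.le_log_iff_exp_le (by linarith)]
    have := Real.exp_one_lt_d9
    linarith
  have hlx : 0 < Real.log x := by linarith
  have h1 : Real.log x ≤ 4 * (x : ℝ) ^ (1 / 4 : ℝ) := by
    have h2 := Real.log_le_sub_one_of_pos (Real.rpow_pos_of_pos hx0 (1 / 4 : ℝ))
    rw [Real.log_rpow hx0] at h2
    linarith
  have h3 : (x : ℝ) ^ (-(1 / 4) : ℝ) ≤ 4 * (Real.log x)⁻¹ := by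
    rw [Real.rpow_neg hx0.le, ← div_eq_mul_inv, le_div_iff₀ hlx]
    have h4 : 0 < (x : ℝ) ^ (1 / 4 : ℝ) := by positivity
    calc ((x : ℝ) ^ (1 / 4 : ℝ))⁻¹ * Real.log x ≤
          ((x : ℝ) ^ (1 / 4 : ℝ))⁻¹ * (4 * (x : ℝ) ^ (1 / 4 : ℝ)) := by gcongr
      _ = 4 := by field_simp
  refine h3.trans ?_
  rw [← Real.rpow_neg_one]
  refine mul_le_mul_of_nonneg_left ?_ (by norm_num)
  exact Real.rpow_le_rpow_of_exponent_le hlx1 (by linarith)

theorem core {κ : ℝ} (h0 : 0 ≤ κ) (h1 : κ < 1 / 2) {M : ℝ} (hM : 0 ≤ M) : ∃ C : ℝ, 0 < C ∧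
    ∀ c : ℕ → ℂ, (∀ k, k.Prime → ‖c k‖ ≤ κ) → (∀ k, ¬ k.Prime → c k = 0) →
    ∀ H : ℕ → ℝ → ℂ, (∀ x, Continuous (H x)) → (∀ x t, ‖H x t‖ ≤ M) →
    (∀ x z t, 3 ≤ x → x ≤ z → ‖H z t - H x t‖ ≤ M * (x : ℝ) ^ (-(1 / 8) : ℝ)) →
    ∀ (x z : ℕ) (a : ℝ), 3 ≤ x → x ≤ z →
      ∫ t in a..(a + 1), (pv c H z t - pv c H x t) ^ 2 ≤ C * (Real.log x) ^ (-(1 - 2 * κ)) := by
  obtain ⟨C1, hC1, hs⟩ := stepanov h0 h1
  set E := Real.exp M with hE
  have hE0 : 0 < E := Real.exp_pos _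
  refine ⟨2 * E ^ 2 * C1 + 2 * (E * (M * E)) ^ 2 * C1 * 4, by positivity,
    fun c hc hc0 H hHc hHb hHd x z a hx hxz => ?_⟩
  obtain ⟨s1, s2⟩ := hs c hc hc0 x z a hx hxz
  have hx3 : (3 : ℝ) ≤ x := by exact_mod_cast hx
  have hx0 : (0 : ℝ) < x := by linarith
  have hx8 : (x : ℝ) ^ (-(1 / 8) : ℝ) ≤ 1 :=
    Real.rpow_le_one_of_one_le_of_nonpos (by linarith) (by norm_num)
  have hx8' : 0 < (x : ℝ) ^ (-(1 / 8) : ℝ) := Real.rpow_pos_of_pos hx0 _
  have c1 := CS_continuous c 0 x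
  have c2 := CS_continuous c 0 z
  have c3 := CS_continuous c x z
  have c4 := hHc x
  have c5 := hHc z
  have hpt : ∀ t : ℝ, (pv c H z t - pv c H x t) ^ 2 ≤
      2 * E ^ 2 * ‖Complex.exp (CS c 0 x t) * (Complex.exp (CS c x z t) - 1)‖ ^ 2 +
      2 * (E * (M * E) * (x : ℝ) ^ (-(1 / 8) : ℝ)) ^ 2 * ‖Complex.exp (CS c 0 x t)‖ ^ 2 := by
    intro t
    have e1 : Complex.exp (CS c 0 z t + H z t) - Complex.exp (CS c 0 x t + H x t) =
        Complex.exp (CS c 0 x t) * (Complex.exp (CS c x z t) - 1) * Complex.exp (H z t) +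
        Complex.exp (CS c 0 x t) * (Complex.exp (H x t) *
          (Complex.exp (H z t - H x t) - 1)) := by
      rw [← CS_add c t (Nat.zero_le x) hxz, Complex.exp_add, Complex.exp_add, Complex.exp_add,
        Complex.exp_sub]
      have := Complex.exp_ne_zero (H x t)
      field_simp
      ring
    have e2 : |pv c H z t - pv c H x t| ≤
        ‖Complex.exp (CS c 0 x t) * (Complex.exp (CS c x z t) - 1)‖ * E +
        ‖Complex.exp (CS c 0 x t)‖ * (E * (M * E) * (x : ℝ) ^ (-(1 / 8) : ℝ)) := by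
      unfold pv
      refine (abs_norm_sub_norm_le _ _).trans ?_
      rw [e1]
      refine (norm_add_le _ _).trans (add_le_add ?_ ?_)
      · rw [norm_mul]
        gcongr
        exact (Complex.norm_exp_le_exp_norm _).trans (Real.exp_le_exp.2 (hHb z t))
      · rw [norm_mul]
        gcongr
        rw [norm_mul]
        have h3 := hHd x z t hx hxz
        have h4 : ‖H z t - H x t‖ ≤ M := h3.trans (by nlinarith)
        calc ‖Complex.exp (H x t)‖ * ‖Complex.exp (H z t - H x t) - 1‖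
            ≤ E * ((M * (x : ℝ) ^ (-(1 / 8) : ℝ)) * E) := by
              gcongr
              · exact (Complex.norm_exp_le_exp_norm _).trans (Real.exp_le_exp.2 (hHb x t))
              · refine (exp_sub_one_le _).trans ?_
                exact mul_le_mul h3 (Real.exp_le_exp.2 h4) (Real.exp_pos _).le (by positivity)
          _ = _ := by ring
    have e3 := sq_le_sq' (by
      have := abs_nonneg (pv c H z t - pv c H x t)
      linarith) e2
    rw [sq_abs] at e3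
    refine e3.trans ?_
    set p := ‖Complex.exp (CS c 0 x t) * (Complex.exp (CS c x z t) - 1)‖
    set q := ‖Complex.exp (CS c 0 x t)‖
    set w := E * (M * E) * (x : ℝ) ^ (-(1 / 8) : ℝ)
    nlinarith [sq_nonneg (p * E - q * w)]
  have hpc : Continuous fun t => (pv c H z t - pv c H x t) ^ 2 := by
    unfold pv
    fun_prop
  have h2 : ∫ t in a..(a + 1), (pv c H z t - pv c H x t) ^ 2 ≤
      ∫ t in a..(a + 1), (2 * E ^ 2 *
        ‖Complex.exp (CS c 0 x t) * (Complex.exp (CS c x z t) - 1)‖ ^ 2 +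
        2 * (E * (M * E) * (x : ℝ) ^ (-(1 / 8) : ℝ)) ^ 2 * ‖Complex.exp (CS c 0 x t)‖ ^ 2) := by
    refine intervalIntegral.integral_mono_on (by linarith) (hpc.intervalIntegrable _ _) ?_
      fun t _ => hpt t
    apply Continuous.intervalIntegrable
    fun_prop
  refine h2.trans ?_
  rw [intervalIntegral.integral_add (by apply Continuous.intervalIntegrable; fun_prop)
    (by apply Continuous.intervalIntegrable; fun_prop), intervalIntegral.integral_const_mul,
    intervalIntegral.integral_const_mul]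
  have h3 : (E * (M * E) * (x : ℝ) ^ (-(1 / 8) : ℝ)) ^ 2 =
      (E * (M * E)) ^ 2 * (x : ℝ) ^ (-(1 / 4) : ℝ) := by
    rw [mul_pow, ← Real.rpow_natCast ((x : ℝ) ^ (-(1 / 8) : ℝ)), ← Real.rpow_mul hx0.le]
    congr 2
    norm_num
  rw [h3]
  have h4 := x_small hx h0
  have hx4 : 0 < (x : ℝ) ^ (-(1 / 4) : ℝ) := Real.rpow_pos_of_pos hx0 _
  have h5 : 2 * ((E * (M * E)) ^ 2 * (x : ℝ) ^ (-(1 / 4) : ℝ)) *
      ∫ t in a..(a + 1), ‖Complex.exp (CS c 0 x t)‖ ^ 2 ≤
      2 * ((E * (M * E)) ^ 2 * (4 * (Real.log x) ^ (-(1 - 2 * κ)))) * C1 := by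
    refine mul_le_mul ?_ s1 (intervalIntegral.integral_nonneg (by linarith) fun t _ => by
      positivity) ?_
    · gcongr
    · have : 0 < Real.log x := Real.log_pos (by linarith)
      positivity
  have h6 : 2 * E ^ 2 * ∫ t in a..(a + 1), ‖Complex.exp (CS c 0 x t) *
      (Complex.exp (CS c x z t) - 1)‖ ^ 2 ≤ 2 * E ^ 2 * (C1 * (Real.log x) ^ (-(1 - 2 * κ))) := by
    gcongr
  calc _ ≤ 2 * E ^ 2 * (C1 * (Real.log x) ^ (-(1 - 2 * κ))) +
        2 * ((E * (M * E)) ^ 2 * (4 * (Real.log x) ^ (-(1 - 2 * κ)))) * C1 := add_le_add h6 h5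
    _ = _ := by ring

/-- Mean square bound for the partial products. -/
theorem core_bd {κ : ℝ} (h0 : 0 ≤ κ) (h1 : κ < 1 / 2) {M : ℝ} : ∃ C : ℝ, 0 < C ∧
    ∀ c : ℕ → ℂ, (∀ k, k.Prime → ‖c k‖ ≤ κ) → (∀ k, ¬ k.Prime → c k = 0) →
    ∀ H : ℕ → ℝ → ℂ, (∀ x, Continuous (H x)) → (∀ x t, ‖H x t‖ ≤ M) →
    ∀ (x : ℕ) (a : ℝ), 3 ≤ x → ∫ t in a..(a + 1), (pv c H x t) ^ 2 ≤ C := by
  obtain ⟨C1, hC1, hs⟩ := stepanov h0 h1
  set E := Real.exp M with hE
  refine ⟨E ^ 2 * C1, by positivity, fun c hc hc0 H hHc hHb x a hx => ?_⟩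
  have s1 := (hs c hc hc0 x x a hx le_rfl).1
  have c1 := CS_continuous c 0 x
  have c4 := hHc x
  have h2 : ∫ t in a..(a + 1), (pv c H x t) ^ 2 ≤
      ∫ t in a..(a + 1), E ^ 2 * ‖Complex.exp (CS c 0 x t)‖ ^ 2 := by
    refine intervalIntegral.integral_mono_on (by linarith) ?_ ?_ fun t _ => ?_
    · apply Continuous.intervalIntegrable
      unfold pv
      fun_prop
    · apply Continuous.intervalIntegrable
      fun_prop
    · unfold pv
      rw [Complex.exp_add, norm_mul, mul_pow, mul_comm]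
      gcongr
      exact (Complex.norm_exp_le_exp_norm _).trans (Real.exp_le_exp.2 (hHb x t))
  rw [intervalIntegral.integral_const_mul] at h2
  exact h2.trans (by gcongr)

/-- Passage to the limit. -/
theorem fatou {g : ℝ → ℝ} {f : ℕ → ℝ → ℝ} (hf : ∀ z, Continuous (f z)) {T : Set ℝ}
    (hT : volume T = 0) (hl : ∀ t ∉ T, Tendsto (fun z => f z t) atTop (𝓝 (g t)))
    {h : ℝ → ℝ} (hh : Continuous h) {a B : ℝ} {Z : ℕ} 
    (hB : ∀ z, Z ≤ z → ∫ t in a..(a + 1), (f z t - h t) ^ 2 ≤ B) :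
    ∫⁻ t in Set.Icc a (a + 1), ENNReal.ofReal ((g t - h t) ^ 2) ≤ ENNReal.ofReal B := by
  have hae : ∀ᵐ t ∂(volume.restrict (Set.Icc a (a + 1))), t ∉ T := by
    refine ae_restrict_of_ae ?_
    rw [ae_iff]
    simpa using hT
  have h1 : ∀ᵐ t ∂(volume.restrict (Set.Icc a (a + 1))), ENNReal.ofReal ((g t - h t) ^ 2) =
      liminf (fun z => ENNReal.ofReal ((f z t - h t) ^ 2)) atTop := by
    filter_upwards [hae] with t ht
    symm
    apply Tendsto.liminf_eq
    exact (ENNReal.continuous_ofReal.tendsto _).comp (((hl t ht).sub_const _).pow 2)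
  rw [lintegral_congr_ae h1]
  refine (lintegral_liminf_le fun z => ?_).trans ?_
  · have := hf z
    exact (ENNReal.continuous_ofReal.comp (by fun_prop)).measurable
  · refine (liminf_le_of_frequently_le' ?_)
    refine Eventually.frequently ?_
    filter_upwards [eventually_ge_atTop Z] with z hz
    have hc : Continuous fun t => (f z t - h t) ^ 2 := by
      have := hf z
      fun_prop
    rw [← ofReal_integral_eq_lintegral_ofReal (hc.continuousOn.integrableOn_Icc)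
      (Eventually.of_forall fun t => by positivity)]
    refine ENNReal.ofReal_le_ofReal ?_
    rw [integral_Icc_eq_integral_Ioc, ← intervalIntegral.integral_of_le (by linarith)]
    exact hB z hz

end Pool.Agent.Q255.SA
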