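import Pool.Agent.Q255.SA.Place

/-! # The partial Euler products as exponentials -/

set_option autoImplicit false

namespace Pool.Agent.Q255.SA

open NumberField IsDedekindDomain Finset Pool.Agent.H921R2.TatePole
  Pool.Agent.H341R2 Pool.Agent.H341R2.EC Pool.Agent.W350.EdgeEC Pool.Agent.W350.EdgeNF
  Pool.Agent.W350.EdgeV

/-- `∑ n^{-7/4}` -/
noncomputable def S0 : ℝ := ∑' n : ℕ, (n : ℝ) ^ (-(7 / 4) : ℝ)

theorem S0_summable : Summable fun n : ℕ => (n : ℝ) ^ (-(7 / 4) : ℝ) := by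
  rw [Real.summable_nat_rpow]
  norm_num

theorem S0_nonneg : 0 ≤ S0 := tsum_nonneg fun n => by positivity

section
variable {K : Type} [Field K] [NumberField K]

theorem sum_below (G : Finset (HeightOneSpectrum (𝓞 K))) :
    ∑ v ∈ G, ((below v : ℕ) : ℝ) ^ (-(7 / 4) : ℝ) ≤ Module.finrank ℚ K * S0 := by
  classical
  rw [← Finset.sum_fiberwise_of_maps_to (s := G) (t := G.image fun v => (below v : ℕ))
    (g := fun v => (below v : ℕ)) (fun v hv => Finset.mem_image_of_mem _ hv)]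
  have h1 : ∀ p ∈ G.image fun v => (below v : ℕ),
      ∑ v ∈ G with (below v : ℕ) = p, ((below v : ℕ) : ℝ) ^ (-(7 / 4) : ℝ) ≤
        Module.finrank ℚ K * (p : ℝ) ^ (-(7 / 4) : ℝ) := by
    intro p hp
    obtain ⟨u, hu, rfl⟩ := Finset.mem_image.1 hp
    have h2 : ∀ v ∈ G.filter (fun v => (below v : ℕ) = (below u : ℕ)),
        ((below v : ℕ) : ℝ) ^ (-(7 / 4) : ℝ) = ((below u : ℕ) : ℝ) ^ (-(7 / 4) : ℝ) := by
      intro v hv
      rw [(Finset.mem_filter.1 hv).2]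
    rw [Finset.sum_congr rfl h2, Finset.sum_const, nsmul_eq_mul]
    refine mul_le_mul_of_nonneg_right ?_ (by positivity)
    exact_mod_cast card_above (below u) _ fun v hv => Subtype.ext (Finset.mem_filter.1 hv).2
  refine (Finset.sum_le_sum h1).trans ?_
  rw [← Finset.mul_sum]
  refine mul_le_mul_of_nonneg_left ?_ (by positivity)
  exact S0_summable.sum_le_tsum _ fun n _ => by positivity

/-- the small part of the logarithm of the Euler factor -/
noncomputable def sv (W : HeightOneSpectrum (𝓞 K) → WeierstrassCurve (𝓞 K))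
    (v : HeightOneSpectrum (𝓞 K)) (τ : ℝ) : ℂ :=
  rv W v τ + if (nm v).Prime then 0 else cv W v * (ee τ (nm v) / (nm v : ℂ))

/-- the large part of the logarithm of the Euler factor -/
noncomputable def gv (W : HeightOneSpectrum (𝓞 K) → WeierstrassCurve (𝓞 K))
    (v : HeightOneSpectrum (𝓞 K)) (τ : ℝ) : ℂ :=
  if (nm v).Prime then cv W v * (ee τ (nm v) / (nm v : ℂ)) else 0

theorem gv_add_sv (W : HeightOneSpectrum (𝓞 K) → WeierstrassCurve (𝓞 K))
    (v : HeightOneSpectrum (𝓞 K)) (τ : ℝ) :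
    gv W v τ + sv W v τ = cv W v * (ee τ (nm v) / (nm v : ℂ)) + rv W v τ := by
  unfold gv sv
  split_ifs <;> ring

/-- constant -/
noncomputable def M0 (n : ℕ) : ℝ := 13 * 36 ^ n + 2

theorem M0_nonneg (n : ℕ) : 0 ≤ M0 n := by unfold M0; positivity

theorem norm_sv (W : HeightOneSpectrum (𝓞 K) → WeierstrassCurve (𝓞 K))
    (v : HeightOneSpectrum (𝓞 K)) (τ : ℝ) {x : ℕ} (hx : 1 ≤ x) (hv : x ≤ nm v) :
    ‖sv W v τ‖ ≤ M0 (Module.finrank ℚ K) * ((x : ℝ) ^ (-(1 / 8) : ℝ) *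
      ((below v : ℕ) : ℝ) ^ (-(7 / 4) : ℝ)) := by
  have h0 := nm_pos v
  have hx1 : (1 : ℝ) ≤ x := by exact_mod_cast hx
  have hx0 : (0 : ℝ) < x := by linarith
  have hv' : (x : ℝ) ≤ nm v := by exact_mod_cast hv
  have hn1 : (1 : ℝ) ≤ nm v := hx1.trans hv'
  have hr := norm_rv W v τ
  have hp : (1 : ℝ) ≤ ((below v : ℕ) : ℝ) := by exact_mod_cast (below v).2.one_lt.le
  have hpn : ((below v : ℕ) : ℝ) ≤ nm v := by exact_mod_cast below_le_nm v
  have h18 : (nm v : ℝ) ^ (-(1 / 8) : ℝ) ≤ (x : ℝ) ^ (-(1 / 8) : ℝ) :=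
    Real.rpow_le_rpow_of_nonpos hx0 hv' (by norm_num)
  have hc : ‖ee τ (nm v) / (nm v : ℂ)‖ = 1 / nm v := by
    rw [norm_div, norm_ee, Complex.norm_natCast]
  have h2 : (nm v : ℝ) ^ (-2 : ℝ) ≤ (x : ℝ) ^ (-(1 / 8) : ℝ) *
      ((below v : ℕ) : ℝ) ^ (-(7 / 4) : ℝ) := by
    calc (nm v : ℝ) ^ (-2 : ℝ) = (nm v : ℝ) ^ (-(1 / 8) : ℝ) * (nm v : ℝ) ^ (-(15 / 8) : ℝ) := by
          rw [← Real.rpow_add h0]
          norm_num
      _ ≤ (x : ℝ) ^ (-(1 / 8) : ℝ) * ((below v : ℕ) : ℝ) ^ (-(7 / 4) : ℝ) := by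
          refine mul_le_mul h18 ?_ (by positivity) (by positivity)
          calc (nm v : ℝ) ^ (-(15 / 8) : ℝ) ≤ (nm v : ℝ) ^ (-(7 / 4) : ℝ) :=
                Real.rpow_le_rpow_of_exponent_le hn1 (by norm_num)
            _ ≤ _ := Real.rpow_le_rpow_of_nonpos (by linarith) hpn (by norm_num)
  unfold sv M0
  rw [add_mul]
  refine (norm_add_le _ _).trans (add_le_add (hr.trans (by gcongr)) ?_)
  split_ifs with hprime
  · rw [norm_zero]
    positivity
  · rw [norm_mul, hc]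
    refine mul_le_mul (norm_cv W v) ?_ (by positivity) (by norm_num)
    obtain ⟨h1, h2, _⟩ := nm_eq v
    have h3 : 2 ≤ deg v := by
      by_contra h4
      have h5 : deg v = 1 := by omega
      rw [h5, pow_one] at h1
      exact hprime (by rw [h1]; exact (below v).2)
    have h4 : ((below v : ℕ) : ℝ) ^ (2 : ℕ) ≤ nm v := by
      rw [h1]
      have : (below v : ℕ) ^ 2 ≤ (below v : ℕ) ^ deg v := Nat.pow_le_pow_right (below v).2.pos h3
      exact_mod_cast this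
    calc 1 / (nm v : ℝ) = (nm v : ℝ) ^ (-(1 / 8) : ℝ) * (nm v : ℝ) ^ (-(7 / 8) : ℝ) := by
          rw [← Real.rpow_add h0, one_div, ← Real.rpow_neg_one]
          norm_num
      _ ≤ (x : ℝ) ^ (-(1 / 8) : ℝ) * ((below v : ℕ) : ℝ) ^ (-(7 / 4) : ℝ) := by
          refine mul_le_mul h18 ?_ (by positivity) (by positivity)
          calc (nm v : ℝ) ^ (-(7 / 8) : ℝ) ≤ (((below v : ℕ) : ℝ) ^ (2 : ℕ)) ^ (-(7 / 8) : ℝ) :=
                Real.rpow_le_rpow_of_nonpos (by positivity) h4 (by norm_num)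
            _ = _ := by
                rw [← Real.rpow_natCast, ← Real.rpow_mul (by linarith)]
                norm_num

/-- the small part of the logarithm of the partial product -/
noncomputable def HH (W : HeightOneSpectrum (𝓞 K) → WeierstrassCurve (𝓞 K)) (x : ℕ) (τ : ℝ) : ℂ :=
  ∑ v ∈ FV nm hfin x, sv W v τ

/-- coefficients -/
noncomputable def cK (W : HeightOneSpectrum (𝓞 K) → WeierstrassCurve (𝓞 K)) (k : ℕ) : ℂ :=
  if k.Prime then ∑ v ∈ FV nm hfin (k + 1) with nm v = k, cv W v else 0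

theorem norm_cK (W : HeightOneSpectrum (𝓞 K) → WeierstrassCurve (𝓞 K)) {k : ℕ} (hk : k.Prime) :
    ‖cK W k‖ ≤ 2 * Module.finrank ℚ K := by
  unfold cK
  rw [if_pos hk]
  refine (norm_sum_le_of_le _ fun v _ => norm_cv W v).trans ?_
  rw [Finset.sum_const, nsmul_eq_mul, mul_comm]
  refine mul_le_mul_of_nonneg_left ?_ (by norm_num)
  refine Nat.cast_le.2 (card_above ⟨k, hk⟩ _ fun v hv => ?_)
  have h1 : nm v = k := (Finset.mem_filter.1 hv).2
  refine Subtype.ext ?_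
  show (Ideal.absNorm v.asIdeal).minFac = k
  have h2 : Ideal.absNorm v.asIdeal = k := h1
  rw [h2, hk.minFac_eq]

theorem sum_gv (W : HeightOneSpectrum (𝓞 K) → WeierstrassCurve (𝓞 K)) (x : ℕ) (τ : ℝ) :
    ∑ v ∈ FV nm hfin x, gv W v τ = CS (cK W) 0 x τ := by
  classical
  rw [← Finset.sum_fiberwise_of_maps_to (s := FV nm hfin x) (t := Ico 0 x) (g := nm)
    (fun v hv => Finset.mem_Ico.2 ⟨Nat.zero_le _, mem_FV.1 hv⟩)]
  unfold CS
  refine Finset.sum_congr rfl fun k hk => ?_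
  rw [Finset.mem_Ico] at hk
  have hset : (FV nm hfin x).filter (fun v : HeightOneSpectrum (𝓞 K) => nm v = k) =
      (FV nm hfin (k + 1)).filter (fun v : HeightOneSpectrum (𝓞 K) => nm v = k) := by
    ext v
    rw [Finset.mem_filter, Finset.mem_filter, mem_FV, mem_FV]
    constructor
    · rintro ⟨_, h⟩
      exact ⟨by omega, h⟩
    · rintro ⟨_, h⟩
      exact ⟨by omega, h⟩
  rw [hset]
  unfold cK
  by_cases hp : k.Prime
  · rw [if_pos hp, Finset.sum_mul]
    refine Finset.sum_congr rfl fun v hv => ?_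
    have h1 : nm v = k := (Finset.mem_filter.1 hv).2
    unfold gv
    rw [h1, if_pos hp]
  · rw [if_neg hp, zero_mul]
    refine Finset.sum_eq_zero fun v hv => ?_
    have h1 : nm v = k := (Finset.mem_filter.1 hv).2
    unfold gv
    rw [h1, if_neg hp]

/-- The partial product is the exponential of the sum of the two parts. -/
theorem prod_exp (W : HeightOneSpectrum (𝓞 K) → WeierstrassCurve (𝓞 K)) (x : ℕ) (τ : ℝ) :
    ∏ v ∈ FV nm hfin x, lf W v (ep τ) = Complex.exp (CS (cK W) 0 x τ + HH W x τ) := by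
  rw [← sum_gv]
  unfold HH
  rw [← Finset.sum_add_distrib, Complex.exp_sum]
  refine Finset.prod_congr rfl fun v _ => ?_
  rw [lf_exp, gv_add_sv]

theorem HH_continuous (W : HeightOneSpectrum (𝓞 K) → WeierstrassCurve (𝓞 K)) (x : ℕ) :
    Continuous (HH W x) := by
  unfold HH sv
  refine continuous_finset_sum _ fun v _ => (rv_continuous W v).add ?_
  split_ifs
  · exact continuous_const
  · unfold ee
    fun_prop

theorem sum_sv_le (W : HeightOneSpectrum (𝓞 K) → WeierstrassCurve (𝓞 K))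
    (G : Finset (HeightOneSpectrum (𝓞 K))) {x : ℕ} (hx : 1 ≤ x) (hG : ∀ v ∈ G, x ≤ nm v) (τ : ℝ) :
    ‖∑ v ∈ G, sv W v τ‖ ≤ M0 (Module.finrank ℚ K) * Module.finrank ℚ K * S0 *
      (x : ℝ) ^ (-(1 / 8) : ℝ) := by
  refine (norm_sum_le_of_le _ fun v hv => norm_sv W v τ hx (hG v hv)).trans ?_
  rw [← Finset.mul_sum, ← Finset.mul_sum]
  have h1 := sum_below G
  have h2 := M0_nonneg (Module.finrank ℚ K)
  calc M0 (Module.finrank ℚ K) * ((x : ℝ) ^ (-(1 / 8) : ℝ) *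
        ∑ v ∈ G, ((below v : ℕ) : ℝ) ^ (-(7 / 4) : ℝ))
      ≤ M0 (Module.finrank ℚ K) * ((x : ℝ) ^ (-(1 / 8) : ℝ) * (Module.finrank ℚ K * S0)) := by
        gcongr
    _ = _ := by ring

theorem HH_bound (W : HeightOneSpectrum (𝓞 K) → WeierstrassCurve (𝓞 K)) (x : ℕ) (τ : ℝ) :
    ‖HH W x τ‖ ≤ M0 (Module.finrank ℚ K) * Module.finrank ℚ K * S0 := by
  have h := sum_sv_le W (FV nm hfin x) le_rfl (fun v _ => hN v) τ
  rw [Nat.cast_one, Real.one_rpow, mul_one] at h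
  exact h

theorem HH_diff (W : HeightOneSpectrum (𝓞 K) → WeierstrassCurve (𝓞 K)) {x z : ℕ} (hx : 1 ≤ x)
    (hxz : x ≤ z) (τ : ℝ) :
    ‖HH W z τ - HH W x τ‖ ≤ M0 (Module.finrank ℚ K) * Module.finrank ℚ K * S0 *
      (x : ℝ) ^ (-(1 / 8) : ℝ) := by
  classical
  have hsub : FV (nm : HeightOneSpectrum (𝓞 K) → ℕ) hfin x ⊆ FV nm hfin z := by
    intro v hv
    rw [mem_FV] at hv ⊢
    omega
  have h1 : HH W z τ - HH W x τ = ∑ v ∈ FV nm hfin z \ FV nm hfin x, sv W v τ := by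
    unfold HH
    rw [← Finset.sum_sdiff hsub]
    ring
  rw [h1]
  refine sum_sv_le W _ hx (fun v hv => ?_) τ
  rw [Finset.mem_sdiff, mem_FV, mem_FV] at hv
  omega

end

end Pool.Agent.Q255.SA
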