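import Pool.Agent.Q255.SA.Glob

/-! # Mean square approximation of the boundary functions of elliptic curves -/

set_option autoImplicit false

namespace Pool.Agent.Q255.SA

open NumberField IsDedekindDomain Finset Pool.Agent.H921R2.TatePole
  Pool.Agent.H341R2 Pool.Agent.H341R2.EC Pool.Agent.W350.EdgeEC Pool.Agent.W350.EdgeNF
  Pool.Agent.W350.EdgeV MeasureTheory Filter Topology

section
variable {K : Type} [Field K] [NumberField K]

/-- the partial product on the edge -/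
noncomputable def PP (W : HeightOneSpectrum (𝓞 K) → WeierstrassCurve (𝓞 K)) (x : ℕ) (τ : ℝ) : ℂ :=
  ∏ v ∈ FV nm hfin x, lf W v (ep τ)

theorem PP_pow (W : HeightOneSpectrum (𝓞 K) → WeierstrassCurve (𝓞 K)) (x : ℕ) (τ r : ℝ) :
    ‖PP W x τ‖ ^ r = pv (fun k => r * cK W k) (fun y t => r * HH W y t) x τ := by
  unfold PP pv
  rw [prod_exp, Complex.norm_exp, Complex.norm_exp, ← Real.exp_mul]
  congr 1
  have e1 : CS (fun k => (r : ℂ) * cK W k) 0 x τ = r * CS (cK W) 0 x τ := by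
    unfold CS
    rw [Finset.mul_sum]
    refine Finset.sum_congr rfl fun k _ => ?_
    ring
  rw [e1, ← mul_add, Complex.re_ofReal_mul, mul_comm]

theorem PP_continuous (W : HeightOneSpectrum (𝓞 K) → WeierstrassCurve (𝓞 K)) (x : ℕ) :
    Continuous (PP W x) := by
  have h1 := CS_continuous (cK W) 0 x
  have h2 := HH_continuous W x
  unfold PP
  simp_rw [prod_exp]
  fun_prop

theorem PP_ne (W : HeightOneSpectrum (𝓞 K) → WeierstrassCurve (𝓞 K)) (x : ℕ) (τ : ℝ) :
    PP W x τ ≠ 0 := by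
  unfold PP
  rw [prod_exp]
  exact Complex.exp_ne_zero _

theorem PP_pow_continuous (W : HeightOneSpectrum (𝓞 K) → WeierstrassCurve (𝓞 K)) (x : ℕ) (r : ℝ) :
    Continuous fun τ => ‖PP W x τ‖ ^ r :=
  (PP_continuous W x).norm.rpow_const fun τ => Or.inl (norm_ne_zero_iff.2 (PP_ne W x τ))

end

/-- `l` is the limit of the partial products outside a null set. -/
def IsLim {K : Type} [Field K] [NumberField K]
    (W : HeightOneSpectrum (𝓞 K) → WeierstrassCurve (𝓞 K)) (T : Set ℝ) (l : ℝ → ℂ) : Prop :=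
  ∀ τ ∉ T, l τ ≠ 0 ∧ Tendsto (fun x => PP W x τ) atTop (𝓝 (l τ))

theorem ec_approx (d : ℕ) {r0 : ℝ} (h0 : 0 ≤ r0) (h1 : 4 * d * r0 < 1) : ∃ C : ℝ, 0 < C ∧
    ∀ (K : Type) [Field K] [NumberField K], Module.finrank ℚ K ≤ d →
    ∀ (W : HeightOneSpectrum (𝓞 K) → WeierstrassCurve (𝓞 K)) (T : Set ℝ), volume T = 0 →
    ∀ l : ℝ → ℂ, IsLim W T l → ∀ r : ℝ, |r| ≤ r0 → ∀ x : ℕ, 3 ≤ x → ∀ a : ℝ,
      ∫⁻ t in Set.Icc a (a + 1), ENNReal.ofReal ((‖l t‖ ^ r - ‖PP W x t‖ ^ r) ^ 2) ≤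
        ENNReal.ofReal (C * (Real.log x) ^ (-(1 - 4 * d * r0))) := by
  set κ := 2 * d * r0 with hκ
  have hκ0 : 0 ≤ κ := by positivity
  have hκ1 : κ < 1 / 2 := by linarith
  set M := r0 * (M0 d * d * S0) with hM
  have hM0 : 0 ≤ M := mul_nonneg h0 (mul_nonneg (mul_nonneg (M0_nonneg d) (by positivity)) S0_nonneg)
  obtain ⟨C, hC, hcore⟩ := core hκ0 hκ1 hM0
  refine ⟨C, hC, fun K _ _ hK W T hT l hl r hr x hx a => ?_⟩
  have hdK : (Module.finrank ℚ K : ℝ) ≤ d := by exact_mod_cast hK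
  have hbd : M0 (Module.finrank ℚ K) * Module.finrank ℚ K * S0 ≤ M0 d * d * S0 := by
    refine mul_le_mul_of_nonneg_right ?_ S0_nonneg
    refine mul_le_mul ?_ hdK (by positivity) (M0_nonneg d)
    unfold M0
    gcongr
    norm_num
  have hrr : ‖(r : ℂ)‖ ≤ r0 := by rwa [Complex.norm_real, Real.norm_eq_abs]
  have e2 : (1 - 2 * κ) = 1 - 4 * d * r0 := by rw [hκ]; ring
  have key : ∀ z, x ≤ z → ∫ t in a..(a + 1), (‖PP W z t‖ ^ r - ‖PP W x t‖ ^ r) ^ 2 ≤
      C * (Real.log x) ^ (-(1 - 4 * d * r0)) := by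
    intro z hz
    have h2 := hcore (fun k => r * cK W k) (fun k hk => by
      rw [norm_mul]
      calc ‖(r : ℂ)‖ * ‖cK W k‖ ≤ r0 * (2 * Module.finrank ℚ K) :=
            mul_le_mul hrr (norm_cK W hk) (norm_nonneg _) h0
        _ ≤ r0 * (2 * d) := by gcongr
        _ = κ := by rw [hκ]; ring) (fun k hk => by
      unfold cK
      rw [if_neg hk, mul_zero]) (fun y t => r * HH W y t)
      (fun y => continuous_const.mul (HH_continuous W y)) (fun y t => by
        rw [norm_mul]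
        exact mul_le_mul hrr ((HH_bound W y t).trans hbd) (norm_nonneg _) h0)
      (fun y z t hy hyz => by
        rw [← mul_sub, norm_mul, hM, mul_assoc]
        refine mul_le_mul hrr ((HH_diff W (by omega) hyz t).trans ?_) (norm_nonneg _) h0
        exact mul_le_mul_of_nonneg_right hbd (by positivity)) x z a hx hz
    rw [e2] at h2
    simp_rw [← PP_pow] at h2
    exact h2
  exact fatou (f := fun z t => ‖PP W z t‖ ^ r) (fun z => PP_pow_continuous W z r) hT
    (fun t ht => (hl t ht).2.norm.rpow_const (Or.inl (norm_ne_zero_iff.2 (hl t ht).1)))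
    (PP_pow_continuous W x r) key

end Pool.Agent.Q255.SA
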