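import Mathlib

/-! # The majorant principle for trigonometric sums on short intervals -/

set_option autoImplicit false

namespace Pool.Agent.Q255.SA

open Filter Topology MeasureTheory Complex

/-- `f` is a finite trigonometric sum, and the absolute values of its coefficients are at most the
coefficients of `F`. -/
def Dom (f F : ℝ → ℂ) : Prop :=
  ∃ (ι : Type) (_ : Fintype ι) (a : ι → ℂ) (b : ι → ℝ) (l : ι → ℝ), (∀ i, ‖a i‖ ≤ b i) ∧
    (∀ τ, f τ = ∑ i, a i * cexp (l i * τ * I)) ∧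
    (∀ τ, F τ = ∑ i, (b i : ℂ) * cexp (l i * τ * I))

theorem norm_e (l τ : ℝ) : ‖cexp (l * τ * I)‖ = 1 := by
  rw [← ofReal_mul, norm_exp_ofReal_mul_I]

theorem Dom.single {c : ℂ} {b : ℝ} (h : ‖c‖ ≤ b) (l : ℝ) :
    Dom (fun τ => c * cexp (l * τ * I)) (fun τ => b * cexp (l * τ * I)) :=
  ⟨Unit, inferInstance, fun _ => c, fun _ => b, fun _ => l, fun _ => h, fun τ => by simp,
    fun τ => by simp⟩

theorem Dom.const {c : ℂ} {b : ℝ} (h : ‖c‖ ≤ b) : Dom (fun _ => c) (fun _ => b) := by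
  have := Dom.single h 0
  simpa using this

theorem Dom.zero : Dom (fun _ => 0) (fun _ => 0) := by
  simpa using Dom.const (c := 0) (b := 0) (by simp)

theorem Dom.add {f F g G : ℝ → ℂ} (hf : Dom f F) (hg : Dom g G) :
    Dom (fun τ => f τ + g τ) (fun τ => F τ + G τ) := by
  obtain ⟨ι, _, a, b, l, h1, h2, h3⟩ := hf
  obtain ⟨κ, _, a', b', l', h1', h2', h3'⟩ := hg
  refine ⟨ι ⊕ κ, inferInstance, Sum.elim a a', Sum.elim b b', Sum.elim l l', ?_, ?_, ?_⟩
  · rintro (i | i)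
    · exact h1 i
    · exact h1' i
  · intro τ
    simp only [Fintype.sum_sum_type, Sum.elim_inl, Sum.elim_inr]
    rw [h2, h2']
  · intro τ
    simp only [Fintype.sum_sum_type, Sum.elim_inl, Sum.elim_inr]
    rw [h3, h3']

theorem Dom.mul {f F g G : ℝ → ℂ} (hf : Dom f F) (hg : Dom g G) :
    Dom (fun τ => f τ * g τ) (fun τ => F τ * G τ) := by
  obtain ⟨ι, _, a, b, l, h1, h2, h3⟩ := hf
  obtain ⟨κ, _, a', b', l', h1', h2', h3'⟩ := hg
  refine ⟨ι × κ, inferInstance, fun x => a x.1 * a' x.2, fun x => b x.1 * b' x.2,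
    fun x => l x.1 + l' x.2, ?_, ?_, ?_⟩
  · intro x
    rw [norm_mul]
    exact mul_le_mul (h1 _) (h1' _) (norm_nonneg _) ((norm_nonneg _).trans (h1 _))
  · intro τ
    simp only
    rw [h2, h2', Finset.sum_mul_sum, Fintype.sum_prod_type]
    refine Finset.sum_congr rfl fun i _ => Finset.sum_congr rfl fun j _ => ?_
    push_cast
    rw [add_mul, add_mul, Complex.exp_add]
    ring
  · intro τ
    simp only
    rw [h3, h3', Finset.sum_mul_sum, Fintype.sum_prod_type]
    refine Finset.sum_congr rfl fun i _ => Finset.sum_congr rfl fun j _ => ?_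
    push_cast
    rw [add_mul, add_mul, Complex.exp_add]
    ring

theorem Dom.pow {f F : ℝ → ℂ} (hf : Dom f F) (k : ℕ) :
    Dom (fun τ => f τ ^ k) (fun τ => F τ ^ k) := by
  induction k with
  | zero => simpa using Dom.const (c := 1) (b := 1) (by simp)
  | succ k ih => simpa only [pow_succ] using ih.mul hf

theorem Dom.sum {κ : Type*} (s : Finset κ) {f F : κ → ℝ → ℂ} (hf : ∀ i ∈ s, Dom (f i) (F i)) :
    Dom (fun τ => ∑ i ∈ s, f i τ) (fun τ => ∑ i ∈ s, F i τ) := by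
  classical
  induction s using Finset.induction_on with
  | empty => simpa using Dom.zero
  | insert i s hi ih =>
    simp only [Finset.sum_insert hi]
    exact (hf i (Finset.mem_insert_self _ _)).add (ih fun j hj => hf j (Finset.mem_insert_of_mem hj))

theorem Dom.smul {f F : ℝ → ℂ} (hf : Dom f F) {c : ℂ} {b : ℝ} (h : ‖c‖ ≤ b) :
    Dom (fun τ => c * f τ) (fun τ => b * F τ) := (Dom.const h).mul hf

theorem Dom.continuous {f F : ℝ → ℂ} (hf : Dom f F) : Continuous f ∧ Continuous F := by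
  obtain ⟨ι, _, a, b, l, h1, h2, h3⟩ := hf
  rw [funext h2, funext h3]
  constructor <;> fun_prop

theorem Dom.bound {f F : ℝ → ℂ} (hf : Dom f F) (τ : ℝ) : ‖f τ‖ ≤ ‖F 0‖ ∧ ‖F τ‖ ≤ ‖F 0‖ := by
  obtain ⟨ι, _, a, b, l, h1, h2, h3⟩ := hf
  have hb : ∀ i, 0 ≤ b i := fun i => (norm_nonneg _).trans (h1 i)
  have h0 : F 0 = ((∑ i, b i : ℝ) : ℂ) := by
    rw [h3]
    push_cast
    exact Finset.sum_congr rfl fun i _ => by simp
  have h0' : ‖F 0‖ = ∑ i, b i := by
    rw [h0, norm_real, Real.norm_of_nonneg (Finset.sum_nonneg fun i _ => hb i)]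
  rw [h0']
  constructor
  · rw [h2]
    refine norm_sum_le_of_le _ fun i _ => ?_
    rw [norm_mul, norm_e, mul_one]
    exact h1 i
  · rw [h3]
    refine norm_sum_le_of_le _ fun i _ => ?_
    rw [norm_mul, norm_e, mul_one, norm_real, Real.norm_of_nonneg (hb i)]

theorem ii_conj (g : ℝ → ℂ) (a b : ℝ) :
    ∫ s in a..b, (starRingEnd ℂ) (g s) = (starRingEnd ℂ) (∫ s in a..b, g s) := by
  simp only [intervalIntegral, integral_conj, map_sub]

/-- the double integral of a trigonometric sum -/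
theorem double_eq {ι : Type} [Fintype ι] (a : ι → ℂ) (l : ι → ℝ) (c L : ℝ) :
    (((∫ s' in (0 : ℝ)..L, ∫ s in (0 : ℝ)..L,
      ‖∑ i, a i * cexp (l i * ((c + s - s' : ℝ) : ℂ) * I)‖ ^ 2 : ℝ)) : ℂ) =
    ∑ i, ∑ j, a i * (starRingEnd ℂ) (a j) * cexp ((l i - l j) * c * I) *
      ((‖∫ s in (0 : ℝ)..L, cexp ((l i - l j) * s * I)‖ ^ 2 : ℝ) : ℂ) := by
  have e1 : ∀ s' s : ℝ, ((‖∑ i, a i * cexp (l i * ((c + s - s' : ℝ) : ℂ) * I)‖ ^ 2 : ℝ) : ℂ) =
      ∑ i, ∑ j, a i * (starRingEnd ℂ) (a j) * cexp ((l i - l j) * c * I) *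
        (cexp (-((l i - l j) * s' * I)) * cexp ((l i - l j) * s * I)) := by
    intro s' s
    have h1 : ((‖∑ i, a i * cexp (l i * ((c + s - s' : ℝ) : ℂ) * I)‖ ^ 2 : ℝ) : ℂ) =
        (∑ i, a i * cexp (l i * ((c + s - s' : ℝ) : ℂ) * I)) *
          (starRingEnd ℂ) (∑ i, a i * cexp (l i * ((c + s - s' : ℝ) : ℂ) * I)) := by
      rw [Complex.mul_conj, Complex.normSq_eq_norm_sq]
    rw [h1, map_sum, Finset.sum_mul_sum]
    refine Finset.sum_congr rfl fun i _ => Finset.sum_congr rfl fun j _ => ?_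
    rw [map_mul, ← Complex.exp_conj]
    simp only [map_mul, conj_ofReal, conj_I]
    rw [← Complex.exp_add]
    have : a i * cexp (l i * ((c + s - s' : ℝ) : ℂ) * I) *
        ((starRingEnd ℂ) (a j) * cexp (l j * ((c + s - s' : ℝ) : ℂ) * -I)) =
        a i * (starRingEnd ℂ) (a j) * (cexp (l i * ((c + s - s' : ℝ) : ℂ) * I) *
          cexp (l j * ((c + s - s' : ℝ) : ℂ) * -I)) := by ring
    rw [this, ← Complex.exp_add, mul_assoc (a i * (starRingEnd ℂ) (a j)), ← Complex.exp_add]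
    congr 2
    push_cast
    ring
  have e2 : ∀ s' : ℝ, (((∫ s in (0 : ℝ)..L,
      ‖∑ i, a i * cexp (l i * ((c + s - s' : ℝ) : ℂ) * I)‖ ^ 2 : ℝ)) : ℂ) =
      ∑ i, ∑ j, a i * (starRingEnd ℂ) (a j) * cexp ((l i - l j) * c * I) *
        (cexp (-((l i - l j) * s' * I)) * ∫ s in (0 : ℝ)..L, cexp ((l i - l j) * s * I)) := by
    intro s'
    rw [← intervalIntegral.integral_ofReal]
    rw [intervalIntegral.integral_congr (fun s _ => e1 s' s)]
    rw [intervalIntegral.integral_finset_sum]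
    · refine Finset.sum_congr rfl fun i _ => ?_
      rw [intervalIntegral.integral_finset_sum]
      · refine Finset.sum_congr rfl fun j _ => ?_
        rw [intervalIntegral.integral_const_mul, intervalIntegral.integral_const_mul]
      · intro j _
        apply Continuous.intervalIntegrable
        fun_prop
    · intro i _
      apply Continuous.intervalIntegrable
      fun_prop
  rw [← intervalIntegral.integral_ofReal, intervalIntegral.integral_congr (fun s' _ => e2 s')]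
  rw [intervalIntegral.integral_finset_sum]
  · refine Finset.sum_congr rfl fun i _ => ?_
    rw [intervalIntegral.integral_finset_sum]
    · refine Finset.sum_congr rfl fun j _ => ?_
      rw [intervalIntegral.integral_const_mul, intervalIntegral.integral_mul_const]
      congr 1
      have e3 : (∫ s' in (0 : ℝ)..L, cexp (-((l i - l j) * s' * I))) =
          (starRingEnd ℂ) (∫ s in (0 : ℝ)..L, cexp ((l i - l j) * s * I)) := by
        rw [← ii_conj]
        refine intervalIntegral.integral_congr fun s _ => ?_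
        rw [← Complex.exp_conj]
        simp
      rw [e3, mul_comm, Complex.mul_conj, Complex.normSq_eq_norm_sq]
    · intro j _
      apply Continuous.intervalIntegrable
      fun_prop
  · intro i _
    apply Continuous.intervalIntegrable
    fun_prop

/-- the double integral -/
noncomputable def J (f : ℝ → ℂ) (c L : ℝ) : ℝ :=
  ∫ s' in (0 : ℝ)..L, ∫ s in (0 : ℝ)..L, ‖f (c + s - s')‖ ^ 2

theorem J_nonneg (f : ℝ → ℂ) (c : ℝ) {L : ℝ} (hL : 0 ≤ L) : 0 ≤ J f c L := by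
  unfold J
  refine intervalIntegral.integral_nonneg hL fun s' _ => ?_
  exact intervalIntegral.integral_nonneg hL fun s _ => by positivity

theorem Dom.J_le {f F : ℝ → ℂ} (h : Dom f F) (c : ℝ) {L : ℝ} (hL : 0 ≤ L) :
    J f c L ≤ J F 0 L := by
  have h0 := J_nonneg f c hL
  have h0' := J_nonneg F 0 hL
  obtain ⟨ι, _, a, b, l, h1, h2, h3⟩ := h
  have e1 : (J f c L : ℂ) = ∑ i, ∑ j, a i * (starRingEnd ℂ) (a j) *
      cexp ((l i - l j) * c * I) *
      ((‖∫ s in (0 : ℝ)..L, cexp ((l i - l j) * s * I)‖ ^ 2 : ℝ) : ℂ) := by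
    rw [← double_eq]
    unfold J
    simp_rw [h2]
  have e2 : (J F 0 L : ℂ) = ((∑ i, ∑ j, b i * b j *
      ‖∫ s in (0 : ℝ)..L, cexp ((l i - l j) * s * I)‖ ^ 2 : ℝ) : ℂ) := by
    have := double_eq (fun i => (b i : ℂ)) l 0 L
    unfold J
    simp_rw [h3]
    rw [this]
    push_cast
    refine Finset.sum_congr rfl fun i _ => Finset.sum_congr rfl fun j _ => ?_
    simp
  rw [Complex.ofReal_inj] at e2
  rw [e2]
  have e3 : J f c L = ‖(J f c L : ℂ)‖ := by
    rw [norm_real, Real.norm_of_nonneg h0]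
  rw [e3, e1]
  refine norm_sum_le_of_le _ fun i _ => norm_sum_le_of_le _ fun j _ => ?_
  have e4 : ‖cexp ((l i - l j) * c * I)‖ = 1 := by
    have := norm_e (l i - l j) c
    push_cast at this
    exact this
  rw [norm_mul, norm_mul, norm_mul, RCLike.norm_conj, e4, mul_one, norm_real,
    Real.norm_of_nonneg (by positivity : (0 : ℝ) ≤ ‖∫ s in (0 : ℝ)..L,
      cexp ((l i - l j) * s * I)‖ ^ 2)]
  exact mul_le_mul_of_nonneg_right (mul_le_mul (h1 i) (h1 j) (norm_nonneg _)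
    ((norm_nonneg _).trans (h1 i))) (by positivity)

theorem inner_eq (g : ℝ → ℝ) (c L s' : ℝ) :
    ∫ s in (0 : ℝ)..L, g (c + s - s') = ∫ u in (c - s')..(c + L - s'), g u := by
  have h := intervalIntegral.integral_comp_add_left (a := 0) (b := L) g (c - s')
  rw [add_zero] at h
  rw [← show c - s' + L = c + L - s' by ring, ← h]
  refine intervalIntegral.integral_congr fun s _ => ?_
  show g (c + s - s') = g (c - s' + s)
  congr 1
  ring

theorem inner_continuous {g : ℝ → ℝ} (hg : Continuous g) (c L : ℝ) :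
    Continuous fun s' : ℝ => ∫ s in (0 : ℝ)..L, g (c + s - s') := by
  apply intervalIntegral.continuous_parametric_intervalIntegral_of_continuous'
  exact hg.comp (by fun_prop)

theorem J_lower {f : ℝ → ℂ} (hf : Continuous f) (c : ℝ) {L : ℝ} (hL : 0 ≤ L) :
    L / 2 * ∫ u in (c - L / 2)..(c + L / 2), ‖f u‖ ^ 2 ≤ J f c L := by
  have hg : Continuous fun u => ‖f u‖ ^ 2 := by fun_prop
  have hgi : ∀ a b : ℝ, IntervalIntegrable (fun u => ‖f u‖ ^ 2) volume a b := fun a b =>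
    hg.intervalIntegrable a b
  have hc := inner_continuous hg c L
  have hci : ∀ a b : ℝ, IntervalIntegrable (fun s' : ℝ => ∫ s in (0 : ℝ)..L,
      ‖f (c + s - s')‖ ^ 2) volume a b := fun a b => hc.intervalIntegrable a b
  have e1 : J f c L = (∫ s' in (0 : ℝ)..(L / 2), ∫ s in (0 : ℝ)..L, ‖f (c + s - s')‖ ^ 2) +
      ∫ s' in (L / 2)..L, ∫ s in (0 : ℝ)..L, ‖f (c + s - s')‖ ^ 2 :=
    (intervalIntegral.integral_add_adjacent_intervals (hci _ _) (hci _ _)).symm
  have e2 : ∫ u in (c - L / 2)..(c + L / 2), ‖f u‖ ^ 2 =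
      (∫ u in (c - L / 2)..c, ‖f u‖ ^ 2) + ∫ u in c..(c + L / 2), ‖f u‖ ^ 2 :=
    (intervalIntegral.integral_add_adjacent_intervals (hgi _ _) (hgi _ _)).symm
  have b1 : L / 2 * ∫ u in c..(c + L / 2), ‖f u‖ ^ 2 ≤
      ∫ s' in (0 : ℝ)..(L / 2), ∫ s in (0 : ℝ)..L, ‖f (c + s - s')‖ ^ 2 := by
    have h1 : L / 2 * ∫ u in c..(c + L / 2), ‖f u‖ ^ 2 =
        ∫ s' in (0 : ℝ)..(L / 2), ∫ u in c..(c + L / 2), ‖f u‖ ^ 2 := by
      rw [intervalIntegral.integral_const, smul_eq_mul, sub_zero]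
    rw [h1]
    refine intervalIntegral.integral_mono_on (by linarith) (by simp) (hci _ _) fun s' hs' => ?_
    rw [inner_eq (fun u => ‖f u‖ ^ 2)]
    exact intervalIntegral.integral_mono_interval (by linarith [hs'.1]) (by linarith)
      (by linarith [hs'.2]) (Eventually.of_forall fun u => by positivity) (hgi _ _)
  have b2 : L / 2 * ∫ u in (c - L / 2)..c, ‖f u‖ ^ 2 ≤
      ∫ s' in (L / 2)..L, ∫ s in (0 : ℝ)..L, ‖f (c + s - s')‖ ^ 2 := by
    have h1 : L / 2 * ∫ u in (c - L / 2)..c, ‖f u‖ ^ 2 =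
        ∫ s' in (L / 2)..L, ∫ u in (c - L / 2)..c, ‖f u‖ ^ 2 := by
      rw [intervalIntegral.integral_const, smul_eq_mul]
      ring
    rw [h1]
    refine intervalIntegral.integral_mono_on (by linarith) (by simp) (hci _ _) fun s' hs' => ?_
    rw [inner_eq (fun u => ‖f u‖ ^ 2)]
    exact intervalIntegral.integral_mono_interval (by linarith [hs'.1]) (by linarith)
      (by linarith [hs'.2]) (Eventually.of_forall fun u => by positivity) (hgi _ _)
  rw [e1, e2, mul_add]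
  linarith

theorem J_upper {f : ℝ → ℂ} (hf : Continuous f) {L : ℝ} (hL : 0 ≤ L) :
    J f 0 L ≤ L * ∫ u in (-L)..L, ‖f u‖ ^ 2 := by
  have hg : Continuous fun u => ‖f u‖ ^ 2 := by fun_prop
  have hgi : ∀ a b : ℝ, IntervalIntegrable (fun u => ‖f u‖ ^ 2) volume a b := fun a b =>
    hg.intervalIntegrable a b
  have hc := inner_continuous hg 0 L
  have h1 : L * ∫ u in (-L)..L, ‖f u‖ ^ 2 = ∫ s' in (0 : ℝ)..L, ∫ u in (-L)..L, ‖f u‖ ^ 2 := by
    rw [intervalIntegral.integral_const, smul_eq_mul, sub_zero]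
  rw [h1]
  unfold J
  refine intervalIntegral.integral_mono_on hL (hc.intervalIntegrable _ _) (by simp)
    fun s' hs' => ?_
  rw [inner_eq (fun u => ‖f u‖ ^ 2)]
  exact intervalIntegral.integral_mono_interval (by linarith [hs'.2]) (by linarith [hs'.1])
    (by linarith [hs'.1]) (Eventually.of_forall fun u => by positivity) (hgi _ _)

/-- The majorant principle. -/
theorem Dom.maj {f F : ℝ → ℂ} (h : Dom f F) (a : ℝ) {L : ℝ} (hL : 0 < L) :
    ∫ u in a..(a + L), ‖f u‖ ^ 2 ≤ 2 * ∫ u in (-L)..L, ‖F u‖ ^ 2 := by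
  have h1 := J_lower h.continuous.1 (a + L / 2) hL.le
  have h2 := h.J_le (a + L / 2) hL.le
  have h3 := J_upper h.continuous.2 hL.le
  have e1 : a + L / 2 - L / 2 = a := by ring
  have e2 : a + L / 2 + L / 2 = a + L := by ring
  rw [e1, e2] at h1
  have h4 : L / 2 * (∫ u in a..(a + L), ‖f u‖ ^ 2) ≤ L / 2 * (2 * ∫ u in (-L)..L, ‖F u‖ ^ 2) := by
    linarith
  exact le_of_mul_le_mul_left h4 (by positivity)

/-- Limits of dominated pairs. -/
def DomL (f F : ℝ → ℂ) : Prop :=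
  ∃ (fk Fk : ℕ → ℝ → ℂ) (M : ℝ), (∀ k, Dom (fk k) (Fk k)) ∧ (∀ k τ, ‖fk k τ‖ ≤ M) ∧
    (∀ k τ, ‖Fk k τ‖ ≤ M) ∧ (∀ τ, Tendsto (fun k => fk k τ) atTop (𝓝 (f τ))) ∧
    ∀ τ, Tendsto (fun k => Fk k τ) atTop (𝓝 (F τ))

theorem Dom.toL {f F : ℝ → ℂ} (h : Dom f F) : DomL f F :=
  ⟨fun _ => f, fun _ => F, ‖F 0‖, fun _ => h, fun _ τ => (h.bound τ).1, fun _ τ => (h.bound τ).2,
    fun _ => tendsto_const_nhds, fun _ => tendsto_const_nhds⟩

theorem DomL.mul {f F g G : ℝ → ℂ} (hf : DomL f F) (hg : DomL g G) :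
    DomL (fun τ => f τ * g τ) (fun τ => F τ * G τ) := by
  obtain ⟨fk, Fk, M, h1, h2, h3, h4, h5⟩ := hf
  obtain ⟨gk, Gk, N, h1', h2', h3', h4', h5'⟩ := hg
  refine ⟨fun k τ => fk k τ * gk k τ, fun k τ => Fk k τ * Gk k τ, M * N, fun k =>
    (h1 k).mul (h1' k), ?_, ?_, fun τ => (h4 τ).mul (h4' τ), fun τ => (h5 τ).mul (h5' τ)⟩
  · intro k τ
    rw [norm_mul]
    exact mul_le_mul (h2 k τ) (h2' k τ) (norm_nonneg _) ((norm_nonneg _).trans (h2 k τ))
  · intro k τ
    rw [norm_mul]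
    exact mul_le_mul (h3 k τ) (h3' k τ) (norm_nonneg _) ((norm_nonneg _).trans (h3 k τ))

theorem exp_partial_norm (z : ℂ) (k : ℕ) :
    ‖∑ j ∈ Finset.range k, z ^ j / (j.factorial : ℂ)‖ ≤ Real.exp ‖z‖ := by
  refine (norm_sum_le _ _).trans ?_
  have : ∀ j ∈ Finset.range k, ‖z ^ j / (j.factorial : ℂ)‖ = ‖z‖ ^ j / j.factorial := by
    intro j _
    rw [norm_div, norm_pow, Complex.norm_natCast]
  rw [Finset.sum_congr rfl this]
  exact Real.sum_le_exp_of_nonneg (norm_nonneg _) k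

theorem exp_partial_tendsto (z : ℂ) :
    Tendsto (fun k => ∑ j ∈ Finset.range k, z ^ j / (j.factorial : ℂ)) atTop (𝓝 (cexp z)) := by
  have h := NormedSpace.expSeries_div_hasSum_exp (𝔸 := ℂ) z
  rw [Complex.exp_eq_exp_ℂ]
  exact h.tendsto_sum_nat

theorem Dom.exp {f F : ℝ → ℂ} (h : Dom f F) : DomL (fun τ => cexp (f τ)) (fun τ => cexp (F τ)) := by
  refine ⟨fun k τ => ∑ j ∈ Finset.range k, f τ ^ j / (j.factorial : ℂ),
    fun k τ => ∑ j ∈ Finset.range k, F τ ^ j / (j.factorial : ℂ), Real.exp ‖F 0‖, ?_, ?_, ?_,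
    fun τ => exp_partial_tendsto _, fun τ => exp_partial_tendsto _⟩
  · intro k
    refine Dom.sum _ fun j _ => ?_
    have h1 := (h.pow j).smul (c := ((j.factorial : ℂ))⁻¹) (b := ((j.factorial : ℝ))⁻¹) (by
      rw [norm_inv, Complex.norm_natCast])
    refine cast ?_ h1
    congr 1
    · funext τ
      rw [div_eq_inv_mul]
    · funext τ
      push_cast
      rw [div_eq_inv_mul]
  · intro k τ
    exact (exp_partial_norm _ _).trans (Real.exp_le_exp.2 (h.bound τ).1)
  · intro k τ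
    exact (exp_partial_norm _ _).trans (Real.exp_le_exp.2 (h.bound τ).2)

theorem Dom.exp_sub_one {f F : ℝ → ℂ} (h : Dom f F) :
    DomL (fun τ => cexp (f τ) - 1) (fun τ => cexp (F τ) - 1) := by
  have key : ∀ (z : ℂ) (k : ℕ), ∑ j ∈ Finset.range k, z ^ (j + 1) / ((j + 1).factorial : ℂ) =
      (∑ j ∈ Finset.range (k + 1), z ^ j / (j.factorial : ℂ)) - 1 := by
    intro z k
    rw [Finset.sum_range_succ' _ k]
    simp
  refine ⟨fun k τ => ∑ j ∈ Finset.range k, f τ ^ (j + 1) / ((j + 1).factorial : ℂ),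
    fun k τ => ∑ j ∈ Finset.range k, F τ ^ (j + 1) / ((j + 1).factorial : ℂ),
    Real.exp ‖F 0‖ + 1, ?_, ?_, ?_, ?_, ?_⟩
  · intro k
    refine Dom.sum _ fun j _ => ?_
    have h1 := (h.pow (j + 1)).smul (c := (((j + 1).factorial : ℂ))⁻¹)
      (b := (((j + 1).factorial : ℝ))⁻¹) (by rw [norm_inv, Complex.norm_natCast])
    refine cast ?_ h1
    congr 1
    · funext τ
      rw [div_eq_inv_mul]
    · funext τ
      push_cast
      rw [div_eq_inv_mul]
  · intro k τ
    simp only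
    rw [key]
    refine (norm_sub_le _ _).trans ?_
    rw [norm_one]
    gcongr
    exact (exp_partial_norm _ _).trans (Real.exp_le_exp.2 (h.bound τ).1)
  · intro k τ
    simp only
    rw [key]
    refine (norm_sub_le _ _).trans ?_
    rw [norm_one]
    gcongr
    exact (exp_partial_norm _ _).trans (Real.exp_le_exp.2 (h.bound τ).2)
  · intro τ
    simp only [key]
    exact ((exp_partial_tendsto (f τ)).comp (tendsto_add_atTop_nat 1)).sub_const 1
  · intro τ
    simp only [key]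
    exact ((exp_partial_tendsto (F τ)).comp (tendsto_add_atTop_nat 1)).sub_const 1

theorem lim_int {f : ℝ → ℂ} {fk : ℕ → ℝ → ℂ} {M : ℝ} (hc : ∀ k, Continuous (fk k))
    (hM : ∀ k τ, ‖fk k τ‖ ≤ M) (hl : ∀ τ, Tendsto (fun k => fk k τ) atTop (𝓝 (f τ))) (a b : ℝ) :
    Tendsto (fun k => ∫ u in a..b, ‖fk k u‖ ^ 2) atTop (𝓝 (∫ u in a..b, ‖f u‖ ^ 2)) := by
  apply intervalIntegral.tendsto_integral_filter_of_dominated_convergence (fun _ => M ^ 2)
  · exact Eventually.of_forall fun k => ((hc k).norm.pow 2).aestronglyMeasurable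
  · refine Eventually.of_forall fun k => Eventually.of_forall fun u _ => ?_
    rw [norm_pow, norm_norm]
    exact pow_le_pow_left₀ (norm_nonneg _) (hM k u) 2
  · simp
  · exact Eventually.of_forall fun u _ => ((hl u).norm.pow 2)

/-- The majorant principle for limits. -/
theorem DomL.maj {f F : ℝ → ℂ} (h : DomL f F) (a : ℝ) {L : ℝ} (hL : 0 < L) :
    ∫ u in a..(a + L), ‖f u‖ ^ 2 ≤ 2 * ∫ u in (-L)..L, ‖F u‖ ^ 2 := by
  obtain ⟨fk, Fk, M, h1, h2, h3, h4, h5⟩ := h
  refine le_of_tendsto_of_tendsto' (lim_int (fun k => (h1 k).continuous.1) h2 h4 a (a + L))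
    ((lim_int (fun k => (h1 k).continuous.2) h3 h5 (-L) L).const_mul 2) fun k => ?_
  exact (h1 k).maj a hL

end Pool.Agent.Q255.SA
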