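import Pool.Agent.Q255.SA.Prim2
import Pool.Agent.Q255.SA.Maj

/-! # Mean squares of exponentials of sums over primes on short intervals -/

set_option autoImplicit false

namespace Pool.Agent.Q255.SA

open Finset MeasureTheory Filter Topology

theorem int_small {G : ℝ → ℝ} (hG : Continuous G) {κ C δ : ℝ} (h0 : 0 ≤ κ) (h1 : κ < 1 / 2)
    (hδ : 0 < δ) (h : ∀ t, 0 < t → t ≤ δ → G t ≤ C * t ^ (-(2 * κ))) :
    ∫ t in (0 : ℝ)..δ, G t ≤ C * (δ ^ (1 - 2 * κ) / (1 - 2 * κ)) := by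
  have h2 : ∫ t in (0 : ℝ)..δ, C * t ^ (-(2 * κ)) = C * (δ ^ (1 - 2 * κ) / (1 - 2 * κ)) := by
    rw [intervalIntegral.integral_const_mul, integral_rpow (Or.inl (by linarith)),
      Real.zero_rpow (by linarith)]
    congr 2
    · rw [sub_zero]
      congr 1
      ring
    · ring
  rw [← h2]
  refine intervalIntegral.integral_mono_on_of_le_Ioo hδ.le (hG.intervalIntegrable _ _)
    ((intervalIntegral.intervalIntegrable_rpow' (by linarith)).const_mul C) fun t ht => ?_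
  exact h t ht.1 ht.2.le

theorem int_large {G : ℝ → ℝ} (hG : Continuous G) {κ C δ : ℝ} (h0 : 0 ≤ κ)
    (hC : 0 ≤ C) (hδ : 0 < δ) (hδ1 : δ ≤ 1)
    (h : ∀ t, δ ≤ t → t ≤ 1 → G t ≤ C * δ ^ 2 * t ^ (-(2 * κ) - 2)) :
    ∫ t in δ..1, G t ≤ C * δ ^ (1 - 2 * κ) := by
  have hne : (0 : ℝ) ∉ Set.uIcc δ 1 := by
    rw [Set.uIcc_of_le hδ1]
    intro h
    linarith [h.1]
  have h2 : ∫ t in δ..1, C * δ ^ 2 * t ^ (-(2 * κ) - 2) =
      C * δ ^ 2 * ((δ ^ (-(2 * κ) - 1) - 1) / (2 * κ + 1)) := by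
    rw [intervalIntegral.integral_const_mul, integral_rpow (Or.inr ⟨by linarith, hne⟩),
      Real.one_rpow]
    have e1 : -(2 * κ) - 2 + 1 = -(2 * κ) - 1 := by ring
    rw [e1]
    congr 1
    rw [div_eq_div_iff (by linarith) (by linarith)]
    ring
  have h3 : ∫ t in δ..1, G t ≤ C * δ ^ 2 * ((δ ^ (-(2 * κ) - 1) - 1) / (2 * κ + 1)) := by
    rw [← h2]
    refine intervalIntegral.integral_mono_on hδ1 (hG.intervalIntegrable _ _) ?_ fun t ht => ?_
    · exact (intervalIntegral.intervalIntegrable_rpow (Or.inr hne)).const_mul _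
    · exact h t ht.1 ht.2
  refine h3.trans ?_
  have h4 : (δ ^ (-(2 * κ) - 1) - 1) / (2 * κ + 1) ≤ δ ^ (-(2 * κ) - 1) := by
    have : 0 < δ ^ (-(2 * κ) - 1) := Real.rpow_pos_of_pos hδ _
    rw [div_le_iff₀ (by linarith)]
    nlinarith
  calc C * δ ^ 2 * ((δ ^ (-(2 * κ) - 1) - 1) / (2 * κ + 1)) ≤ C * δ ^ 2 * δ ^ (-(2 * κ) - 1) := by
        gcongr
    _ = C * (δ ^ (2 : ℝ) * δ ^ (-(2 * κ) - 1)) := by
        rw [Real.rpow_two]
        ring
    _ = _ := by
        rw [← Real.rpow_add hδ]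
        congr 2
        ring

theorem int_sym {G : ℝ → ℝ} (hG : Continuous G) {δ B1 B2 : ℝ}
    (h1 : ∫ t in (0 : ℝ)..δ, G t ≤ B1) (h2 : ∫ t in (0 : ℝ)..δ, G (-t) ≤ B1)
    (h3 : ∫ t in δ..1, G t ≤ B2) (h4 : ∫ t in δ..1, G (-t) ≤ B2) :
    ∫ t in (-1 : ℝ)..1, G t ≤ 2 * (B1 + B2) := by
  have hi : ∀ a b : ℝ, IntervalIntegrable G volume a b := fun a b => hG.intervalIntegrable a b
  have e1 : ∫ t in (-1 : ℝ)..1, G t = (∫ t in (-1 : ℝ)..0, G t) + ∫ t in (0 : ℝ)..1, G t :=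
    (intervalIntegral.integral_add_adjacent_intervals (hi _ _) (hi _ _)).symm
  have e2 : ∫ t in (0 : ℝ)..1, G t = (∫ t in (0 : ℝ)..δ, G t) + ∫ t in δ..1, G t :=
    (intervalIntegral.integral_add_adjacent_intervals (hi _ _) (hi _ _)).symm
  have hi' : ∀ a b : ℝ, IntervalIntegrable (fun t => G (-t)) volume a b := fun a b =>
    (hG.comp continuous_neg).intervalIntegrable a b
  have e3 : ∫ t in (-1 : ℝ)..0, G t = ∫ t in (0 : ℝ)..1, G (-t) := by
    rw [intervalIntegral.integral_comp_neg]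
    simp
  have e4 : ∫ t in (0 : ℝ)..1, G (-t) = (∫ t in (0 : ℝ)..δ, G (-t)) + ∫ t in δ..1, G (-t) :=
    (intervalIntegral.integral_add_adjacent_intervals (hi' _ _) (hi' _ _)).symm
  rw [e1, e3, e4, e2]
  linarith

theorem PS_continuous (x z : ℕ) : Continuous (PS x z) := by
  unfold PS
  refine continuous_finset_sum _ fun k _ => ?_
  split_ifs
  · unfold ee
    fun_prop
  · exact continuous_const

/-- the first majorant integral -/
theorem maj1 {κ : ℝ} (h0 : 0 ≤ κ) (h1 : κ < 1 / 2) : ∃ C : ℝ, 0 < C ∧ ∀ x : ℕ, 3 ≤ x →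
    ∫ t in (-1 : ℝ)..1, ‖Complex.exp (κ * PS 0 x t)‖ ^ 2 ≤ C := by
  obtain ⟨C, hC, h⟩ := P1
  refine ⟨2 * (Real.exp (2 * κ * C) * (1 ^ (1 - 2 * κ) / (1 - 2 * κ)) + 0), ?_, fun x hx => ?_⟩
  · have : 0 < 1 - 2 * κ := by linarith
    rw [Real.one_rpow]
    positivity
  set G : ℝ → ℝ := fun t => ‖Complex.exp (κ * PS 0 x t)‖ ^ 2 with hG
  have hGc : Continuous G := by
    have := PS_continuous 0 x
    fun_prop
  have hb : ∀ t : ℝ, t ≠ 0 → |t| ≤ 1 → G t ≤ Real.exp (2 * κ * C) * |t| ^ (-(2 * κ)) := by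
    intro t ht ht1
    have h2 := (h t x hx ht1).2 ht
    have ht' : 0 < |t| := abs_pos.2 ht
    simp only [hG]
    rw [Complex.norm_exp, ← Real.exp_nat_mul, Real.rpow_def_of_pos ht', ← Real.exp_add,
      Real.exp_le_exp, Complex.re_ofReal_mul]
    push_cast
    nlinarith
  refine int_sym hGc (δ := 1) ?_ ?_ ?_ ?_
  · refine int_small hGc h0 h1 one_pos fun t ht ht1 => ?_
    have := hb t ht.ne' (by rwa [abs_of_pos ht])
    rwa [abs_of_pos ht] at this
  · refine int_small (hGc.comp continuous_neg) h0 h1 one_pos fun t ht ht1 => ?_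
    have := hb (-t) (by linarith) (by rwa [abs_neg, abs_of_pos ht])
    rwa [abs_neg, abs_of_pos ht] at this
  · simp
  · simp

/-- the second majorant integral -/
theorem maj2 {κ : ℝ} (h0 : 0 ≤ κ) (h1 : κ < 1 / 2) : ∃ C : ℝ, 0 < C ∧ ∀ x z : ℕ, 3 ≤ x → x ≤ z →
    ∫ t in (-1 : ℝ)..1, ‖Complex.exp (κ * PS 0 x t) * (Complex.exp (κ * PS x z t) - 1)‖ ^ 2 ≤
      C * (Real.log x) ^ (-(1 - 2 * κ)) := by
  obtain ⟨C1, hC1, hP1⟩ := P1
  obtain ⟨C2, hC2, hP2⟩ := prim_tail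
  obtain ⟨C3, hC3, hP3⟩ := P3
  set K1 := Real.exp (2 * κ * C1) * (Real.exp (κ * C3) + 1) ^ 2 with hK1
  set K2 := Real.exp (2 * κ * C1) * (κ * C2 * Real.exp (κ * C2)) ^ 2 with hK2
  have hK1' : 0 < K1 := by positivity
  have hK2' : 0 ≤ K2 := by positivity
  have hk : 0 < 1 - 2 * κ := by linarith
  refine ⟨2 * (K1 / (1 - 2 * κ) + K2), by positivity, fun x z hx hxz => ?_⟩
  have hx3 : (3 : ℝ) ≤ x := by exact_mod_cast hx
  have hlx1 : 1 ≤ Real.log x := by
    rw [Real.le_log_iff_exp_le (by linarith)]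
    have := Real.exp_one_lt_d9
    linarith
  have hlx : 0 < Real.log x := by linarith
  set δ := 1 / Real.log x with hδ
  have hδ0 : 0 < δ := by positivity
  have hδ1 : δ ≤ 1 := by
    rw [hδ, div_le_one hlx]
    exact hlx1
  set G : ℝ → ℝ := fun t => ‖Complex.exp (κ * PS 0 x t) * (Complex.exp (κ * PS x z t) - 1)‖ ^ 2
    with hG
  have hGc : Continuous G := by
    have := PS_continuous 0 x
    have := PS_continuous x z
    fun_prop
  have hG2 : ∀ t, G t = Real.exp (2 * κ * (PS 0 x t).re) *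
      ‖Complex.exp (κ * PS x z t) - 1‖ ^ 2 := by
    intro t
    simp only [hG]
    rw [norm_mul, mul_pow, Complex.norm_exp, ← Real.exp_nat_mul, Complex.re_ofReal_mul]
    congr 2
    push_cast
    ring
  have hb1 : ∀ t : ℝ, t ≠ 0 → |t| ≤ δ → G t ≤ K1 * |t| ^ (-(2 * κ)) := by
    intro t ht htδ
    have ht' : 0 < |t| := abs_pos.2 ht
    have ht1 : |t| ≤ 1 := htδ.trans hδ1
    have htx : |t| * Real.log x ≤ 1 := by
      rw [hδ, le_div_iff₀ hlx] at htδ
      exact htδ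
    have h2 := (hP1 t x hx ht1).1
    have h3 := hP3 t x z hx hxz ht ht1 htx
    set w := |t| * Real.log x with hw
    have hw0 : 0 < w := by positivity
    have h4 : ‖Complex.exp (κ * PS x z t) - 1‖ ≤ (Real.exp (κ * C3) + 1) * w ^ (-κ) := by
      refine (norm_sub_le _ _).trans ?_
      rw [norm_one, Complex.norm_exp, Complex.re_ofReal_mul, add_mul, one_mul]
      refine add_le_add ?_ (Real.one_le_rpow_of_pos_of_le_one_of_nonpos hw0 htx (by linarith))
      rw [Real.rpow_def_of_pos hw0, ← Real.exp_add, Real.exp_le_exp]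
      nlinarith
    have h5 : Real.exp (2 * κ * (PS 0 x t).re) ≤ Real.exp (2 * κ * C1) * Real.log x ^ (2 * κ) := by
      rw [Real.rpow_def_of_pos hlx, ← Real.exp_add, Real.exp_le_exp]
      nlinarith
    rw [hG2]
    calc Real.exp (2 * κ * (PS 0 x t).re) * ‖Complex.exp (κ * PS x z t) - 1‖ ^ 2
        ≤ (Real.exp (2 * κ * C1) * Real.log x ^ (2 * κ)) *
          ((Real.exp (κ * C3) + 1) * w ^ (-κ)) ^ 2 := by gcongr
      _ = K1 * (Real.log x ^ (2 * κ) * (w ^ (-κ)) ^ 2) := by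
          rw [hK1]
          ring
      _ = K1 * |t| ^ (-(2 * κ)) := by
          congr 1
          rw [← Real.rpow_natCast (w ^ (-κ)), ← Real.rpow_mul hw0.le, hw,
            Real.mul_rpow ht'.le hlx.le, mul_comm (|t| ^ _), ← mul_assoc, ← Real.rpow_add hlx]
          have e1 : 2 * κ + -κ * ((2 : ℕ) : ℝ) = 0 := by push_cast; ring
          rw [e1, Real.rpow_zero, one_mul]
          congr 1
          push_cast
          ring
  have hb2 : ∀ t : ℝ, δ ≤ |t| → |t| ≤ 1 → G t ≤ K2 * δ ^ 2 * |t| ^ (-(2 * κ) - 2) := by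
    intro t htδ ht1
    have ht' : 0 < |t| := hδ0.trans_le htδ
    have ht : t ≠ 0 := abs_pos.1 ht'
    have h2 := (hP1 t x hx ht1).2 ht
    have h3 := hP2 t x z (by omega) hxz ht ht1
    have h4 : C2 / (|t| * Real.log x) = C2 * δ / |t| := by
      rw [hδ]
      field_simp
    rw [h4] at h3
    have h5 : C2 * δ / |t| ≤ C2 := by
      rw [div_le_iff₀ ht']
      gcongr
    have h6 : ‖(κ : ℂ) * PS x z t‖ ≤ κ * (C2 * δ / |t|) := by
      rw [norm_mul, Complex.norm_real, Real.norm_of_nonneg h0]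
      gcongr
    have h7 : ‖Complex.exp (κ * PS x z t) - 1‖ ≤ κ * C2 * Real.exp (κ * C2) * δ / |t| := by
      have h8 := Complex.norm_exp_sub_sum_le_norm_mul_exp (κ * PS x z t) 1
      simp only [Finset.range_one, Finset.sum_singleton, pow_zero, Nat.factorial_zero,
        Nat.cast_one, div_one, pow_one] at h8
      refine h8.trans ?_
      have h9 : Real.exp ‖(κ : ℂ) * PS x z t‖ ≤ Real.exp (κ * C2) :=
        Real.exp_le_exp.2 (h6.trans (by gcongr))
      calc ‖(κ : ℂ) * PS x z t‖ * Real.exp ‖(κ : ℂ) * PS x z t‖ ≤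
            (κ * (C2 * δ / |t|)) * Real.exp (κ * C2) := by gcongr
        _ = _ := by ring
    have h10 : Real.exp (2 * κ * (PS 0 x t).re) ≤ Real.exp (2 * κ * C1) * |t| ^ (-(2 * κ)) := by
      rw [Real.rpow_def_of_pos ht', ← Real.exp_add, Real.exp_le_exp]
      nlinarith
    rw [hG2]
    calc Real.exp (2 * κ * (PS 0 x t).re) * ‖Complex.exp (κ * PS x z t) - 1‖ ^ 2
        ≤ (Real.exp (2 * κ * C1) * |t| ^ (-(2 * κ))) *
          (κ * C2 * Real.exp (κ * C2) * δ / |t|) ^ 2 := by gcongr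
      _ = K2 * δ ^ 2 * (|t| ^ (-(2 * κ)) * (|t|⁻¹) ^ 2) := by
          rw [hK2]
          ring
      _ = _ := by
          congr 1
          rw [← Real.rpow_neg_one, ← Real.rpow_natCast (|t| ^ (-1 : ℝ)), ← Real.rpow_mul ht'.le,
            ← Real.rpow_add ht']
          congr 1
          push_cast
          ring
  have e0 : (Real.log x) ^ (-(1 - 2 * κ)) = δ ^ (1 - 2 * κ) := by
    rw [hδ, one_div, Real.inv_rpow hlx.le, Real.rpow_neg hlx.le]
  have e1 : 2 * (K1 / (1 - 2 * κ) + K2) * δ ^ (1 - 2 * κ) =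
      2 * (K1 * (δ ^ (1 - 2 * κ) / (1 - 2 * κ)) + K2 * δ ^ (1 - 2 * κ)) := by ring
  rw [e0, e1]
  refine int_sym hGc (δ := δ) ?_ ?_ ?_ ?_
  · refine int_small hGc h0 h1 hδ0 fun t ht ht1 => ?_
    have := hb1 t ht.ne' (by rwa [abs_of_pos ht])
    rwa [abs_of_pos ht] at this
  · refine int_small (hGc.comp continuous_neg) h0 h1 hδ0 fun t ht ht1 => ?_
    have := hb1 (-t) (by linarith) (by rwa [abs_neg, abs_of_pos ht])
    rwa [abs_neg, abs_of_pos ht] at this
  · refine int_large hGc h0 hK2' hδ0 hδ1 fun t ht ht1 => ?_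
    have ht0 : 0 < t := hδ0.trans_le ht
    have := hb2 t (by rwa [abs_of_pos ht0]) (by rwa [abs_of_pos ht0])
    rwa [abs_of_pos ht0] at this
  · refine int_large (hGc.comp continuous_neg) h0 hK2' hδ0 hδ1 fun t ht ht1 => ?_
    have ht0 : 0 < t := hδ0.trans_le ht
    have := hb2 (-t) (by rwa [abs_neg, abs_of_pos ht0]) (by rwa [abs_neg, abs_of_pos ht0])
    rwa [abs_neg, abs_of_pos ht0] at this

end Pool.Agent.Q255.SA

namespace Pool.Agent.Q255.SA

open Finset MeasureTheory Filter Topology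

/-- sums over `[x, z)` with coefficients -/
noncomputable def CS (c : ℕ → ℂ) (x z : ℕ) (t : ℝ) : ℂ := ∑ k ∈ Ico x z, c k * (ee t k / k)

theorem dom_CS {c : ℕ → ℂ} {κ : ℝ} (h0 : 0 ≤ κ) (hc : ∀ k, k.Prime → ‖c k‖ ≤ κ)
    (hc0 : ∀ k, ¬ k.Prime → c k = 0) (x z : ℕ) :
    Dom (CS c x z) (fun t => κ * PS x z t) := by
  have h1 : ∀ k ∈ Ico x z, Dom (fun t => c k * (ee t k / k))
      (fun t => κ * (if k.Prime then ee t k / k else 0)) := by
    intro k _
    have e1 : ∀ t : ℝ, ee t k = Complex.exp (((-Real.log k : ℝ) : ℂ) * t * Complex.I) := by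
      intro t
      unfold ee
      congr 1
      push_cast
      ring
    by_cases hk : k.Prime
    · have h2 := Dom.single (c := c k / k) (b := κ / k) (by
        rw [norm_div, Complex.norm_natCast]
        gcongr
        exact hc k hk) (-Real.log k)
      refine cast ?_ h2
      congr 1
      · funext t
        rw [e1]
        ring
      · funext t
        rw [if_pos hk, e1]
        push_cast
        ring
    · have h2 := Dom.zero
      refine cast ?_ h2
      congr 1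
      · funext t
        rw [hc0 k hk, zero_mul]
      · funext t
        rw [if_neg hk, mul_zero]
  have h3 := Dom.sum (Ico x z) h1
  refine cast ?_ h3
  congr 1
  funext t
  unfold PS
  rw [Finset.mul_sum]

/-- Abstract mean square approximation. -/
theorem stepanov {κ : ℝ} (h0 : 0 ≤ κ) (h1 : κ < 1 / 2) : ∃ C : ℝ, 0 < C ∧
    ∀ c : ℕ → ℂ, (∀ k, k.Prime → ‖c k‖ ≤ κ) → (∀ k, ¬ k.Prime → c k = 0) →
    ∀ (x z : ℕ) (a : ℝ), 3 ≤ x → x ≤ z →
      (∫ t in a..(a + 1), ‖Complex.exp (CS c 0 x t)‖ ^ 2 ≤ C) ∧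
      ∫ t in a..(a + 1), ‖Complex.exp (CS c 0 x t) * (Complex.exp (CS c x z t) - 1)‖ ^ 2 ≤
        C * (Real.log x) ^ (-(1 - 2 * κ)) := by
  obtain ⟨C1, hC1, hm1⟩ := maj1 h0 h1
  obtain ⟨C2, hC2, hm2⟩ := maj2 h0 h1
  refine ⟨2 * (C1 + C2), by positivity, fun c hc hc0 x z a hx hxz => ⟨?_, ?_⟩⟩
  · have h2 := (dom_CS h0 hc hc0 0 x).exp.maj a one_pos
    have h3 := hm1 x hx
    linarith
  · have h2 := ((dom_CS h0 hc hc0 0 x).exp.mul (dom_CS h0 hc hc0 x z).exp_sub_one).maj a one_pos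
    have h3 := hm2 x z hx hxz
    have hx3 : (3 : ℝ) ≤ x := by exact_mod_cast hx
    have hlx : 0 < Real.log x := Real.log_pos (by linarith)
    have h4 : 0 < (Real.log x) ^ (-(1 - 2 * κ)) := Real.rpow_pos_of_pos hlx _
    have h5 : 0 < C1 * (Real.log x) ^ (-(1 - 2 * κ)) := by positivity
    nlinarith

end Pool.Agent.Q255.SA
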