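import Pool.Agent.Q255.SA.Main

/-! # Exponentials of sums over primes on arbitrary intervals -/

set_option autoImplicit false

namespace Pool.Agent.Q255.SA

open Finset MeasureTheory Filter Topology

theorem ee_lip (t a : ℝ) {u : ℝ} (hu : 1 ≤ u) : ‖ee t u - ee a u‖ ≤ |t - a| * Real.log u := by
  have hl : 0 ≤ Real.log u := Real.log_nonneg hu
  have e1 : ee t u - ee a u = ee a u * (Complex.exp (Complex.I *
      ((-((t - a) * Real.log u) : ℝ) : ℂ)) - 1) := by
    unfold ee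
    rw [mul_sub, ← Complex.exp_add, mul_one]
    congr 2
    push_cast
    ring
  rw [e1, norm_mul, norm_ee, one_mul]
  refine (Real.norm_exp_I_mul_ofReal_sub_one_le (x := -((t - a) * Real.log u))).trans ?_
  rw [Real.norm_eq_abs, abs_neg, abs_mul, abs_of_nonneg hl]

theorem logsum : ∃ C : ℝ, 0 < C ∧ ∀ x : ℕ, 1 ≤ x →
    ∑ k ∈ Ico 0 x, (if k.Prime then Real.log k / (k : ℝ) else 0) ≤ Real.log x + C := by
  obtain ⟨C, h⟩ := Pool.Agent.Erdos456.Mert.mertens_log
  have hC : 0 ≤ C := (abs_nonneg _).trans (h 1 le_rfl)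
  refine ⟨C + 1, by positivity, fun x hx => ?_⟩
  have h1 := (abs_le.1 (h x hx)).2
  have h2 : ∑ k ∈ Ico 0 x, (if k.Prime then Real.log k / (k : ℝ) else 0) ≤
      ∑ p ∈ (Finset.Icc 1 x).filter Nat.Prime, Real.log p / p := by
    rw [← Finset.sum_filter]
    refine Finset.sum_le_sum_of_subset_of_nonneg (fun k hk => ?_) fun k _ _ => ?_
    · rw [Finset.mem_filter, Finset.mem_Ico] at hk
      rw [Finset.mem_filter, Finset.mem_Icc]
      exact ⟨⟨hk.2.one_lt.le, by omega⟩, hk.2⟩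
    · exact div_nonneg (Real.log_natCast_nonneg _) (by positivity)
  linarith

theorem osc : ∃ C : ℝ, 0 < C ∧ ∀ (κ : ℝ) (c : ℕ → ℂ), 0 ≤ κ → (∀ k, k.Prime → ‖c k‖ ≤ κ) →
    (∀ k, ¬ k.Prime → c k = 0) → ∀ (x : ℕ) (t a : ℝ), 1 ≤ x →
      ‖CS c 0 x t - CS c 0 x a‖ ≤ κ * (|t - a| * (Real.log x + C)) := by
  obtain ⟨C, hC, h⟩ := logsum
  refine ⟨C, hC, fun κ c hκ hc hc0 x t a hx => ?_⟩
  have h1 := h x hx
  unfold CS
  rw [← Finset.sum_sub_distrib]
  have h2 : ∀ k ∈ Ico 0 x, ‖c k * (ee t k / k) - c k * (ee a k / k)‖ ≤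
      κ * (|t - a| * (if k.Prime then Real.log k / (k : ℝ) else 0)) := by
    intro k _
    split_ifs with hk
    · have hk1 : (1 : ℝ) ≤ k := by exact_mod_cast hk.one_lt.le
      have e : c k * (ee t k / k) - c k * (ee a k / k) = c k * ((ee t k - ee a k) / k) := by ring
      rw [e, norm_mul, norm_div, Complex.norm_natCast]
      refine mul_le_mul (hc k hk) ?_ (by positivity) hκ
      rw [← mul_div_assoc]
      gcongr
      exact ee_lip t a hk1
    · rw [hc0 k hk]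
      simp
  refine (norm_sum_le_of_le _ h2).trans ?_
  rw [← Finset.mul_sum, ← Finset.mul_sum]
  gcongr

theorem cutd {δ : ℝ} (h0 : 0 < δ) (h1 : δ ≤ 1) :
    3 ≤ ⌈Real.exp (1 / δ)⌉₊ ∧ 1 / δ ≤ Real.log ⌈Real.exp (1 / δ)⌉₊ ∧
      Real.log ⌈Real.exp (1 / δ)⌉₊ ≤ 1 / δ + 1 := by
  have h2 := cut h0.ne' (by rwa [abs_of_pos h0])
  rw [abs_of_pos h0] at h2
  refine ⟨h2.1, h2.2.1, ?_⟩
  have h6 : (⌈Real.exp (1 / δ)⌉₊ : ℝ) ≤ Real.exp (1 / δ + 1) := by
    have h7 := (Nat.ceil_lt_add_one (Real.exp_pos (1 / δ)).le).le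
    have h8 : 1 ≤ 1 / δ := by rwa [le_div_iff₀ h0, one_mul]
    have h9 : Real.exp 1 ≤ Real.exp (1 / δ) := Real.exp_le_exp.2 h8
    have he := Real.exp_one_gt_d9
    rw [Real.exp_add]
    nlinarith
  have := Real.log_le_log (by
    have := h2.1
    exact_mod_cast (by omega : 0 < ⌈Real.exp (1 / δ)⌉₊)) h6
  rwa [Real.log_exp] at this

theorem maj_local {κ : ℝ} (h0 : 0 ≤ κ) (h1 : κ < 1 / 2) : ∃ C : ℝ, 0 < C ∧ ∀ δ : ℝ, 0 < δ →
    δ ≤ 1 → ∀ z : ℕ, ⌈Real.exp (1 / δ)⌉₊ ≤ z →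
    ∫ t in (-δ)..δ, ‖Complex.exp (κ * PS ⌈Real.exp (1 / δ)⌉₊ z t)‖ ^ 2 ≤ C * δ := by
  obtain ⟨C2, hC2, hP2⟩ := prim_tail
  obtain ⟨C3, hC3, hP3⟩ := P3
  have hk : 0 < 1 - 2 * κ := by linarith
  refine ⟨2 * (Real.exp (2 * κ * (C2 + C3)) / (1 - 2 * κ)), by positivity,
    fun δ hδ hδ1 z hz => ?_⟩
  obtain ⟨hx3, hx1, hx2⟩ := cutd hδ hδ1
  set x := ⌈Real.exp (1 / δ)⌉₊ with hx
  set G : ℝ → ℝ := fun t => ‖Complex.exp (κ * PS x z t)‖ ^ 2 with hG
  have hGc : Continuous G := by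
    have := PS_continuous x z
    fun_prop
  have hlx : 0 < Real.log x := lt_of_lt_of_le (by positivity) hx1
  have hx1' : 1 ≤ δ * Real.log x := by
    rw [div_le_iff₀ hδ] at hx1
    linarith
  have hb : ∀ t : ℝ, t ≠ 0 → |t| ≤ δ → G t ≤ (Real.exp (2 * κ * (C2 + C3)) * δ ^ (2 * κ)) *
      |t| ^ (-(2 * κ)) := by
    intro t ht htδ
    have ht' : 0 < |t| := abs_pos.2 ht
    have ht1 : |t| ≤ 1 := htδ.trans hδ1
    have key : (PS x z t).re ≤ Real.log δ - Real.log |t| + (C2 + C3) := by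
      by_cases hc : |t| * Real.log x ≤ 1
      · have h3 := hP3 t x z hx3 hz ht ht1 hc
        have h4 : Real.log |t| - Real.log δ ≤ Real.log (|t| * Real.log x) := by
          rw [← Real.log_div ht'.ne' hδ.ne']
          refine Real.log_le_log (by positivity) ?_
          rw [div_le_iff₀ hδ]
          nlinarith
        linarith
      · push Not at hc
        have h3 := (Complex.re_le_norm _).trans (hP2 t x z (by omega) hz ht ht1)
        have h4 : C2 / (|t| * Real.log x) ≤ C2 := by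
          rw [div_le_iff₀ (by linarith)]
          nlinarith
        have h5 : Real.log |t| ≤ Real.log δ := Real.log_le_log ht' htδ
        linarith
    simp only [hG]
    rw [Complex.norm_exp, ← Real.exp_nat_mul, Real.rpow_def_of_pos ht', Real.rpow_def_of_pos hδ,
      ← Real.exp_add, ← Real.exp_add, Real.exp_le_exp, Complex.re_ofReal_mul]
    push_cast
    nlinarith
  have hval : Real.exp (2 * κ * (C2 + C3)) * δ ^ (2 * κ) * (δ ^ (1 - 2 * κ) / (1 - 2 * κ)) =
      Real.exp (2 * κ * (C2 + C3)) / (1 - 2 * κ) * δ := by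
    have h3 : δ ^ (2 * κ) * δ ^ (1 - 2 * κ) = δ := by
      rw [← Real.rpow_add hδ]
      have : 2 * κ + (1 - 2 * κ) = 1 := by ring
      rw [this, Real.rpow_one]
    calc _ = Real.exp (2 * κ * (C2 + C3)) * (δ ^ (2 * κ) * δ ^ (1 - 2 * κ)) / (1 - 2 * κ) := by ring
      _ = _ := by rw [h3]; ring
  have i1 : ∫ t in (0 : ℝ)..δ, G t ≤ Real.exp (2 * κ * (C2 + C3)) / (1 - 2 * κ) * δ := by
    rw [← hval]
    refine int_small hGc h0 h1 hδ fun t ht ht1 => ?_
    have := hb t ht.ne' (by rwa [abs_of_pos ht])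
    rwa [abs_of_pos ht] at this
  have i2 : ∫ t in (0 : ℝ)..δ, G (-t) ≤ Real.exp (2 * κ * (C2 + C3)) / (1 - 2 * κ) * δ := by
    rw [← hval]
    refine int_small (hGc.comp continuous_neg) h0 h1 hδ fun t ht ht1 => ?_
    have := hb (-t) (by linarith) (by rwa [abs_neg, abs_of_pos ht])
    rwa [abs_neg, abs_of_pos ht] at this
  have hi : ∀ a b : ℝ, IntervalIntegrable G volume a b := fun a b => hGc.intervalIntegrable a b
  have e1 : ∫ t in (-δ)..δ, G t = (∫ t in (-δ)..0, G t) + ∫ t in (0 : ℝ)..δ, G t :=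
    (intervalIntegral.integral_add_adjacent_intervals (hi _ _) (hi _ _)).symm
  have e3 : ∫ t in (-δ)..0, G t = ∫ t in (0 : ℝ)..δ, G (-t) := by
    rw [intervalIntegral.integral_comp_neg]
    simp
  rw [e1, e3]
  linarith

theorem exp_norm_sq (w : ℂ) : ‖Complex.exp w‖ ^ 2 = Real.exp (2 * w.re) := by
  rw [Complex.norm_exp, ← Real.exp_nat_mul]
  push_cast
  rfl

/-- Exponentials on short intervals. -/
theorem short_int {κ : ℝ} (h0 : 0 ≤ κ) (h1 : κ < 1 / 2) (M : ℝ) : ∃ C : ℝ, 0 < C ∧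
    ∀ c : ℕ → ℂ, (∀ k, k.Prime → ‖c k‖ ≤ κ) → (∀ k, ¬ k.Prime → c k = 0) →
    ∀ H : ℕ → ℝ → ℂ, (∀ x, Continuous (H x)) → (∀ x t, ‖H x t‖ ≤ M) →
    ∀ (a δ : ℝ), 0 < δ → δ ≤ 1 → ∀ z : ℕ, ⌈Real.exp (1 / δ)⌉₊ ≤ z →
      ∫ t in a..(a + δ), (pv c H z t) ^ 2 ≤
        C * Real.exp (2 * (CS c 0 ⌈Real.exp (1 / δ)⌉₊ a).re) * δ := by
  obtain ⟨C1, hC1, hm⟩ := maj_local h0 h1
  obtain ⟨C2, hC2, ho⟩ := osc
  refine ⟨Real.exp (2 * M + 2 * (κ * (2 + C2))) * (2 * C1), by positivity,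
    fun c hc hc0 H hHc hHb a δ hδ hδ1 z hz => ?_⟩
  obtain ⟨hx3, hx1, hx2⟩ := cutd hδ hδ1
  set x := ⌈Real.exp (1 / δ)⌉₊ with hx
  have hlx : 0 < Real.log x := lt_of_lt_of_le (by positivity) hx1
  have c2 := CS_continuous c 0 z
  have c3 := CS_continuous c x z
  have c5 := hHc z
  have hpt : ∀ t ∈ Set.Icc a (a + δ), (pv c H z t) ^ 2 ≤
      (Real.exp (2 * M + 2 * (κ * (2 + C2))) * Real.exp (2 * (CS c 0 x a).re)) *
        ‖Complex.exp (CS c x z t)‖ ^ 2 := by
    intro t ht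
    unfold pv
    rw [exp_norm_sq, exp_norm_sq, ← Real.exp_add, ← Real.exp_add, Real.exp_le_exp,
      ← CS_add c t (Nat.zero_le x) hz, Complex.add_re, Complex.add_re]
    have e1 := (Complex.re_le_norm (H z t)).trans (hHb z t)
    have e2 := ho κ c h0 hc hc0 x t a (by omega)
    have e3 := Complex.re_le_norm (CS c 0 x t - CS c 0 x a)
    rw [Complex.sub_re] at e3
    have e4 : |t - a| ≤ δ := by
      rw [abs_of_nonneg (by linarith [ht.1])]
      linarith [ht.2]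
    have e5 : |t - a| * (Real.log x + C2) ≤ 2 + C2 := by
      calc |t - a| * (Real.log x + C2) ≤ δ * (Real.log x + C2) := by gcongr
        _ ≤ δ * (1 / δ + 1 + C2) := by gcongr
        _ = 1 + δ * (1 + C2) := by field_simp; ring
        _ ≤ 1 + 1 * (1 + C2) := by gcongr
        _ = 2 + C2 := by ring
    have e6 : κ * (|t - a| * (Real.log x + C2)) ≤ κ * (2 + C2) := by gcongr
    linarith
  have h2 : ∫ t in a..(a + δ), (pv c H z t) ^ 2 ≤ ∫ t in a..(a + δ),
      (Real.exp (2 * M + 2 * (κ * (2 + C2))) * Real.exp (2 * (CS c 0 x a).re)) *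
        ‖Complex.exp (CS c x z t)‖ ^ 2 := by
    refine intervalIntegral.integral_mono_on (by linarith) ?_ ?_ hpt
    · apply Continuous.intervalIntegrable
      unfold pv
      fun_prop
    · apply Continuous.intervalIntegrable
      fun_prop
  refine h2.trans ?_
  rw [intervalIntegral.integral_const_mul]
  have h3 := (dom_CS h0 hc hc0 x z).exp.maj a hδ
  have h4 := hm δ hδ hδ1 z hz
  calc Real.exp (2 * M + 2 * (κ * (2 + C2))) * Real.exp (2 * (CS c 0 x a).re) *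
        ∫ t in a..(a + δ), ‖Complex.exp (CS c x z t)‖ ^ 2
      ≤ Real.exp (2 * M + 2 * (κ * (2 + C2))) * Real.exp (2 * (CS c 0 x a).re) *
        (2 * (C1 * δ)) := by
        refine mul_le_mul_of_nonneg_left ?_ (by positivity)
        exact h3.trans (by linarith)
    _ = _ := by ring

theorem pv_neg (c : ℕ → ℂ) (H : ℕ → ℝ → ℂ) (x : ℕ) (t : ℝ) :
    pv (fun k => -c k) (fun y s => -H y s) x t = (pv c H x t)⁻¹ := by
  unfold pv
  rw [← norm_inv, ← Complex.exp_neg]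
  congr 2
  unfold CS
  rw [neg_add, ← Finset.sum_neg_distrib]
  congr 1
  exact Finset.sum_congr rfl fun k _ => by ring

/-- Both exponentials on an arbitrary interval. -/
theorem any_int {κ : ℝ} (h0 : 0 ≤ κ) (h1 : κ < 1 / 2) (M : ℝ) : ∃ C : ℝ, 0 < C ∧
    ∀ c : ℕ → ℂ, (∀ k, k.Prime → ‖c k‖ ≤ κ) → (∀ k, ¬ k.Prime → c k = 0) →
    ∀ H : ℕ → ℝ → ℂ, (∀ x, Continuous (H x)) → (∀ x t, ‖H x t‖ ≤ M) →
    ∀ a b : ℝ, a < b → ∃ (w : ℝ) (Z : ℕ), 0 < w ∧ ∀ z : ℕ, Z ≤ z →
      (∫ t in a..b, (pv c H z t) ^ 2 ≤ C * w * (b - a)) ∧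
      ∫ t in a..b, ((pv c H z t)⁻¹) ^ 2 ≤ C * w⁻¹ * (b - a) := by
  obtain ⟨C1, hC1, hs⟩ := short_int h0 h1 M
  obtain ⟨C2, hC2, hb⟩ := core_bd h0 h1 (M := M)
  refine ⟨C1 + 2 * C2, by positivity, fun c hc hc0 H hHc hHb a b hab => ?_⟩
  have hc' : ∀ k, k.Prime → ‖-c k‖ ≤ κ := fun k hk => by
    rw [norm_neg]
    exact hc k hk
  have hc0' : ∀ k, ¬ k.Prime → -c k = 0 := fun k hk => by rw [hc0 k hk, neg_zero]
  have hHc' : ∀ x, Continuous (fun s => -H x s) := fun x => (hHc x).neg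
  have hHb' : ∀ x t, ‖-H x t‖ ≤ M := fun x t => by
    rw [norm_neg]
    exact hHb x t
  by_cases hlen : b - a ≤ 1
  · set δ := b - a with hδ
    have hδ0 : 0 < δ := by linarith
    refine ⟨Real.exp (2 * (CS c 0 ⌈Real.exp (1 / δ)⌉₊ a).re), ⌈Real.exp (1 / δ)⌉₊,
      Real.exp_pos _, fun z hz => ⟨?_, ?_⟩⟩
    · have h2 := hs c hc hc0 H hHc hHb a δ hδ0 hlen z hz
      have e : a + δ = b := by rw [hδ]; ring
      rw [e] at h2
      refine h2.trans ?_
      gcongr
      linarith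
    · have h2 := hs _ hc' hc0' _ hHc' hHb' a δ hδ0 hlen z hz
      have e : a + δ = b := by rw [hδ]; ring
      rw [e] at h2
      simp_rw [pv_neg] at h2
      have e2 : (CS (fun k => -c k) 0 ⌈Real.exp (1 / δ)⌉₊ a).re =
          -(CS c 0 ⌈Real.exp (1 / δ)⌉₊ a).re := by
        rw [← Complex.neg_re]
        congr 1
        unfold CS
        rw [← Finset.sum_neg_distrib]
        exact Finset.sum_congr rfl fun k _ => by ring
      rw [e2, mul_neg, Real.exp_neg] at h2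
      refine h2.trans ?_
      gcongr
      linarith
  · push Not at hlen
    -- long intervals
    have hlong : ∀ g : ℝ → ℝ, Continuous g → (∀ t, 0 ≤ g t) →
        (∀ a : ℝ, ∫ t in a..(a + 1), g t ≤ C2) → ∫ t in a..b, g t ≤ 2 * C2 * (b - a) := by
      intro g hg hg0 hgb
      set n := ⌈b - a⌉₊ with hn
      have hn1 : b - a ≤ n := Nat.le_ceil _
      have hn2 : (n : ℝ) < b - a + 1 := Nat.ceil_lt_add_one (by linarith)
      have h2 : ∫ t in a..b, g t ≤ ∫ t in a..(a + n), g t :=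
        intervalIntegral.integral_mono_interval le_rfl hab.le (by linarith)
          (Eventually.of_forall hg0) (hg.intervalIntegrable _ _)
      have h3 : ∫ t in a..(a + n), g t = ∑ i ∈ range n, ∫ t in (a + (i : ℕ))..(a + ((i + 1 : ℕ) : ℝ)), g t := by
        have := intervalIntegral.sum_integral_adjacent_intervals (f := g) (μ := volume)
          (a := fun i : ℕ => a + (i : ℝ)) (n := n) (fun k _ => hg.intervalIntegrable _ _)
        simp only [Nat.cast_zero, add_zero] at this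
        rw [← this]
      have h4 : ∀ i ∈ range n, ∫ t in (a + (i : ℕ))..(a + ((i + 1 : ℕ) : ℝ)), g t ≤ C2 := by
        intro i _
        have := hgb (a + i)
        have e : a + (i : ℝ) + 1 = a + ((i + 1 : ℕ) : ℝ) := by push_cast; ring
        rwa [e] at this
      rw [h3] at h2
      refine h2.trans ((Finset.sum_le_sum h4).trans ?_)
      rw [Finset.sum_const, card_range, nsmul_eq_mul]
      have : (n : ℝ) ≤ 2 * (b - a) := by linarith
      nlinarith
    refine ⟨1, 3, one_pos, fun z hz => ⟨?_, ?_⟩⟩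
    · refine (hlong _ ?_ (fun t => by positivity) fun a => hb c hc hc0 H hHc hHb z a hz).trans ?_
      · have c2 := CS_continuous c 0 z
        have c5 := hHc z
        unfold pv
        fun_prop
      · rw [mul_one]
        have : 0 < b - a := by linarith
        gcongr
        linarith
    · refine (hlong _ ?_ (fun t => by positivity) fun a => ?_).trans ?_
      · have c2 := CS_continuous c 0 z
        have c5 := hHc z
        simp_rw [← pv_neg]
        have c2' := CS_continuous (fun k => -c k) 0 z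
        unfold pv
        fun_prop
      · have := hb _ hc' hc0' _ hHc' hHb' z a hz
        simp_rw [pv_neg] at this
        exact this
      · rw [inv_one, mul_one]
        have : 0 < b - a := by linarith
        gcongr
        linarith

end Pool.Agent.Q255.SA
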