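import Pool.Agent.W350.EdgeEC
import Pool.Agent.Q255.SA.Core

/-! # Uniform bounds for the Euler factors of elliptic curves at all places -/

set_option autoImplicit false

namespace Pool.Agent.Q255.SA

open NumberField IsDedekindDomain Polynomial Pool.Agent.H921R2.TatePole
  Pool.Agent.H341R2 Pool.Agent.H341R2.EC Pool.Agent.W350.EdgeEC Pool.Agent.W350.EdgeNF
  Pool.Agent.W350.EdgeV

section
variable {k : Type*} [Field k] [Fintype k] [DecidableEq k]

/-- The character sum of a degenerate cubic. -/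
theorem csum_degenerate (h6 : (6 : k) ≠ 0) {c c' : k} (h : c ^ 3 - c' ^ 2 = 0) :
    |(csum c c' : ℝ)| ≤ 1 := by
  have h2 : (2 : k) ≠ 0 := by
    intro h; apply h6
    have : (6 : k) = 3 * 2 := by norm_num
    rw [this, h, mul_zero]
  have hk : ringChar k ≠ 2 := by
    intro h
    apply h2
    have := ringChar.Nat.cast_ringChar (R := k)
    rw [h] at this
    exact_mod_cast this
  obtain ⟨t, ht1, ht2⟩ : ∃ t : k, c = t ^ 2 ∧ c' = t ^ 3 := by
    by_cases hc : c = 0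
    · refine ⟨0, by rw [hc]; ring, ?_⟩
      rw [hc] at h
      have : c' ^ 2 = 0 := by linear_combination -h
      rw [pow_eq_zero_iff (by norm_num)] at this
      rw [this]
      ring
    · refine ⟨c' / c, ?_, ?_⟩
      · field_simp
        linear_combination h
      · field_simp
        linear_combination c' * h
  have key : ∀ x : k, quadraticChar k ((cub c c').eval x) =
      quadraticChar k (x - 6 * t) - (if x = -(3 * t) then quadraticChar k (-(9 * t)) else 0) := by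
    intro x
    rw [cub_eval, ht1, ht2]
    have e1 : x ^ 3 - 27 * t ^ 2 * x - 54 * t ^ 3 = (x + 3 * t) ^ 2 * (x - 6 * t) := by ring
    rw [e1, map_mul]
    split_ifs with hx
    · rw [hx]
      have e2 : -(3 * t) + 3 * t = 0 := by ring
      have e3 : -(3 * t) - 6 * t = -(9 * t) := by ring
      rw [e2, e3]
      simp
    · have e2 : x + 3 * t ≠ 0 := fun h => hx (by linear_combination h)
      rw [quadraticChar_sq_one' e2]
      ring
  have h3 : csum c c' = -quadraticChar k (-(9 * t)) := by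
    unfold csum
    rw [Finset.sum_congr rfl fun x _ => key x, Finset.sum_sub_distrib,
      Finset.sum_ite_eq' Finset.univ (-(3 * t)), if_pos (Finset.mem_univ _)]
    have e4 : ∑ x : k, quadraticChar k (x - 6 * t) = 0 := by
      rw [← quadraticChar_sum_zero hk]
      exact Fintype.sum_equiv (Equiv.subRight (6 * t)) _ _ fun x => rfl
    rw [e4]
    ring
  rw [h3]
  push_cast
  rw [abs_neg]
  by_cases h0 : -(9 * t) = 0
  · rw [h0]
    simp
  · rcases quadraticChar_dichotomy h0 with h | h <;> simp [h]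

end

variable {K : Type} [Field K] [NumberField K]

theorem trc_eq (W : HeightOneSpectrum (𝓞 K) → WeierstrassCurve (𝓞 K))
    (v : HeightOneSpectrum (𝓞 K)) (h6 : (6 : 𝓞 K) ∉ v.asIdeal) :
    trc W v = -csum (red v (W v)).c₄ (red v (W v)).c₆ := by
  have h6' : (6 : 𝓞 K ⧸ v.asIdeal) ≠ 0 := by
    have := mk_ne h6
    rwa [map_ofNat] at this
  have h1 := aff_eq_short h6' (red v (W v))
  have h2 := short_eq h6' (red v (W v)).c₄ (red v (W v)).c₆
  rw [card_v] at h2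
  unfold trc csum
  rw [h1, h2]
  ring

/-- Hasse's bound at every place prime to `6`, whatever the reduction. -/
theorem trc_bound (W : HeightOneSpectrum (𝓞 K) → WeierstrassCurve (𝓞 K))
    (v : HeightOneSpectrum (𝓞 K)) (h6 : (6 : 𝓞 K) ∉ v.asIdeal) :
    |(trc W v : ℝ)| ≤ 2 * Real.sqrt (nm v) := by
  have h6' : (6 : 𝓞 K ⧸ v.asIdeal) ≠ 0 := by
    have := mk_ne h6
    rwa [map_ofNat] at this
  rw [trc_eq W v h6]
  push_cast
  rw [abs_neg]
  by_cases h : (red v (W v)).c₄ ^ 3 - (red v (W v)).c₆ ^ 2 = 0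
  · refine (csum_degenerate h6' h).trans ?_
    have h5 : (1 : ℝ) ≤ nm v := by
      have := five_le_v h6
      exact_mod_cast (by omega : 1 ≤ nm v)
    have : 1 ≤ Real.sqrt (nm v) := by
      rw [Real.one_le_sqrt]
      exact h5
    linarith
  · have := csum_bound h6' h
    rwa [card_v] at this

theorem nm_le_of_six {v : HeightOneSpectrum (𝓞 K)} (h6 : (6 : 𝓞 K) ∈ v.asIdeal) :
    nm v ≤ 6 ^ Module.finrank ℚ K := by
  have h1 : Ideal.span {((6 : ℕ) : 𝓞 K)} ≤ v.asIdeal := by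
    rw [Ideal.span_singleton_le_iff_mem]
    exact_mod_cast h6
  have h2 := Ideal.absNorm_dvd_absNorm_of_le h1
  rw [Ideal.absNorm_span_natCast, RingOfIntegers.rank] at h2
  exact Nat.le_of_dvd (by positivity) h2

open Classical in
/-- The normalised traces, `0` above `6`. -/
noncomputable def cv (W : HeightOneSpectrum (𝓞 K) → WeierstrassCurve (𝓞 K))
    (v : HeightOneSpectrum (𝓞 K)) : ℂ :=
  if (6 : 𝓞 K) ∈ v.asIdeal then 0 else (((trc W v : ℝ) / Real.sqrt (nm v) : ℝ) : ℂ)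

theorem norm_cv (W : HeightOneSpectrum (𝓞 K) → WeierstrassCurve (𝓞 K))
    (v : HeightOneSpectrum (𝓞 K)) : ‖cv W v‖ ≤ 2 := by
  unfold cv
  split_ifs with h
  · simp
  · have hs : 0 < Real.sqrt (nm v) := Real.sqrt_pos.2 (nm_pos v)
    rw [Complex.norm_real, Real.norm_eq_abs, abs_div, abs_of_pos hs, div_le_iff₀ hs]
    exact trc_bound W v h

open Classical in
/-- `1 - L_v(q^{-s})`. -/
noncomputable def wv (W : HeightOneSpectrum (𝓞 K) → WeierstrassCurve (𝓞 K))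
    (v : HeightOneSpectrum (𝓞 K)) (s : ℂ) : ℂ :=
  (trc W v : ℂ) * (nm v : ℂ) ^ (-s) -
    (if (W v).Δ ∈ v.asIdeal then 0 else (nm v : ℂ)) * (nm v : ℂ) ^ (-2 * s)

theorem lf_eq (W : HeightOneSpectrum (𝓞 K) → WeierstrassCurve (𝓞 K))
    (v : HeightOneSpectrum (𝓞 K)) (s : ℂ) : lf W v s = (1 - wv W v s)⁻¹ := by
  unfold lf wv
  congr 1
  ring

/-- the edge point -/
noncomputable def ep (τ : ℝ) : ℂ := ((3 / 2 : ℝ) : ℂ) + (τ : ℂ) * Complex.I

theorem ep_re (τ : ℝ) : (ep τ).re = 3 / 2 := by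
  unfold ep
  simp

theorem norm_cpow_ep (v : HeightOneSpectrum (𝓞 K)) (τ : ℝ) :
    ‖(nm v : ℂ) ^ (-ep τ)‖ = (nm v : ℝ) ^ (-(3 / 2) : ℝ) := by
  rw [Complex.norm_natCast_cpow_of_pos (hN v), Complex.neg_re, ep_re]

open Classical in
theorem second_le (W : HeightOneSpectrum (𝓞 K) → WeierstrassCurve (𝓞 K))
    (v : HeightOneSpectrum (𝓞 K)) (τ : ℝ) :
    ‖(if (W v).Δ ∈ v.asIdeal then 0 else (nm v : ℂ)) * (nm v : ℂ) ^ (-2 * ep τ)‖ ≤
      (nm v : ℝ) ^ (-2 : ℝ) := by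
  have h0 := nm_pos v
  split_ifs
  · rw [zero_mul, norm_zero]
    positivity
  · exact norm_second v (by rw [ep_re])

theorem norm_wv_good {W : HeightOneSpectrum (𝓞 K) → WeierstrassCurve (𝓞 K)}
    {v : HeightOneSpectrum (𝓞 K)} (h6 : (6 : 𝓞 K) ∉ v.asIdeal) (τ : ℝ) :
    ‖wv W v (ep τ)‖ ≤ 11 / 5 / nm v ∧ ‖wv W v (ep τ)‖ ≤ 11 / 25 := by
  have h5 : (5 : ℝ) ≤ nm v := by exact_mod_cast five_le_v h6
  have h0 := nm_pos v
  have h1 : ‖(trc W v : ℂ) * (nm v : ℂ) ^ (-ep τ)‖ ≤ 2 / nm v := by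
    rw [norm_mul, norm_cpow_ep, Complex.norm_intCast]
    have h3 : Real.sqrt (nm v) * (nm v : ℝ) ^ (-(3 / 2) : ℝ) = 1 / nm v := by
      have h4 : (1 / 2 + -(3 / 2) : ℝ) = -1 := by norm_num
      rw [Real.sqrt_eq_rpow, ← Real.rpow_add h0, h4, Real.rpow_neg_one, one_div]
    calc |(trc W v : ℝ)| * (nm v : ℝ) ^ (-(3 / 2) : ℝ)
        ≤ (2 * Real.sqrt (nm v)) * (nm v : ℝ) ^ (-(3 / 2) : ℝ) :=
          mul_le_mul_of_nonneg_right (trc_bound W v h6) (by positivity)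
      _ = 2 * (Real.sqrt (nm v) * (nm v : ℝ) ^ (-(3 / 2) : ℝ)) := by ring
      _ = 2 / nm v := by rw [h3]; ring
  have h2 := second_le W v τ
  have h3 : (nm v : ℝ) ^ (-2 : ℝ) ≤ 1 / 5 / nm v := by
    rw [Real.rpow_neg h0.le, Real.rpow_two, ← one_div, div_div, div_le_div_iff₀ (by positivity)
      (by positivity)]
    nlinarith
  have h4 : ‖wv W v (ep τ)‖ ≤ 11 / 5 / nm v := by
    unfold wv
    refine (norm_sub_le _ _).trans ((add_le_add h1 (h2.trans h3)).trans (le_of_eq ?_))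
    ring
  refine ⟨h4, h4.trans ?_⟩
  rw [div_le_iff₀ h0]
  linarith

theorem norm_wv_all (W : HeightOneSpectrum (𝓞 K) → WeierstrassCurve (𝓞 K))
    (v : HeightOneSpectrum (𝓞 K)) (τ : ℝ) : ‖wv W v (ep τ)‖ ≤ 24 / 25 := by
  have h0 := nm_pos v
  have h2 : (2 : ℝ) ≤ nm v := by exact_mod_cast two_le_nm v
  have h1 : ‖(trc W v : ℂ) * (nm v : ℂ) ^ (-ep τ)‖ ≤ (2 : ℝ) ^ (-(1 / 2) : ℝ) := by
    rw [norm_mul, norm_cpow_ep, Complex.norm_intCast]
    have h3 : |(trc W v : ℝ)| ≤ nm v := by exact_mod_cast trc_le W v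
    calc |(trc W v : ℝ)| * (nm v : ℝ) ^ (-(3 / 2) : ℝ)
        ≤ (nm v : ℝ) * (nm v : ℝ) ^ (-(3 / 2) : ℝ) :=
          mul_le_mul_of_nonneg_right h3 (by positivity)
      _ = (nm v : ℝ) ^ (-(1 / 2) : ℝ) := by
          nth_rewrite 1 [← Real.rpow_one (nm v : ℝ)]
          rw [← Real.rpow_add h0]
          norm_num
      _ ≤ _ := Real.rpow_le_rpow_of_nonpos (by norm_num) h2 (by norm_num)
  have h3 : (nm v : ℝ) ^ (-2 : ℝ) ≤ 1 / 4 := by
    calc (nm v : ℝ) ^ (-2 : ℝ) ≤ (2 : ℝ) ^ (-2 : ℝ) :=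
        Real.rpow_le_rpow_of_nonpos (by norm_num) h2 (by norm_num)
      _ = 1 / 4 := by
        rw [Real.rpow_neg (by norm_num), Real.rpow_two]
        norm_num
  have h4 : (2 : ℝ) ^ (-(1 / 2) : ℝ) ≤ 71 / 100 := by
    rw [Real.rpow_neg (by norm_num), ← Real.sqrt_eq_rpow]
    rw [inv_le_comm₀ (by positivity) (by norm_num)]
    refine Real.le_sqrt_of_sq_le ?_
    norm_num
  unfold wv
  refine (norm_sub_le _ _).trans ((add_le_add (h1.trans h4) ((second_le W v τ).trans h3)).trans ?_)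
  norm_num

/-- The remainder of the logarithm of the Euler factor. -/
noncomputable def rv (W : HeightOneSpectrum (𝓞 K) → WeierstrassCurve (𝓞 K))
    (v : HeightOneSpectrum (𝓞 K)) (τ : ℝ) : ℂ :=
  -Complex.log (1 - wv W v (ep τ)) - cv W v * (ee τ (nm v) / (nm v : ℂ))

theorem one_sub_ne {w : ℂ} (h : ‖w‖ < 1) : 1 - w ≠ 0 := by
  intro h1
  have : w = 1 := (sub_eq_zero.1 h1).symm
  rw [this, norm_one] at h
  exact lt_irrefl _ h

theorem lf_exp (W : HeightOneSpectrum (𝓞 K) → WeierstrassCurve (𝓞 K))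
    (v : HeightOneSpectrum (𝓞 K)) (τ : ℝ) :
    lf W v (ep τ) = Complex.exp (cv W v * (ee τ (nm v) / (nm v : ℂ)) + rv W v τ) := by
  have h1 := norm_wv_all W v τ
  have h2 : 1 - wv W v (ep τ) ≠ 0 := one_sub_ne (by linarith)
  rw [lf_eq, rv, add_sub_cancel, Complex.exp_neg, Complex.exp_log h2]

theorem norm_log_sub {w : ℂ} (h : ‖w‖ < 1) :
    ‖-Complex.log (1 - w) - w‖ ≤ ‖w‖ ^ 2 * (1 - ‖w‖)⁻¹ / 2 := by
  have h3 : ‖-w‖ < 1 := by rwa [norm_neg]
  have h4 := Complex.norm_log_one_add_sub_self_le h3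
  rw [norm_neg] at h4
  have e : -Complex.log (1 - w) - w = -(Complex.log (1 + -w) - -w) := by
    rw [sub_eq_add_neg 1 w]
    ring
  rw [e, norm_neg]
  exact h4

theorem first_cv {W : HeightOneSpectrum (𝓞 K) → WeierstrassCurve (𝓞 K)}
    {v : HeightOneSpectrum (𝓞 K)} (h6 : (6 : 𝓞 K) ∉ v.asIdeal) (τ : ℝ) :
    cv W v * (ee τ (nm v) / (nm v : ℂ)) = (trc W v : ℂ) * (nm v : ℂ) ^ (-ep τ) := by
  have h0 := nm_pos v
  have hlog : Complex.log (nm v : ℂ) = ((Real.log (nm v) : ℝ) : ℂ) := by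
    rw [← Complex.ofReal_natCast, Complex.ofReal_log h0.le]
  have h1 : (nm v : ℂ) = Complex.exp ((Real.log (nm v) : ℝ) : ℂ) := by
    rw [← Complex.ofReal_exp, Real.exp_log h0, Complex.ofReal_natCast]
  have h2 : ((Real.sqrt (nm v) : ℝ) : ℂ) = Complex.exp ((Real.log (nm v) / 2 : ℝ) : ℂ) := by
    rw [← Complex.ofReal_exp, Real.sqrt_eq_rpow, Real.rpow_def_of_pos h0]
    congr 2
    ring
  unfold cv ee ep
  rw [if_neg h6, Complex.cpow_def_of_ne_zero (nmC_ne v), hlog]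
  push_cast
  rw [h2]
  have h3 : Complex.exp (-((τ : ℂ) * (Real.log (nm v) : ℂ)) * Complex.I) / (nm v : ℂ) =
      Complex.exp (-((τ : ℂ) * (Real.log (nm v) : ℂ)) * Complex.I) *
        Complex.exp (-((Real.log (nm v) : ℝ) : ℂ)) := by
    rw [Complex.exp_neg ((Real.log (nm v) : ℝ) : ℂ), ← h1, div_eq_mul_inv]
  rw [← Complex.ofReal_natCast] at *
  rw [Complex.ofReal_log h0.le] at *
  rw [h3, div_eq_mul_inv, ← Complex.exp_neg, mul_assoc, ← Complex.exp_add, ← Complex.exp_add]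
  congr 2
  push_cast
  ring

open Classical in
theorem norm_rv_good {W : HeightOneSpectrum (𝓞 K) → WeierstrassCurve (𝓞 K)}
    {v : HeightOneSpectrum (𝓞 K)} (h6 : (6 : 𝓞 K) ∉ v.asIdeal) (τ : ℝ) :
    ‖rv W v τ‖ ≤ 6 * (nm v : ℝ) ^ (-2 : ℝ) := by
  have h0 := nm_pos v
  obtain ⟨h1, h2⟩ := norm_wv_good (W := W) h6 τ
  have h3 := norm_log_sub (w := wv W v (ep τ)) (by linarith)
  have h5 : rv W v τ = (-Complex.log (1 - wv W v (ep τ)) - wv W v (ep τ)) -
      (if (W v).Δ ∈ v.asIdeal then 0 else (nm v : ℂ)) * (nm v : ℂ) ^ (-2 * ep τ) := by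
    rw [rv, first_cv h6]
    unfold wv
    ring
  rw [h5]
  refine (norm_sub_le _ _).trans ?_
  have h6 : ‖wv W v (ep τ)‖ ^ 2 * (1 - ‖wv W v (ep τ)‖)⁻¹ / 2 ≤ 5 * (nm v : ℝ) ^ (-2 : ℝ) := by
    have h7 : (1 - ‖wv W v (ep τ)‖)⁻¹ ≤ 2 := by
      rw [inv_le_comm₀ (by linarith) (by norm_num)]
      linarith
    have h8 : ‖wv W v (ep τ)‖ ^ 2 ≤ (11 / 5 / nm v) ^ 2 := pow_le_pow_left₀ (norm_nonneg _) h1 2
    have h9 : (11 / 5 / (nm v : ℝ)) ^ 2 = 121 / 25 * (nm v : ℝ) ^ (-2 : ℝ) := by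
      rw [Real.rpow_neg h0.le, Real.rpow_two]
      ring_nf
    have h10 : 0 < (1 - ‖wv W v (ep τ)‖)⁻¹ := inv_pos.2 (by linarith)
    have h11 : 0 < (nm v : ℝ) ^ (-2 : ℝ) := by positivity
    calc ‖wv W v (ep τ)‖ ^ 2 * (1 - ‖wv W v (ep τ)‖)⁻¹ / 2
        ≤ (121 / 25 * (nm v : ℝ) ^ (-2 : ℝ)) * 2 / 2 := by
          rw [← h9]
          have := mul_le_mul h8 h7 h10.le (by positivity)
          linarith
      _ ≤ _ := by linarith
  have h12 := second_le W v τ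
  linarith

theorem norm_rv_six {W : HeightOneSpectrum (𝓞 K) → WeierstrassCurve (𝓞 K)}
    {v : HeightOneSpectrum (𝓞 K)} (h6 : (6 : 𝓞 K) ∈ v.asIdeal) (τ : ℝ) :
    ‖rv W v τ‖ ≤ 13 := by
  have h1 := norm_wv_all W v τ
  have h2 := norm_log_sub (w := wv W v (ep τ)) (by linarith)
  have h3 : rv W v τ = (-Complex.log (1 - wv W v (ep τ)) - wv W v (ep τ)) + wv W v (ep τ) := by
    unfold rv cv
    rw [if_pos h6]
    ring
  rw [h3]
  refine (norm_add_le _ _).trans ?_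
  have h7 : (1 - ‖wv W v (ep τ)‖)⁻¹ ≤ 25 := by
    rw [inv_le_comm₀ (by linarith) (by norm_num)]
    linarith
  have h8 : ‖wv W v (ep τ)‖ ^ 2 ≤ 24 / 25 := by nlinarith [norm_nonneg (wv W v (ep τ))]
  have h10 : 0 < (1 - ‖wv W v (ep τ)‖)⁻¹ := inv_pos.2 (by linarith)
  have h9 := mul_le_mul h8 h7 h10.le (by norm_num)
  linarith

theorem norm_rv (W : HeightOneSpectrum (𝓞 K) → WeierstrassCurve (𝓞 K))
    (v : HeightOneSpectrum (𝓞 K)) (τ : ℝ) :
    ‖rv W v τ‖ ≤ 13 * 36 ^ Module.finrank ℚ K * (nm v : ℝ) ^ (-2 : ℝ) := by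
  have h0 := nm_pos v
  by_cases h6 : (6 : 𝓞 K) ∈ v.asIdeal
  · refine (norm_rv_six h6 τ).trans ?_
    have h1 : (nm v : ℝ) ≤ 6 ^ Module.finrank ℚ K := by exact_mod_cast nm_le_of_six h6
    have h2 : (nm v : ℝ) ^ 2 ≤ 36 ^ Module.finrank ℚ K := by
      calc (nm v : ℝ) ^ 2 ≤ (6 ^ Module.finrank ℚ K) ^ 2 := pow_le_pow_left₀ h0.le h1 2
        _ = 36 ^ Module.finrank ℚ K := by
          rw [← pow_mul, mul_comm, pow_mul]
          norm_num
    rw [Real.rpow_neg h0.le, Real.rpow_two, ← div_eq_mul_inv, le_div_iff₀ (by positivity)]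
    nlinarith
  · refine (norm_rv_good h6 τ).trans ?_
    have h1 : (1 : ℝ) ≤ 36 ^ Module.finrank ℚ K := one_le_pow₀ (by norm_num)
    refine mul_le_mul_of_nonneg_right ?_ (by positivity)
    nlinarith

theorem rv_continuous (W : HeightOneSpectrum (𝓞 K) → WeierstrassCurve (𝓞 K))
    (v : HeightOneSpectrum (𝓞 K)) : Continuous (rv W v) := by
  have hep : Continuous ep := by
    unfold ep
    fun_prop
  have h1 : Continuous fun τ => wv W v (ep τ) := by
    unfold wv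
    exact (continuous_const.mul ((continuous_cpow v).comp hep)).sub
      (continuous_const.mul ((continuous_cpow2 v).comp hep))
  unfold rv
  refine (Continuous.neg ?_).sub ?_
  · refine (continuous_const.sub h1).clog fun τ => Or.inl ?_
    show 0 < (1 - wv W v (ep τ)).re
    have h3 := norm_wv_all W v τ
    have h4 := Complex.re_le_norm (wv W v (ep τ))
    rw [Complex.sub_re, Complex.one_re]
    linarith
  · unfold ee
    fun_prop

end Pool.Agent.Q255.SA
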