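import Mathlib
import Pool.Agent.H442R2.EHI.PntErr

/-! # Sums over primes of `p^(-1-it)` for small `t` -/

set_option autoImplicit false

namespace Pool.Agent.Q255.SA

open Finset MeasureTheory Filter Topology

theorem theta_err : ∃ C : ℝ, 0 < C ∧ ∀ t : ℝ, 2 ≤ t →
    |Chebyshev.theta t - t| ≤ C * (t / Real.log t ^ 2) := by
  obtain ⟨C, hC, h⟩ := Pool.Agent.H442R2.EHI.PntErrAux.thetaU 2
  refine ⟨4 * C + 4, by positivity, fun t ht => ?_⟩
  have ht0 : 0 < t := by linarith
  set N := ⌊t⌋₊ with hN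
  have hN1 : (N : ℝ) ≤ t := Nat.floor_le ht0.le
  have hN2 : t < N + 1 := Nat.lt_floor_add_one t
  have hN3 : 2 ≤ N := Nat.le_floor (by norm_num; linarith)
  have hN4 : (2 : ℝ) ≤ N := by exact_mod_cast hN3
  have hth : Chebyshev.theta t = Chebyshev.theta N := Chebyshev.theta_eq_theta_coe_floor t
  have h1 := h N hN3
  have hl2 : 0 < Real.log 2 := Real.log_pos (by norm_num)
  have hlN : Real.log 2 ≤ Real.log N := Real.log_le_log (by norm_num) hN4
  have hlN0 : 0 < Real.log N := hl2.trans_le hlN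
  have hlt : 0 < Real.log t := Real.log_pos (by linarith)
  have hlogN : Real.log t ≤ 2 * Real.log N := by
    have h2 : t ≤ 2 * N := by linarith
    have h3 : Real.log t ≤ Real.log (2 * N) := Real.log_le_log ht0 h2
    rw [Real.log_mul (by norm_num) (by positivity)] at h3
    linarith
  have h2 : C * (N / Real.log N ^ 2) ≤ 4 * C * (t / Real.log t ^ 2) := by
    have h3 : Real.log t ^ 2 ≤ 4 * Real.log N ^ 2 := by nlinarith
    have h4 : (N : ℝ) / Real.log N ^ 2 ≤ 4 * (t / Real.log t ^ 2) := by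
      rw [← mul_div_assoc, div_le_div_iff₀ (by positivity) (by positivity)]
      nlinarith [mul_le_mul hN1 h3 (by positivity) ht0.le]
    calc C * (N / Real.log N ^ 2) ≤ C * (4 * (t / Real.log t ^ 2)) := by gcongr
      _ = _ := by ring
  have h3 : 1 ≤ 4 * (t / Real.log t ^ 2) := by
    have h5 : Real.log t ≤ 2 * Real.sqrt t := by
      have h6 := Real.log_le_sub_one_of_pos (Real.sqrt_pos.2 ht0)
      rw [Real.log_sqrt ht0.le] at h6
      linarith
    have h7 : Real.log t ^ 2 ≤ 4 * t := by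
      have := Real.sq_sqrt ht0.le
      nlinarith [Real.sqrt_nonneg t]
    rw [← mul_div_assoc, le_div_iff₀ (by positivity)]
    linarith
  have e : Chebyshev.theta t - t = (Chebyshev.theta N - N) + ((N : ℝ) - t) := by rw [hth]; ring
  rw [e]
  refine (abs_add_le _ _).trans ?_
  have : |(N : ℝ) - t| ≤ 1 := abs_le.2 ⟨by linarith, by linarith⟩
  calc |Chebyshev.theta N - N| + |(N : ℝ) - t| ≤ 4 * C * (t / Real.log t ^ 2) +
        4 * (t / Real.log t ^ 2) := by linarith
    _ = _ := by ring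

/-- `e^{-it log u}` -/
noncomputable def ee (t u : ℝ) : ℂ := Complex.exp (-(t * Real.log u : ℝ) * Complex.I)

theorem norm_ee (t u : ℝ) : ‖ee t u‖ = 1 := by
  unfold ee
  rw [← Complex.ofReal_neg, Complex.norm_exp_ofReal_mul_I]

/-- the summand -/
noncomputable def ff (t u : ℝ) : ℂ := ee t u * ((1 / (u * Real.log u) : ℝ) : ℂ)

/-- its derivative -/
noncomputable def ff' (t u : ℝ) : ℂ :=
  -(ee t u * ((1 / (u ^ 2 * Real.log u) : ℝ) : ℂ) * (t * Complex.I + ((1 + 1 / Real.log u : ℝ) : ℂ)))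

theorem hasDeriv_ee (t : ℝ) {u : ℝ} (hu : 2 ≤ u) :
    HasDerivAt (ee t) (-(ee t u * ((t / u : ℝ) : ℂ) * Complex.I)) u := by
  have h1 : HasDerivAt (fun u : ℝ => (-(t * Real.log u : ℝ) * Complex.I : ℂ))
      (-((t * u⁻¹ : ℝ) : ℂ) * Complex.I) u := by
    have := ((Real.hasDerivAt_log (by linarith : u ≠ 0)).const_mul t).ofReal_comp.neg.mul_const
      Complex.I
    simpa using this
  have h2 := h1.cexp
  unfold ee
  convert h2 using 1
  push_cast
  ring

theorem hasDeriv_inv {u : ℝ} (hu : 2 ≤ u) :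
    HasDerivAt (fun u : ℝ => ((1 / Real.log u : ℝ) : ℂ))
      (-((1 / (u * Real.log u ^ 2) : ℝ) : ℂ)) u := by
  have hl : Real.log u ≠ 0 := (Real.log_pos (by linarith)).ne'
  have h1 := ((Real.hasDerivAt_log (by linarith : u ≠ 0)).inv hl).ofReal_comp
  have e1 : (fun u : ℝ => ((1 / Real.log u : ℝ) : ℂ)) = fun u : ℝ => (((Real.log u)⁻¹ : ℝ) : ℂ) := by
    funext u
    rw [one_div]
  rw [e1]
  refine h1.congr_deriv ?_
  push_cast
  have hu0 : (u : ℂ) ≠ 0 := by exact_mod_cast (by linarith : u ≠ 0)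
  have hl' : (Real.log u : ℂ) ≠ 0 := by exact_mod_cast hl
  field_simp

theorem hasDeriv_ff (t : ℝ) {u : ℝ} (hu : 2 ≤ u) : HasDerivAt (ff t) (ff' t u) u := by
  have hl : Real.log u ≠ 0 := (Real.log_pos (by linarith)).ne'
  have hu0 : u ≠ 0 := by linarith
  have h1 : HasDerivAt (fun u : ℝ => ((1 / u : ℝ) : ℂ)) (-((1 / u ^ 2 : ℝ) : ℂ)) u := by
    have h2 := (hasDerivAt_inv hu0).ofReal_comp
    have e1 : (fun u : ℝ => ((1 / u : ℝ) : ℂ)) = fun u : ℝ => ((u⁻¹ : ℝ) : ℂ) := by
      funext u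
      rw [one_div]
    rw [e1]
    refine h2.congr_deriv ?_
    push_cast
    rw [one_div]
  have h2 := (hasDeriv_ee t hu).mul (h1.mul (hasDeriv_inv hu))
  have e2 : ff t = fun u => ee t u * (((1 / u : ℝ) : ℂ) * ((1 / Real.log u : ℝ) : ℂ)) := by
    funext u
    unfold ff
    congr 1
    push_cast
    rw [one_div, one_div, one_div, mul_inv]
  rw [e2]
  refine h2.congr_deriv ?_
  unfold ff'
  have hu0' : (u : ℂ) ≠ 0 := by exact_mod_cast hu0
  have hl' : (Real.log u : ℂ) ≠ 0 := by exact_mod_cast hl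
  simp only [Pi.mul_apply]
  push_cast
  field_simp
  ring

theorem norm_ff {t u : ℝ} (hu : 2 ≤ u) : ‖ff t u‖ = 1 / (u * Real.log u) := by
  have hl : 0 < Real.log u := Real.log_pos (by linarith)
  unfold ff
  rw [norm_mul, norm_ee, one_mul, Complex.norm_real, Real.norm_of_nonneg (by positivity)]

theorem norm_ff' {t u : ℝ} (ht : |t| ≤ 1) (hu : 2 ≤ u) :
    ‖ff' t u‖ ≤ 4 / (u ^ 2 * Real.log u) := by
  have hl : 0 < Real.log u := Real.log_pos (by linarith)
  unfold ff'
  rw [norm_neg, norm_mul, norm_mul, norm_ee, one_mul, Complex.norm_real,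
    Real.norm_of_nonneg (by positivity)]
  have h1 : 1 / Real.log u ≤ 2 := by
    have h2 : Real.log 2 ≤ Real.log u := Real.log_le_log (by norm_num) hu
    have := Real.log_two_gt_d9
    rw [div_le_iff₀ hl]
    linarith
  have h3 : ‖(t * Complex.I + ((1 + 1 / Real.log u : ℝ) : ℂ))‖ ≤ 4 := by
    refine (norm_add_le _ _).trans ?_
    rw [norm_mul, Complex.norm_I, mul_one, Complex.norm_real, Complex.norm_real,
      Real.norm_of_nonneg (by positivity : 0 ≤ 1 + 1 / Real.log u), Real.norm_eq_abs]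
    linarith
  calc 1 / (u ^ 2 * Real.log u) * ‖(t * Complex.I + ((1 + 1 / Real.log u : ℝ) : ℂ))‖
      ≤ 1 / (u ^ 2 * Real.log u) * 4 := by gcongr
    _ = _ := by ring

theorem cont_on (t : ℝ) : ContinuousOn (ee t) (Set.Ici 2) ∧ ContinuousOn (ff t) (Set.Ici 2) ∧
    ContinuousOn (ff' t) (Set.Ici 2) := by
  have h1 : ContinuousOn (ee t) (Set.Ici 2) := fun u hu =>
    (hasDeriv_ee t hu).continuousAt.continuousWithinAt
  have h2 : ContinuousOn (ff t) (Set.Ici 2) := fun u hu =>
    (hasDeriv_ff t hu).continuousAt.continuousWithinAt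
  refine ⟨h1, h2, ?_⟩
  unfold ff'
  have hlog : ContinuousOn Real.log (Set.Ici 2) := Real.continuousOn_log.mono fun u hu => by
    have : (2 : ℝ) ≤ u := hu
    simp only [Set.mem_compl_iff, Set.mem_singleton_iff]
    linarith
  have hne : ∀ u ∈ Set.Ici (2 : ℝ), Real.log u ≠ 0 := fun u hu =>
    (Real.log_pos (by have : (2 : ℝ) ≤ u := hu; linarith)).ne'
  have hne2 : ∀ u ∈ Set.Ici (2 : ℝ), u ^ 2 * Real.log u ≠ 0 := fun u hu =>
    mul_ne_zero (by have : (2 : ℝ) ≤ u := hu; positivity) (hne u hu)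
  have h3 : ContinuousOn (fun u : ℝ => 1 / (u ^ 2 * Real.log u)) (Set.Ici 2) :=
    continuousOn_const.div ((continuousOn_id.pow 2).mul hlog) hne2
  have h4 : ContinuousOn (fun u : ℝ => 1 + 1 / Real.log u) (Set.Ici 2) :=
    continuousOn_const.add (continuousOn_const.div hlog hne)
  exact ((h1.mul (Complex.continuous_ofReal.comp_continuousOn h3)).mul
    (continuousOn_const.add (Complex.continuous_ofReal.comp_continuousOn h4))).neg

/-- Coefficients for partial summation. -/
noncomputable def cc (k : ℕ) : ℂ := if k.Prime then (Real.log k : ℂ) else 0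

theorem sum_cc (u : ℝ) : ∑ k ∈ Icc 0 ⌊u⌋₊, cc k = (Chebyshev.theta u : ℂ) := by
  rw [Chebyshev.theta_eq_sum_Icc, Finset.sum_filter]
  push_cast
  refine Finset.sum_congr rfl fun k _ => ?_
  unfold cc
  split_ifs <;> simp

theorem ff_cc (t : ℝ) (k : ℕ) : ff t k * cc k = if k.Prime then ee t k / k else 0 := by
  unfold cc
  split_ifs with h
  · have h1 : (1 : ℝ) < k := by exact_mod_cast h.one_lt
    have hl : (Real.log k : ℂ) ≠ 0 := by exact_mod_cast (Real.log_pos h1).ne'
    have hk : (k : ℂ) ≠ 0 := by exact_mod_cast h.ne_zero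
    unfold ff
    push_cast
    have hl' : Complex.log (k : ℂ) ≠ 0 := by
      have := Complex.natCast_log (n := k)
      rw [← this]
      exact hl
    field_simp
  · rw [mul_zero]

theorem sum_Ioc_eq (t : ℝ) {x z : ℕ} (hx : 2 ≤ x) (hxz : x ≤ z) :
    ∑ k ∈ Ioc x z, (if k.Prime then ee t k / k else 0) =
      ff t z * (Chebyshev.theta z : ℂ) - ff t x * (Chebyshev.theta x : ℂ) -
        ∫ u in (x : ℝ)..z, ff' t u * (Chebyshev.theta u : ℂ) := by
  have hxz' : (x : ℝ) ≤ z := by exact_mod_cast hxz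
  have hx2 : (2 : ℝ) ≤ x := by exact_mod_cast hx
  have hd : ∀ u ∈ Set.Icc (x : ℝ) z, HasDerivAt (ff t) (ff' t u) u := fun u hu =>
    hasDeriv_ff t (hx2.trans hu.1)
  have hint : IntegrableOn (deriv (ff t)) (Set.Icc (x : ℝ) z) := by
    apply ContinuousOn.integrableOn_Icc
    exact ((cont_on t).2.2.mono fun u hu => hx2.trans hu.1).congr fun u hu => (hd u hu).deriv
  have h := sum_mul_eq_sub_sub_integral_mul' cc hxz
    (fun u hu => (hd u hu).differentiableAt) hint
  simp only [ff_cc] at h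
  rw [h]
  have e1 : ∑ k ∈ Icc 0 z, cc k = (Chebyshev.theta z : ℂ) := by
    have := sum_cc z
    rwa [Nat.floor_natCast] at this
  have e2 : ∑ k ∈ Icc 0 x, cc k = (Chebyshev.theta x : ℂ) := by
    have := sum_cc x
    rwa [Nat.floor_natCast] at this
  rw [e1, e2, intervalIntegral.integral_of_le hxz']
  congr 1
  refine setIntegral_congr_fun measurableSet_Ioc fun u hu => ?_
  show deriv (ff t) u * _ = _
  rw [sum_cc, (hd u ⟨hu.1.le, hu.2⟩).deriv]

theorem theta_int (t : ℝ) {x z : ℕ} (hx : 2 ≤ x) (hxz : x ≤ z) :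
    IntervalIntegrable (fun u : ℝ => ff' t u * (Chebyshev.theta u : ℂ)) volume x z := by
  have hxz' : (x : ℝ) ≤ z := by exact_mod_cast hxz
  have hx2 : (2 : ℝ) ≤ x := by exact_mod_cast hx
  rw [intervalIntegrable_iff_integrableOn_Icc_of_le hxz']
  have h1 : IntegrableOn (ff' t) (Set.Icc (x : ℝ) z) :=
    ((cont_on t).2.2.mono fun u hu => hx2.trans hu.1).integrableOn_Icc
  have h2 := integrableOn_mul_sum_Icc cc (m := 0) (by positivity : (0 : ℝ) ≤ x) h1
  simp_rw [sum_cc] at h2
  exact h2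

theorem int_inv_log (k : ℕ) {x z : ℝ} (hx : 2 ≤ x) (hxz : x ≤ z) :
    IntervalIntegrable (fun u : ℝ => 1 / (u * Real.log u ^ (k + 2))) volume x z ∧
    ∫ u in x..z, 1 / (u * Real.log u ^ (k + 2)) =
      (1 / Real.log x ^ (k + 1) - 1 / Real.log z ^ (k + 1)) / (k + 1) := by
  have hpos : ∀ u ∈ Set.uIcc x z, 0 < u ∧ 0 < Real.log u := by
    intro u hu
    rw [Set.uIcc_of_le hxz] at hu
    exact ⟨by linarith [hu.1], Real.log_pos (by linarith [hu.1])⟩
  have hi : IntervalIntegrable (fun u : ℝ => 1 / (u * Real.log u ^ (k + 2))) volume x z := by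
    apply ContinuousOn.intervalIntegrable
    refine ContinuousOn.div continuousOn_const ?_ ?_
    · exact ContinuousOn.mul continuousOn_id ((Real.continuousOn_log.mono fun t ht =>
        (hpos t ht).1.ne').pow _)
    · intro t ht
      have := hpos t ht
      exact (mul_pos this.1 (pow_pos this.2 _)).ne'
  refine ⟨hi, ?_⟩
  rw [intervalIntegral.integral_eq_sub_of_hasDerivAt
    (f := fun u : ℝ => -(1 / Real.log u ^ (k + 1)) / (k + 1)) (fun u hu => ?_) hi]
  · ring
  · have h1 := hpos u hu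
    have hp : Real.log u ^ (k + 1) ≠ 0 := (pow_pos h1.2 _).ne'
    have h2 := (((Real.hasDerivAt_log h1.1.ne').pow (k + 1)).inv hp).neg.div_const ((k : ℝ) + 1)
    have e1 : (fun u : ℝ => -(1 / Real.log u ^ (k + 1)) / (k + 1)) =
        fun u : ℝ => -(Real.log u ^ (k + 1))⁻¹ / (k + 1) := by
      funext u
      rw [one_div]
    rw [e1]
    refine h2.congr_deriv ?_
    have hk : (k : ℝ) + 1 ≠ 0 := by positivity
    have hl := h1.2.ne'
    have hu0 := h1.1.ne'
    simp only [Pi.pow_apply, add_tsub_cancel_right, Nat.cast_add, Nat.cast_one]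
    field_simp
    ring

theorem main_int {t : ℝ} (ht : t ≠ 0) {x z : ℝ} (hx : 2 ≤ x) (hxz : x ≤ z) :
    ‖∫ u in x..z, ff t u‖ ≤ 2 / (|t| * Real.log x) := by
  have hge : ∀ u ∈ Set.uIcc x z, 2 ≤ u := by
    intro u hu
    rw [Set.uIcc_of_le hxz] at hu
    linarith [hu.1]
  have hlx : 0 < Real.log x := Real.log_pos (by linarith)
  have hlz : 0 < Real.log z := Real.log_pos (by linarith)
  have hff : IntervalIntegrable (ff t) volume x z :=
    ContinuousOn.intervalIntegrable ((cont_on t).2.1.mono hge)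
  have hg : IntervalIntegrable (fun u => ee t u * ((1 / (u * Real.log u ^ 2) : ℝ) : ℂ))
      volume x z := by
    apply ContinuousOn.intervalIntegrable
    refine ((cont_on t).1.mono hge).mul (Complex.continuous_ofReal.comp_continuousOn ?_)
    refine ContinuousOn.div continuousOn_const ?_ ?_
    · exact ContinuousOn.mul continuousOn_id ((Real.continuousOn_log.mono fun u hu => by
        have := hge u hu
        simp only [Set.mem_compl_iff, Set.mem_singleton_iff]
        linarith).pow _)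
    · intro u hu
      have := hge u hu
      exact (mul_pos (by linarith) (pow_pos (Real.log_pos (by linarith)) _)).ne'
  have hder : ∀ u ∈ Set.uIcc x z, HasDerivAt (fun u => ee t u * ((1 / Real.log u : ℝ) : ℂ))
      (-(t * Complex.I) * ff t u - ee t u * ((1 / (u * Real.log u ^ 2) : ℝ) : ℂ)) u := by
    intro u hu
    have hu2 := hge u hu
    have h1 := (hasDeriv_ee t hu2).mul (hasDeriv_inv hu2)
    refine h1.congr_deriv ?_
    unfold ff
    have hu0' : (u : ℂ) ≠ 0 := by exact_mod_cast (by linarith : u ≠ 0)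
    have hl' : (Real.log u : ℂ) ≠ 0 := by exact_mod_cast (Real.log_pos (by linarith)).ne'
    push_cast
    field_simp
    ring
  have h1 := intervalIntegral.integral_eq_sub_of_hasDerivAt hder
    ((hff.const_mul _).sub hg)
  rw [intervalIntegral.integral_sub (hff.const_mul _) hg, intervalIntegral.integral_const_mul] at h1
  have h2 : ‖∫ u in x..z, ee t u * ((1 / (u * Real.log u ^ 2) : ℝ) : ℂ)‖ ≤
      1 / Real.log x - 1 / Real.log z := by
    have h3 := int_inv_log 0 hx hxz
    have h4 : ∫ u in x..z, 1 / (u * Real.log u ^ 2) = 1 / Real.log x - 1 / Real.log z := by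
      have := h3.2
      simpa using this
    rw [← h4]
    refine intervalIntegral.norm_integral_le_of_norm_le hxz (Eventually.of_forall fun u hu => ?_)
      (by simpa using h3.1)
    have hu2 : 2 ≤ u := by linarith [hu.1]
    have hl : 0 < Real.log u := Real.log_pos (by linarith)
    rw [norm_mul, norm_ee, one_mul, Complex.norm_real, Real.norm_of_nonneg (by positivity)]
  have h5 : (t * Complex.I : ℂ) * ∫ u in x..z, ff t u =
      -(ee t z * ((1 / Real.log z : ℝ) : ℂ)) + ee t x * ((1 / Real.log x : ℝ) : ℂ) -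
        ∫ u in x..z, ee t u * ((1 / (u * Real.log u ^ 2) : ℝ) : ℂ) := by
    linear_combination -h1
  have h6 : |t| * ‖∫ u in x..z, ff t u‖ ≤ 2 / Real.log x := by
    have h7 : |t| * ‖∫ u in x..z, ff t u‖ = ‖(t * Complex.I : ℂ) * ∫ u in x..z, ff t u‖ := by
      rw [norm_mul, norm_mul, Complex.norm_I, mul_one, Complex.norm_real, Real.norm_eq_abs]
    rw [h7, h5]
    refine (norm_sub_le _ _).trans ?_
    have h8 := norm_add_le (-(ee t z * ((1 / Real.log z : ℝ) : ℂ)))
      (ee t x * ((1 / Real.log x : ℝ) : ℂ))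
    rw [norm_neg, norm_mul, norm_mul, norm_ee, norm_ee, one_mul, one_mul, Complex.norm_real,
      Complex.norm_real, Real.norm_of_nonneg (by positivity), Real.norm_of_nonneg (by positivity)]
      at h8
    have h9 : 2 / Real.log x = 1 / Real.log x + 1 / Real.log x := by ring
    linarith
  have ht' : 0 < |t| := abs_pos.2 ht
  rw [le_div_iff₀ (by positivity)]
  rw [le_div_iff₀ hlx] at h6
  linarith

theorem prim_tail_Ioc : ∃ C : ℝ, 0 < C ∧ ∀ (t : ℝ) (x z : ℕ), 2 ≤ x → x ≤ z → t ≠ 0 → |t| ≤ 1 →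
    ‖∑ k ∈ Ioc x z, (if k.Prime then ee t k / k else 0)‖ ≤ C / (|t| * Real.log x) := by
  obtain ⟨C, hC, hE⟩ := theta_err
  refine ⟨12 * C + 2, by positivity, fun t x z hx hxz ht ht1 => ?_⟩
  have hxz' : (x : ℝ) ≤ z := by exact_mod_cast hxz
  have hx2 : (2 : ℝ) ≤ x := by exact_mod_cast hx
  have hz2 : (2 : ℝ) ≤ z := hx2.trans hxz'
  have ht' : 0 < |t| := abs_pos.2 ht
  have hlx : 0 < Real.log x := Real.log_pos (by linarith)
  have hlz : 0 < Real.log z := Real.log_pos (by linarith)
  have hlxz : Real.log x ≤ Real.log z := Real.log_le_log (by linarith) hxz'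
  have hl2 : 1 / 2 ≤ Real.log x := by
    have h1 : Real.log 2 ≤ Real.log x := Real.log_le_log (by norm_num) hx2
    have := Real.log_two_gt_d9
    linarith
  have hge : ∀ u ∈ Set.uIcc (x : ℝ) z, 2 ≤ u := by
    intro u hu
    rw [Set.uIcc_of_le hxz'] at hu
    linarith [hu.1]
  have hff : IntervalIntegrable (ff t) volume x z :=
    ContinuousOn.intervalIntegrable ((cont_on t).2.1.mono hge)
  have hfu : IntervalIntegrable (fun u : ℝ => ff' t u * (u : ℂ)) volume x z :=
    ContinuousOn.intervalIntegrable (((cont_on t).2.2.mono hge).mul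
      Complex.continuous_ofReal.continuousOn)
  have hth := theta_int t hx hxz
  rw [sum_Ioc_eq t hx hxz]
  -- integration by parts
  have h1 : ∫ u in (x : ℝ)..z, (ff' t u * (u : ℂ) + ff t u) = ff t z * (z : ℂ) - ff t x * (x : ℂ) := by
    have h2 := intervalIntegral.integral_eq_sub_of_hasDerivAt (a := (x : ℝ)) (b := z)
      (f := fun u : ℝ => ff t u * (u : ℂ)) (f' := fun u => ff' t u * (u : ℂ) + ff t u)
      (fun u hu => by
        have h3 : HasDerivAt (fun u : ℝ => ff t u * (u : ℂ))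
            (ff' t u * (u : ℂ) + ff t u * ((1 : ℝ) : ℂ)) u :=
          (hasDeriv_ff t (hge u hu)).mul ((hasDerivAt_id u).ofReal_comp)
        refine h3.congr_deriv ?_
        rw [Complex.ofReal_one, mul_one]) (hfu.add hff)
    rw [h2]
    push_cast
    rfl
  rw [intervalIntegral.integral_add hfu hff] at h1
  have h4 : ∫ u in (x : ℝ)..z, ff' t u * ((Chebyshev.theta u - u : ℝ) : ℂ) =
      (∫ u in (x : ℝ)..z, ff' t u * (Chebyshev.theta u : ℂ)) -
        ∫ u in (x : ℝ)..z, ff' t u * (u : ℂ) := by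
    rw [← intervalIntegral.integral_sub hth hfu]
    refine intervalIntegral.integral_congr fun u _ => ?_
    show ff' t u * ((Chebyshev.theta u - u : ℝ) : ℂ) = _
    push_cast
    ring
  have h5 : ff t z * (Chebyshev.theta z : ℂ) - ff t x * (Chebyshev.theta x : ℂ) -
        ∫ u in (x : ℝ)..z, ff' t u * (Chebyshev.theta u : ℂ) =
      ff t z * ((Chebyshev.theta z - z : ℝ) : ℂ) - ff t x * ((Chebyshev.theta x - x : ℝ) : ℂ) -
        (∫ u in (x : ℝ)..z, ff' t u * ((Chebyshev.theta u - u : ℝ) : ℂ)) +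
        ∫ u in (x : ℝ)..z, ff t u := by
    rw [h4]
    push_cast
    linear_combination -h1
  rw [h5]
  have b1 : ∀ y : ℝ, 2 ≤ y → Real.log x ≤ Real.log y →
      ‖ff t y * ((Chebyshev.theta y - y : ℝ) : ℂ)‖ ≤ C * (1 / Real.log x ^ 3) := by
    intro y hy hxy
    have hly : 0 < Real.log y := Real.log_pos (by linarith)
    rw [norm_mul, norm_ff hy, Complex.norm_real, Real.norm_eq_abs]
    calc 1 / (y * Real.log y) * |Chebyshev.theta y - y|
        ≤ 1 / (y * Real.log y) * (C * (y / Real.log y ^ 2)) := by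
          gcongr
          exact hE y hy
      _ = C * (1 / Real.log y ^ 3) := by
          field_simp
      _ ≤ _ := by gcongr
  have b2 : ‖∫ u in (x : ℝ)..z, ff' t u * ((Chebyshev.theta u - u : ℝ) : ℂ)‖ ≤
      2 * C * (1 / Real.log x ^ 2) := by
    have h3 := int_inv_log 1 hx2 hxz'
    have h6 : ‖∫ u in (x : ℝ)..z, ff' t u * ((Chebyshev.theta u - u : ℝ) : ℂ)‖ ≤
        ∫ u in (x : ℝ)..z, 4 * C * (1 / (u * Real.log u ^ (1 + 2))) := by
      refine intervalIntegral.norm_integral_le_of_norm_le hxz' (Eventually.of_forall fun u hu => ?_)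
        (h3.1.const_mul _)
      have hu2 : 2 ≤ u := by linarith [hu.1]
      have hl : 0 < Real.log u := Real.log_pos (by linarith)
      rw [norm_mul, Complex.norm_real, Real.norm_eq_abs]
      calc ‖ff' t u‖ * |Chebyshev.theta u - u| ≤ 4 / (u ^ 2 * Real.log u) *
            (C * (u / Real.log u ^ 2)) :=
            mul_le_mul (norm_ff' ht1 hu2) (hE u hu2) (abs_nonneg _) (by positivity)
        _ = _ := by field_simp
    rw [intervalIntegral.integral_const_mul, h3.2] at h6
    refine h6.trans ?_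
    have h7 : 0 ≤ 1 / Real.log z ^ (1 + 1) := by positivity
    have h8 : 4 * C * ((1 / Real.log x ^ (1 + 1) - 1 / Real.log z ^ (1 + 1)) / ((1 : ℕ) + 1)) =
        2 * C * (1 / Real.log x ^ 2 - 1 / Real.log z ^ (1 + 1)) := by
      norm_num
      ring
    rw [h8]
    gcongr
    linarith
  have b3 := main_int ht hx2 hxz'
  have b4 := b1 z hz2 hlxz
  have b5 := b1 x hx2 le_rfl
  have b6 : ‖ff t z * ((Chebyshev.theta z - z : ℝ) : ℂ) - ff t x * ((Chebyshev.theta x - x : ℝ) : ℂ) -
        (∫ u in (x : ℝ)..z, ff' t u * ((Chebyshev.theta u - u : ℝ) : ℂ)) +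
        ∫ u in (x : ℝ)..z, ff t u‖ ≤ 2 * (C * (1 / Real.log x ^ 3)) +
          2 * C * (1 / Real.log x ^ 2) + 2 / (|t| * Real.log x) := by
    refine (norm_add_le _ _).trans (add_le_add ((norm_sub_le _ _).trans (add_le_add
      ((norm_sub_le _ _).trans ?_) b2)) b3)
    linarith
  refine b6.trans ?_
  have c1 : 1 / Real.log x ≤ 2 := by
    rw [div_le_iff₀ hlx]
    linarith
  have c2 : 1 / Real.log x ^ 3 ≤ 4 * (1 / Real.log x) := by
    have : 1 / Real.log x ^ 3 = (1 / Real.log x) * ((1 / Real.log x) * (1 / Real.log x)) := by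
      field_simp
    rw [this, mul_comm 4]
    have h0 : 0 < 1 / Real.log x := by positivity
    apply mul_le_mul_of_nonneg_left _ h0.le
    nlinarith
  have c3 : 1 / Real.log x ^ 2 ≤ 2 * (1 / Real.log x) := by
    have : 1 / Real.log x ^ 2 = (1 / Real.log x) * (1 / Real.log x) := by
      field_simp
    rw [this, mul_comm 2]
    have h0 : 0 < 1 / Real.log x := by positivity
    apply mul_le_mul_of_nonneg_left _ h0.le
    exact c1
  have c4 : 1 / Real.log x ≤ 1 / (|t| * Real.log x) := by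
    apply one_div_le_one_div_of_le (by positivity)
    nlinarith
  have c5 : (12 * C + 2) / (|t| * Real.log x) = 12 * C * (1 / (|t| * Real.log x)) +
      2 / (|t| * Real.log x) := by ring
  rw [c5]
  nlinarith [mul_le_mul_of_nonneg_left c2 hC.le, mul_le_mul_of_nonneg_left c3 hC.le,
    mul_le_mul_of_nonneg_left c4 hC.le]

end Pool.Agent.Q255.SA
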