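import Pool.Agent.Q255.SA.Prim
import Pool.Agent.Erdos456.Mertens

/-! # Sums over primes of `p^(-1-it)` for small `t`, continued -/

set_option autoImplicit false

namespace Pool.Agent.Q255.SA

open Finset MeasureTheory Filter Topology

/-- sum over the primes in `[x, z)` of `p^(-1-it)` -/
noncomputable def PS (x z : ℕ) (t : ℝ) : ℂ := ∑ k ∈ Ico x z, (if k.Prime then ee t k / k else 0)

/-- sum over the primes in `[x, z)` of `1/p` -/
noncomputable def RS (x z : ℕ) : ℝ := ∑ k ∈ Ico x z, (if k.Prime then 1 / (k : ℝ) else 0)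

theorem RS_nonneg (x z : ℕ) : 0 ≤ RS x z := by
  unfold RS
  refine Finset.sum_nonneg fun k _ => ?_
  split_ifs
  · positivity
  · exact le_rfl

theorem PS_add {x y z : ℕ} (t : ℝ) (h1 : x ≤ y) (h2 : y ≤ z) : PS x y t + PS y z t = PS x z t := by
  unfold PS
  exact Finset.sum_Ico_consecutive _ h1 h2

theorem RS_add {x y z : ℕ} (h1 : x ≤ y) (h2 : y ≤ z) : RS x y + RS y z = RS x z := by
  unfold RS
  exact Finset.sum_Ico_consecutive _ h1 h2

theorem norm_PS_le (x z : ℕ) (t : ℝ) : ‖PS x z t‖ ≤ RS x z := by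
  unfold PS RS
  refine norm_sum_le_of_le _ fun k _ => ?_
  split_ifs
  · rw [norm_div, norm_ee, Complex.norm_natCast]
  · simp

theorem mert : ∃ C : ℝ, 0 < C ∧ ∀ z : ℕ, 3 ≤ z → |RS 0 z - Real.log (Real.log z)| ≤ C := by
  obtain ⟨C, h⟩ := Pool.Agent.Erdos456.Mert.mertens_inv
  have hC : 0 ≤ C := (abs_nonneg _).trans (h 3 le_rfl)
  refine ⟨C + 1, by positivity, fun z hz => ?_⟩
  have h1 : ∑ p ∈ (Finset.Icc 1 z).filter Nat.Prime, (1 : ℝ) / p =
      RS 0 z + (if z.Prime then 1 / (z : ℝ) else 0) := by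
    unfold RS
    rw [Finset.sum_filter, ← Finset.sum_Ico_succ_top (Nat.zero_le z)
      (fun k : ℕ => if k.Prime then 1 / (k : ℝ) else 0)]
    refine Finset.sum_subset (fun k hk => ?_) (fun k hk hk' => ?_)
    · rw [Finset.mem_Icc] at hk
      rw [Finset.mem_Ico]
      omega
    · rw [Finset.mem_Ico] at hk
      rw [Finset.mem_Icc, not_and_or] at hk'
      have : k = 0 := by omega
      rw [this, if_neg Nat.not_prime_zero]
  have h2 := h z hz
  rw [h1] at h2
  have h3 : |(if z.Prime then 1 / (z : ℝ) else 0)| ≤ 1 := by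
    split_ifs
    · have : (1 : ℝ) ≤ z := by exact_mod_cast (by omega : 1 ≤ z)
      rw [abs_of_nonneg (by positivity), div_le_one (by linarith)]
      exact this
    · simp
  have e : RS 0 z - Real.log (Real.log z) = (RS 0 z + (if z.Prime then 1 / (z : ℝ) else 0) -
      Real.log (Real.log z)) - (if z.Prime then 1 / (z : ℝ) else 0) := by ring
  rw [e]
  exact (abs_sub _ _).trans (by linarith)

theorem prim_tail : ∃ C : ℝ, 0 < C ∧ ∀ (t : ℝ) (x z : ℕ), 2 ≤ x → x ≤ z → t ≠ 0 → |t| ≤ 1 →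
    ‖PS x z t‖ ≤ C / (|t| * Real.log x) := by
  obtain ⟨C, hC, h⟩ := prim_tail_Ioc
  refine ⟨C + 2, by positivity, fun t x z hx hxz ht ht1 => ?_⟩
  have hx2 : (2 : ℝ) ≤ x := by exact_mod_cast hx
  have hxz' : (x : ℝ) ≤ z := by exact_mod_cast hxz
  have ht' : 0 < |t| := abs_pos.2 ht
  have hlx : 0 < Real.log x := Real.log_pos (by linarith)
  set g : ℕ → ℂ := fun k => if k.Prime then ee t k / k else 0 with hg
  have h1 : PS x z t = (∑ k ∈ Ioc x z, g k) + g x - g z := by
    have h2 : ∑ k ∈ Icc x z, g k = g z + ∑ k ∈ Ico x z, g k := by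
      rw [← Finset.Ico_insert_right hxz, Finset.sum_insert Finset.right_notMem_Ico]
    have h3 : ∑ k ∈ Icc x z, g k = g x + ∑ k ∈ Ioc x z, g k := by
      rw [← Finset.Ioc_insert_left hxz, Finset.sum_insert Finset.left_notMem_Ioc]
    have h4 : PS x z t = ∑ k ∈ Ico x z, g k := rfl
    rw [h4]
    linear_combination h3 - h2
  have hb : ∀ y : ℕ, x ≤ y → ‖g y‖ ≤ 1 / (|t| * Real.log x) := by
    intro y hy
    have hy' : (x : ℝ) ≤ y := by exact_mod_cast hy
    have hy0 : (0 : ℝ) < y := by linarith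
    have h5 : ‖g y‖ ≤ 1 / y := by
      simp only [hg]
      split_ifs
      · rw [norm_div, norm_ee, Complex.norm_natCast]
      · rw [norm_zero]
        positivity
    refine h5.trans (one_div_le_one_div_of_le (by positivity) ?_)
    have h6 : Real.log x ≤ x := (Real.log_le_sub_one_of_pos (by linarith)).trans (by linarith)
    nlinarith
  rw [h1]
  have h7 := h t x z hx hxz ht ht1
  have h8 : (C + 2) / (|t| * Real.log x) = C / (|t| * Real.log x) + 1 / (|t| * Real.log x) +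
      1 / (|t| * Real.log x) := by ring
  rw [h8]
  exact (norm_sub_le _ _).trans (add_le_add ((norm_add_le _ _).trans (add_le_add h7
    (hb x le_rfl))) (hb z hxz))

theorem cut {t : ℝ} (ht : t ≠ 0) (ht1 : |t| ≤ 1) :
    3 ≤ ⌈Real.exp (1 / |t|)⌉₊ ∧ 1 / |t| ≤ Real.log ⌈Real.exp (1 / |t|)⌉₊ ∧
      Real.log (Real.log ⌈Real.exp (1 / |t|)⌉₊) ≤ -Real.log |t| + 1 := by
  have ht' : 0 < |t| := abs_pos.2 ht
  have h1 : 1 ≤ 1 / |t| := by rwa [le_div_iff₀ ht', one_mul]
  have h2 : Real.exp 1 ≤ Real.exp (1 / |t|) := Real.exp_le_exp.2 h1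
  have h3 : Real.exp (1 / |t|) ≤ ⌈Real.exp (1 / |t|)⌉₊ := Nat.le_ceil _
  have he := Real.exp_one_gt_d9
  have h4 : 3 ≤ ⌈Real.exp (1 / |t|)⌉₊ := by
    have h5 : (2 : ℝ) < ⌈Real.exp (1 / |t|)⌉₊ := by linarith
    have : 2 < ⌈Real.exp (1 / |t|)⌉₊ := by exact_mod_cast h5
    omega
  have h5 : 1 / |t| ≤ Real.log ⌈Real.exp (1 / |t|)⌉₊ := by
    have := Real.log_le_log (Real.exp_pos _) h3
    rwa [Real.log_exp] at this
  refine ⟨h4, h5, ?_⟩
  have h6 : (⌈Real.exp (1 / |t|)⌉₊ : ℝ) ≤ Real.exp (1 / |t| + 1) := by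
    have h7 := (Nat.ceil_lt_add_one (Real.exp_pos (1 / |t|)).le).le
    rw [Real.exp_add]
    nlinarith
  have h7 : Real.log ⌈Real.exp (1 / |t|)⌉₊ ≤ 1 / |t| + 1 := by
    have := Real.log_le_log (by positivity : (0 : ℝ) < ⌈Real.exp (1 / |t|)⌉₊) h6
    rwa [Real.log_exp] at this
  have h8 : Real.log ⌈Real.exp (1 / |t|)⌉₊ ≤ Real.exp 1 / |t| := by
    have : 1 / |t| + 1 ≤ 2 * (1 / |t|) := by linarith
    calc _ ≤ 2 * (1 / |t|) := h7.trans this
      _ ≤ Real.exp 1 * (1 / |t|) := by gcongr; linarith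
      _ = _ := by ring
  have h9 := Real.log_le_log (by linarith) h8
  rw [Real.log_div (Real.exp_pos 1).ne' ht'.ne', Real.log_exp] at h9
  linarith

theorem P1 : ∃ C : ℝ, 0 < C ∧ ∀ (t : ℝ) (x : ℕ), 3 ≤ x → |t| ≤ 1 →
    (PS 0 x t).re ≤ Real.log (Real.log x) + C ∧ (t ≠ 0 → (PS 0 x t).re ≤ -Real.log |t| + C) := by
  obtain ⟨C, hC, h⟩ := mert
  obtain ⟨C', hC', h'⟩ := prim_tail
  refine ⟨C + C' + 1, by positivity, fun t x hx ht1 => ?_⟩
  have hx3 : (3 : ℝ) ≤ x := by exact_mod_cast hx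
  have hlx : 0 < Real.log x := Real.log_pos (by linarith)
  have h1 : (PS 0 x t).re ≤ Real.log (Real.log x) + C := by
    have h2 := (Complex.re_le_norm _).trans (norm_PS_le 0 x t)
    have h3 := (abs_le.1 (h x hx)).2
    linarith
  refine ⟨by linarith, fun ht => ?_⟩
  have ht' : 0 < |t| := abs_pos.2 ht
  by_cases hcase : |t| * Real.log x ≤ 1
  · have h2 : Real.log (Real.log x) ≤ -Real.log |t| := by
      have := Real.log_nonpos (by positivity) hcase
      rw [Real.log_mul ht'.ne' hlx.ne'] at this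
      linarith
    linarith
  · push Not at hcase
    obtain ⟨h3, h4, h5⟩ := cut ht ht1
    set y := ⌈Real.exp (1 / |t|)⌉₊ with hy
    have hyx : y ≤ x := by
      rw [hy, Nat.ceil_le]
      rw [← Real.le_log_iff_exp_le (by linarith), div_le_iff₀ ht']
      linarith
    rw [← PS_add t (Nat.zero_le y) hyx, Complex.add_re]
    have h6 := (Complex.re_le_norm _).trans (norm_PS_le 0 y t)
    have h7 := (abs_le.1 (h y h3)).2
    have h8 := (Complex.re_le_norm _).trans (h' t y x (by omega) hyx ht ht1)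
    have h9 : C' / (|t| * Real.log y) ≤ C' := by
      have h10 : 1 ≤ |t| * Real.log y := by
        rw [div_le_iff₀ ht'] at h4
        linarith
      rw [div_le_iff₀ (by linarith)]
      nlinarith
    linarith

theorem P3 : ∃ C : ℝ, 0 < C ∧ ∀ (t : ℝ) (x z : ℕ), 3 ≤ x → x ≤ z → t ≠ 0 → |t| ≤ 1 →
    |t| * Real.log x ≤ 1 → (PS x z t).re ≤ -Real.log (|t| * Real.log x) + C := by
  obtain ⟨C, hC, h⟩ := mert
  obtain ⟨C', hC', h'⟩ := prim_tail
  refine ⟨2 * C + C' + 1, by positivity, fun t x z hx hxz ht ht1 htx => ?_⟩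
  have hx3 : (3 : ℝ) ≤ x := by exact_mod_cast hx
  have hxz' : (x : ℝ) ≤ z := by exact_mod_cast hxz
  have hlx : 0 < Real.log x := Real.log_pos (by linarith)
  have hlz : 0 < Real.log z := Real.log_pos (by linarith)
  have ht' : 0 < |t| := abs_pos.2 ht
  rw [Real.log_mul ht'.ne' hlx.ne']
  have hm : ∀ y : ℕ, x ≤ y → RS x y ≤ Real.log (Real.log y) - Real.log (Real.log x) + 2 * C := by
    intro y hy
    have h1 := RS_add (Nat.zero_le x) hy
    have h2 := (abs_le.1 (h y (by omega))).2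
    have h3 := (abs_le.1 (h x hx)).1
    linarith
  by_cases hcase : |t| * Real.log z ≤ 1
  · have h2 : Real.log (Real.log z) ≤ -Real.log |t| := by
      have := Real.log_nonpos (by positivity) hcase
      rw [Real.log_mul ht'.ne' hlz.ne'] at this
      linarith
    have h3 := (Complex.re_le_norm _).trans (norm_PS_le x z t)
    have h4 := hm z hxz
    linarith
  · push Not at hcase
    obtain ⟨h3, h4, h5⟩ := cut ht ht1
    set y := ⌈Real.exp (1 / |t|)⌉₊ with hy
    have hyz : y ≤ z := by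
      rw [hy, Nat.ceil_le]
      rw [← Real.le_log_iff_exp_le (by linarith), div_le_iff₀ ht']
      linarith
    have hxy : x ≤ y := by
      have h6 : (x : ℝ) ≤ Real.exp (1 / |t|) := by
        rw [← Real.log_le_iff_le_exp (by linarith), le_div_iff₀ ht']
        linarith
      exact_mod_cast h6.trans (Nat.le_ceil _)
    rw [← PS_add t hxy hyz, Complex.add_re]
    have h6 := (Complex.re_le_norm _).trans (norm_PS_le x y t)
    have h7 := hm y hxy
    have h8 := (Complex.re_le_norm _).trans (h' t y z (by omega) hyz ht ht1)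
    have h9 : C' / (|t| * Real.log y) ≤ C' := by
      have h10 : 1 ≤ |t| * Real.log y := by
        rw [div_le_iff₀ ht'] at h4
        linarith
      rw [div_le_iff₀ (by linarith)]
      nlinarith
    linarith

end Pool.Agent.Q255.SA
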